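import Mathlib

/-!
# MP_305fdd_al, F_2 project, section C (projection lemma and charts): definitions

Krull valuations of a field `K` are functions `v : K → Γ` into an ordered abelian group, written
additively, with the junk value `v 0 = 0`; see `IsV`.  All types are in `Type`.
-/

set_option autoImplicit false

namespace Pool.Agent.F2Ch

open MvPolynomial

section
variable {K Γ : Type} [Field K] [AddCommGroup Γ] [LinearOrder Γ] [IsOrderedAddMonoid Γ]

/-- A valuation, written additively, with the junk value `0` at `0`. -/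
structure IsV (v : K → Γ) : Prop where
  zero : v 0 = 0
  mul : ∀ x y, x ≠ 0 → y ≠ 0 → v (x * y) = v x + v y
  add : ∀ x y, x ≠ 0 → y ≠ 0 → x + y ≠ 0 → min (v x) (v y) ≤ v (x + y)

/-- trivial on the constants -/
def Triv (k : Type) [Field k] [Algebra k K] (v : K → Γ) : Prop := ∀ c : k, v (algebraMap k K c) = 0

/-- `x` is zero or has value at least `c` -/
def Ge (v : K → Γ) (c : Γ) (x : K) : Prop := x = 0 ∨ c ≤ v x

/-- `x` is zero or has value greater than `c` -/
def Gt (v : K → Γ) (c : Γ) (x : K) : Prop := x = 0 ∨ c < v x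

/-- compatibility of a valuation with a map: `v (φ f) ≥ v f / p` -/
def Compat (p : ℕ) (φ : K → K) (v : K → Γ) : Prop := ∀ f, φ f ≠ 0 → v f ≤ p • v (φ f)

end

/-- additive and `p⁻¹`-linear -/
structure IsPinv (p : ℕ) {K : Type} [Field K] (π : K → K) : Prop where
  add : ∀ x y, π (x + y) = π x + π y
  pow_mul : ∀ a b, π (a ^ p * b) = a * π b

/-- every element of `K` is a quotient of polynomials in the `t i` -/
def FracGen (k : Type) {K σ : Type} [Field k] [Field K] [Algebra k K] (t : σ → K) : Prop :=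
  ∀ x : K, ∃ a b : MvPolynomial σ k, aeval t b ≠ 0 ∧ x * aeval t b = aeval t a

/-- `w` is a basis of `K` over `K ^ p` with the coordinate functions `π i` -/
structure IsPB (p : ℕ) {K ι : Type} [Field K] [Fintype ι] (w : ι → K) (π : ι → K → K) : Prop where
  repr : ∀ f, ∑ i, (π i f) ^ p * w i = f
  uniq : ∀ (a : ι → K) (i : ι), π i (∑ j, a j ^ p * w j) = a i

/-- the result of applying the maps `π i`, `i` running through the list `l` -/
def wd {K ι : Type} (π : ι → K → K) (l : List ι) (f : K) : K := l.foldl (fun g i => π i g) f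

/-- all words of length `N` map `f` into `V` -/
def Abs {K ι : Type} (π : ι → K → K) (V : Set K) (N : ℕ) (f : K) : Prop :=
  ∀ l : List ι, l.length = N → wd π l f ∈ V

section
variable {K Γ : Type} [Field K] [AddCommGroup Γ] [LinearOrder Γ] [IsOrderedAddMonoid Γ]

/-- valuation independent families (over `K ^ p`) -/
structure VI (p : ℕ) {ι : Type} [Fintype ι] (v : K → Γ) (w : ι → K) : Prop where
  ne : ∀ i, w i ≠ 0
  ne_zero : ∀ (a : ι → K) (i : ι), a i ≠ 0 → ∑ j, a j ^ p * w j ≠ 0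
  le : ∀ (a : ι → K) (i : ι), a i ≠ 0 → v (∑ j, a j ^ p * w j) ≤ p • v (a i) + v (w i)

/-- the weight of an exponent -/
def wt {Γ : Type} [AddCommGroup Γ] {r : ℕ} (u : Fin r → Γ) (m : Fin r → ℤ) : Γ := ∑ i, m i • u i

/-- a `ℤ`-basis of the value group with positive values; `ex f` is the exponent of `f` -/
structure IsVB {r : ℕ} (v : K → Γ) (x : Fin r → K) (ex : K → Fin r → ℤ) : Prop where
  ne : ∀ i, x i ≠ 0
  pos : ∀ i, 0 < v (x i)
  indep : ∀ m : Fin r → ℤ, wt (fun i => v (x i)) m = 0 → m = 0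
  gen : ∀ f, f ≠ 0 → v f = wt (fun i => v (x i)) (ex f)
  zero : ex 0 = 0

open Classical in
/-- leading coefficient at level `γ` with respect to an angular component `ac` -/
noncomputable def lc {κ : Type} [Field κ] (v : K → Γ) (ac : K → κ) (γ : Γ) (f : K) : κ :=
  if f ≠ 0 ∧ v f = γ then ac f else 0

/-- `κ` is (identified with) the residue field of `v` and `ac` is an angular component with
`ac (x i) = 1`. -/
structure IsAC (k : Type) {κ : Type} {r : ℕ} [Field k] [Algebra k K] [Field κ]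
    [Algebra k κ] (v : K → Γ) (x : Fin r → K) (ac : K → κ) : Prop where
  zero : ac 0 = 0
  ne : ∀ f, f ≠ 0 → ac f ≠ 0
  mul : ∀ f g, ac (f * g) = ac f * ac g
  alg : ∀ c : k, ac (algebraMap k K c) = algebraMap k κ c
  x_one : ∀ i, ac (x i) = 1
  surj : ∀ c : κ, c ≠ 0 → ∃ f, f ≠ 0 ∧ v f = 0 ∧ ac f = c
  add : ∀ γ f g, Ge v γ f → Ge v γ g → lc v ac γ (f + g) = lc v ac γ f + lc v ac γ g

/-- the index set of the monomials `x ^ a * y ^ j` with exponents in `[0, p)` -/
abbrev Ix (p r s : ℕ) : Type := (Fin r → Fin p) × (Fin s → Fin p)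

/-- the monomial `x ^ a * y ^ j` -/
def mon {M : Type} [CommMonoid M] {p r s : ℕ} (x : Fin r → M) (y : Fin s → M) (l : Ix p r s) : M :=
  (∏ i, x i ^ (l.1 i : ℕ)) * ∏ j, y j ^ (l.2 j : ℕ)

/-- the monomial `y ^ j` -/
def monY {M : Type} [CommMonoid M] {p s : ℕ} (y : Fin s → M) (j : Fin s → Fin p) : M :=
  ∏ i, y i ^ (j i : ℕ)

/-- the exponent of `x` in the monomial with index `l` -/
def exl {p r s : ℕ} (l : Ix p r s) : Fin r → ℤ := fun i => ((l.1 i : ℕ) : ℤ)

/-- An adapted frame of the valuation `v`: a basis `x` of the value group (exponents `ex`), an angular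
component `ac : K → κ`, elements `y j` of value zero whose residues `ac (y j)` have the monomials as a
basis of `κ` over `κ ^ p` (coordinates `ρ`), and the coordinates `π` of `K` over `K ^ p` with respect to
the valuation independent basis `x ^ a * y ^ j`. -/
structure Frame (k : Type) (p : ℕ) {κ : Type} {r s : ℕ} [Field k] [Algebra k K] [Field κ]
    [Algebra k κ] (v : K → Γ) (x : Fin r → K) (y : Fin s → K) (ex : K → Fin r → ℤ) (ac : K → κ)
    (π : Ix p r s → K → K) (ρ : (Fin s → Fin p) → κ → κ) : Prop where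
  isv : IsV v
  triv : Triv k v
  vb : IsVB v x ex
  isac : IsAC k v x ac
  y_ne : ∀ j, y j ≠ 0
  y_val : ∀ j, v (y j) = 0
  pb : IsPB p (mon x y) π
  orth : ∀ l f, π l f ≠ 0 → v f ≤ p • v (π l f) + v (mon x y l)
  rb : IsPB p (monY (p := p) fun j => ac (y j)) ρ

end

/-- the leading monomial of `f` -/
noncomputable def lead {K κ : Type} {r : ℕ} [Field K] [Field κ] (ex : K → Fin r → ℤ) (ac : K → κ)
    (f : K) : AddMonoidAlgebra κ (Fin r → ℤ) :=
  AddMonoidAlgebra.single (ex f) (ac f)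

/-- the leading monomial of `x ^ a * y ^ j` -/
noncomputable def om {K κ : Type} {p r s : ℕ} [Field K] [Field κ] (y : Fin s → K) (ac : K → κ)
    (l : Ix p r s) : AddMonoidAlgebra κ (Fin r → ℤ) :=
  AddMonoidAlgebra.single (exl l) (monY (fun j => ac (y j)) l.2)

/-- the Laurent polynomials which approximate `f` -/
noncomputable def ap {K κ : Type} {p r s : ℕ} [Field K] [Field κ] (y : Fin s → K)
    (ex : K → Fin r → ℤ) (ac : K → κ) (π : Ix p r s → K → K) :
    ℕ → K → AddMonoidAlgebra κ (Fin r → ℤ)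
  | 0, f => lead ex ac f
  | N + 1, f => ∑ l, (ap y ex ac π N (π l f)) ^ p * om y ac l

section
variable {Γ : Type} [AddCommGroup Γ] [LinearOrder Γ] [IsOrderedAddMonoid Γ]

/-- all exponents of `P` have weight at least `c` -/
def UGe {κ : Type} [Field κ] {r : ℕ} (u : Fin r → Γ) (c : Γ)
    (P : AddMonoidAlgebra κ (Fin r → ℤ)) : Prop := ∀ m, P.coeff m ≠ 0 → c ≤ wt u m

/-- `c` is the minimum of the weights of the exponents of `P` -/
def IsMinW {κ : Type} [Field κ] {r : ℕ} (u : Fin r → Γ) (P : AddMonoidAlgebra κ (Fin r → ℤ))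
    (c : Γ) : Prop := UGe u c P ∧ ∃ m, P.coeff m ≠ 0 ∧ c = wt u m

/-- the part of weight `c` of `P` -/
noncomputable def part {κ : Type} [Field κ] {r : ℕ} (u : Fin r → Γ) (c : Γ)
    (P : AddMonoidAlgebra κ (Fin r → ℤ)) : AddMonoidAlgebra κ (Fin r → ℤ) :=
  open Classical in AddMonoidAlgebra.ofCoeff (Finsupp.filter (fun m => wt u m = c) P.coeff)

end

/-- The comparisons which hold at `v` between the exponents of the elements of `V` and of their
coordinates: the differences `n` which are positive at `v`. -/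
def Cmp {K : Type} [Field K] {p r s : ℕ} {Γ : Type} [AddCommGroup Γ] [LinearOrder Γ]
    (v : K → Γ) (x : Fin r → K) (ex : K → Fin r → ℤ) (π : Ix p r s → K → K) (V : Set K) :
    Set (Fin r → ℤ) :=
  {n | 0 < wt (fun i => v (x i)) n ∧
    ((∃ f ∈ V, ∃ g ∈ V, f ≠ 0 ∧ g ≠ 0 ∧ n = ex f - ex g) ∨
      ∃ f ∈ V, ∃ l, f ≠ 0 ∧ π l f ≠ 0 ∧ n = (p : ℤ) • ex (π l f) + exl l - ex f)}

/-! ### Data for the cells -/

section carry
variable {p r s : ℕ} [NeZero p]

/-- the remainder of `l + l' + θ` modulo `p` -/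
def cr (l l' : Ix p r s) (θ : Ix 2 r s) : Ix p r s :=
  (fun i => ⟨((l.1 i : ℕ) + (l'.1 i : ℕ) + (θ.1 i : ℕ)) % p, Nat.mod_lt _ (NeZero.pos p)⟩,
    fun j => ⟨((l.2 j : ℕ) + (l'.2 j : ℕ) + (θ.2 j : ℕ)) % p, Nat.mod_lt _ (NeZero.pos p)⟩)

/-- the carry of `l + l' + θ` (the quotient by `p`, which is `0` or `1`) -/
def cq (l l' : Ix p r s) (θ : Ix 2 r s) : Ix 2 r s :=
  (fun i => ⟨(((l.1 i : ℕ) + (l'.1 i : ℕ) + (θ.1 i : ℕ)) / p) % 2, Nat.mod_lt _ two_pos⟩,
    fun j => ⟨(((l.2 j : ℕ) + (l'.2 j : ℕ) + (θ.2 j : ℕ)) / p) % 2, Nat.mod_lt _ two_pos⟩)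

end carry

/-- the index with all exponents `0` -/
def ix0 {p r s : ℕ} [NeZero p] : Ix p r s :=
  (fun _ => ⟨0, NeZero.pos p⟩, fun _ => ⟨0, NeZero.pos p⟩)

/-- the index with all exponents `0` -/
def j0 {p s : ℕ} [NeZero p] : Fin s → Fin p := fun _ => ⟨0, NeZero.pos p⟩

/-- the space spanned by the products `f * g * x ^ θ * y ^ θ'` with `f, g` in `V` and exponents `0, 1` -/
def prodSp {k K : Type} [Field k] [Field K] [Algebra k K] {r s : ℕ} (x : Fin r → K) (y : Fin s → K)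
    (V : Submodule k K) : Submodule k K :=
  Submodule.span k {z | ∃ f ∈ V, ∃ g ∈ V, ∃ θ : Ix 2 r s, z = f * g * mon x y θ}

/-- The algebraic part of a frame. -/
structure FA (k : Type) (p : ℕ) {K κ : Type} {r s : ℕ} [Field k] [Field K] [Algebra k K] [Field κ]
    [Algebra k κ] (x : Fin r → K) (y : Fin s → K) (ex : K → Fin r → ℤ) (ac : K → κ)
    (π : Ix p r s → K → K) (ρ : (Fin s → Fin p) → κ → κ) : Prop where
  x_ne : ∀ i, x i ≠ 0
  y_ne : ∀ j, y j ≠ 0
  ac_zero : ac 0 = 0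
  ac_ne : ∀ f, f ≠ 0 → ac f ≠ 0
  ac_mul : ∀ f g, ac (f * g) = ac f * ac g
  ac_alg : ∀ c : k, ac (algebraMap k K c) = algebraMap k κ c
  ac_x : ∀ i, ac (x i) = 1
  ex_zero : ex 0 = 0
  ex_mul : ∀ f g, f ≠ 0 → g ≠ 0 → ex (f * g) = ex f + ex g
  ex_alg : ∀ c : k, ex (algebraMap k K c) = 0
  ex_x : ∀ i, ex (x i) = Pi.single i 1
  ex_y : ∀ j, ex (y j) = 0
  pb : IsPB p (mon x y) π
  rb : IsPB p (monY (p := p) fun j => ac (y j)) ρ

section
variable {K Γ : Type} [Field K] [AddCommGroup Γ] [LinearOrder Γ] [IsOrderedAddMonoid Γ]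

/-- The local facts at the weight `u` on a stable space `V`. -/
structure Loc {k κ : Type} {p r s : ℕ} [Field k] [Algebra k K] [Field κ] (y : Fin s → K)
    (ex : K → Fin r → ℤ) (ac : K → κ) (π : Ix p r s → K → K) (V : Submodule k K) (u : Fin r → Γ)
    (δ : Γ) : Prop where
  pos : 0 < δ
  stab : ∀ l, ∀ f ∈ V, π l f ∈ V
  orth : ∀ f ∈ V, f ≠ 0 → ∀ l, π l f ≠ 0 → wt u (ex f) ≤ p • wt u (ex (π l f)) + wt u (exl l)
  step : ∀ f ∈ V, UGe u (wt u (ex f) + δ) (ap y ex ac π 1 f - ap y ex ac π 0 f)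
  add : ∀ f ∈ V, ∀ g ∈ V, ∀ c, (f ≠ 0 → c ≤ wt u (ex f)) → (g ≠ 0 → c ≤ wt u (ex g)) →
    UGe u (c + δ) (lead ex ac (f + g) - lead ex ac f - lead ex ac g)

/-- all exponents of the set `N` have positive weight -/
def Good {r : ℕ} (N : Set (Fin r → ℤ)) (u : Fin r → Γ) : Prop := ∀ n ∈ N, 0 < wt u n

/-- `w` is a `φ`-compatible valuation which is computed by the Laurent polynomials `ap` at the
weight `u`. -/
structure At (k : Type) (p : ℕ) {κ : Type} {r s : ℕ} [Field k] [Algebra k K] [Field κ]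
    (φ : K → K) (y : Fin s → K) (ex : K → Fin r → ℤ) (ac : K → κ) (π : Ix p r s → K → K)
    (V0 : Submodule k K) (u : Fin r → Γ) (w : K → Γ) : Prop where
  isv : IsV w
  triv : Triv k w
  compat : Compat p φ w
  min : ∀ M f, f ≠ 0 → Abs π (V0 : Set K) M f → IsMinW u (ap y ex ac π M f) (w f)

end

/-- A nucleus: a stable finite dimensional space which contains `1`, the `x i`, `y j` and `h` and
which absorbs all elements of `k[t]`; the `x i`, `y j` and `h` are in `k[t]`. -/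
structure Nuc {k K : Type} {p r s n : ℕ} [Field k] [Field K] [Algebra k K] (x : Fin r → K)
    (y : Fin s → K) (π : Ix p r s → K → K) (t : Fin n → K) (h : K) (V0 : Submodule k K) :
    Prop where
  fin : FiniteDimensional k V0
  stab : ∀ l, ∀ f ∈ V0, π l f ∈ V0
  absorb : ∀ q : MvPolynomial (Fin n) k, ∃ N0, ∀ N, N0 ≤ N → Abs π (V0 : Set K) N (aeval t q)
  one : (1 : K) ∈ V0
  x_mem : ∀ i, x i ∈ V0
  y_mem : ∀ j, y j ∈ V0
  h_mem : h ∈ V0
  x_t : ∀ i, ∃ q : MvPolynomial (Fin n) k, aeval t q = x i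
  y_t : ∀ j, ∃ q : MvPolynomial (Fin n) k, aeval t q = y j
  h_t : ∃ q : MvPolynomial (Fin n) k, aeval t q = h

end Pool.Agent.F2Ch
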