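import Pool.Agent.Lib.MP_305fdd_al.F2.GDefs
import Pool.Agent.Lib.MP_305fdd_al.F2.ChDefs

/-!
# MP_305fdd_al (`F_2`), section B: the operator `Φ` on the function field. Definitions.
-/

set_option autoImplicit false

namespace Pool.Agent.F2

open MvPolynomial

noncomputable section

/-! ## p-bases with three elements -/

section pbas

variable {K : Type} [CommRing K]

/-- the combination `∑ e, c e ^ p * x ^ e` (`F2Ch.monY x e = ∏ i, x i ^ (e i : ℕ)`) -/
def pcomb {p : ℕ} (x : Fin 3 → K) (c : (Fin 3 → Fin p) → K) : K := ∑ e, c e ^ p * F2Ch.monY x e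

/-- `x` is `p`-independent -/
def PInd (p : ℕ) (x : Fin 3 → K) : Prop :=
  ∀ c : (Fin 3 → Fin p) → K, pcomb x c = 0 → ∀ e, c e = 0

/-- `x` is a `p`-basis -/
def PBas (p : ℕ) (x : Fin 3 → K) : Prop :=
  PInd p x ∧ ∀ f : K, ∃ c : (Fin 3 → Fin p) → K, f = pcomb x c

/-- the largest exponent -/
def top3 (p : ℕ) [hp : Fact p.Prime] : Fin 3 → Fin p :=
  fun _ => ⟨p - 1, Nat.sub_lt hp.out.pos one_pos⟩

/-- the coefficients of `f` with respect to the `p`-basis `x` -/
def cof (p : ℕ) (x : Fin 3 → K) (f : K) : (Fin 3 → Fin p) → K :=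
  Classical.epsilon fun c => f = pcomb x c

/-- the Cartier operator: the coefficient of the largest monomial -/
def Car (p : ℕ) [Fact p.Prime] (x : Fin 3 → K) (f : K) : K := cof p x f (top3 p)

/-- exponents as finitely supported functions -/
def toF {p : ℕ} (e : Fin 3 → Fin p) : Fin 3 →₀ ℕ :=
  Finsupp.equivFunOnFinite.symm fun i => (e i : ℕ)

end pbas

/-! ## the toric operator -/

theorem smul_inj (p : ℕ) [hp : Fact p.Prime] : Function.Injective fun c : ℤ × ℤ => (p : ℤ) • c := by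
  intro a b h
  have hp0 : (p : ℤ) ≠ 0 := by exact_mod_cast hp.out.ne_zero
  have h1 := congrArg Prod.fst h
  have h2 := congrArg Prod.snd h
  simp only [Prod.smul_fst, Prod.smul_snd, smul_eq_mul] at h1 h2
  exact Prod.ext (mul_left_cancel₀ hp0 h1) (mul_left_cancel₀ hp0 h2)

section

variable (p : ℕ) [hp : Fact p.Prime] (k : Type) [Field k] [CharP k p] [PerfectRing k p]

/-- the toric operator: `c χ^(p m) ↦ c^(1/p) χ^m`, and `c χ^m ↦ 0` if `p` does not divide `m` -/
def th : Lau k →+ Lau k where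
  toFun a := AddMonoidAlgebra.ofCoeff
    (Finsupp.mapRange (rt p k) (map_zero _)
      (Finsupp.comapDomain (fun c : ℤ × ℤ => (p : ℤ) • c) (AddMonoidAlgebra.coeff a)
        (smul_inj p).injOn))
  map_zero' := by
    ext m
    exact map_zero (rt p k)
  map_add' a b := by
    ext m
    exact map_add (rt p k) _ _

theorem coeff_th (a : Lau k) (c : ℤ × ℤ) :
    (th p k a).coeff c = rt p k (a.coeff ((p : ℤ) • c)) := rfl

/-- the field of fractions of the group algebra -/
abbrev Mf : Type := FractionRing (Lau k)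

/-! ## the data -/

/-- what is needed of `D`: `φ : A → D`, `res : D → Lau` -/
structure BD (D : Type) [CommRing D] [Algebra k D] (φ : Ak k →ₐ[k] D) (res : D →ₐ[k] Lau k)
    (g : Fin 3 → D) : Prop where
  odd : p ≠ 2
  dom : IsDomain D
  ft : Algebra.FiniteType k D
  res_φ : ∀ a, res (φ a) = resA _ a
  rng : ∀ d, ∃ a, res d = resA _ a
  kne : φ (kap _) ≠ 0
  loc : ∃ e : D, res e = 1 ∧ ∀ b, res b = 0 → ∃ c, e * b = φ (kap _) * c
  np : NP p k D (fun i => φ (X i)) g

end

section

variable {k : Type} [Field k] {D : Type} [CommRing D] [Algebra k D]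

/-- the three coordinates in the field -/
def xK (φ : Ak k →ₐ[k] D) (K : Type) [Field K] [Algebra D K] : Fin 3 → K :=
  fun i => algebraMap D K (φ (X i))

/-- the local ring `O` of the reducible locus in `K` and its residue map `ρ` -/
structure OR (φ : Ak k →ₐ[k] D) (res : D →ₐ[k] Lau k)
    (K : Type) [Field K] [Algebra D K] (O : ValuationSubring K) (ρ : O →+* Mf k) : Prop where
  mem : ∀ f : K, f ∈ O ↔ ∃ a b : D, res b ≠ 0 ∧ f * algebraMap D K b = algebraMap D K a
  dmem : ∀ d : D, algebraMap D K d ∈ O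
  ρ_D : ∀ d : D, ρ ⟨algebraMap D K d, dmem d⟩ = algebraMap (Lau k) (Mf k) (res d)
  ker : ∀ f : O, ρ f = 0 ↔ ∃ g ∈ O, (f : K) = algebraMap D K (φ (kap _)) * g
  /-- every nonzero element is a power of the uniformiser times a unit -/
  unif : ∀ f : K, f ≠ 0 → ∃ (n : ℤ) (u : O), ρ u ≠ 0 ∧
    f = algebraMap D K (φ (kap _)) ^ n * u

/-- `L` is the field of fractions of `P = k[t]`, embedded in `K` by `t_i = x_i + g_i ^ p` -/
structure LK (p : ℕ) (φ : Ak k →ₐ[k] D) (g : Fin 3 → D) (K : Type) [Field K] [Algebra D K]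
    (L : Type) [Field L] [Algebra (Ak k) L] [Algebra L K] : Prop where
  compat : ∀ a : Ak k, algebraMap L K (algebraMap (Ak k) L a) =
    algebraMap D K (aeval (fun i => φ (X i) + g i ^ p) a)

/-- `h ∈ Om` if `Tr (h D) ⊆ P` -/
def Om (k D K L : Type) [Field k] [CommRing D] [Field K] [Algebra D K]
    [Field L] [Algebra (Ak k) L] [Algebra L K] : Set K :=
  {h | ∀ d : D, ∃ a : Ak k,
    Algebra.trace L K (h * algebraMap D K d) = algebraMap (Ak k) L a}

end

section

variable (p : ℕ) [hp : Fact p.Prime] {k : Type} [Field k] [CharP k p] [PerfectRing k p]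
  {D : Type} [CommRing D] [Algebra k D]

/-- THE RESULT: the operator `Φ f = C (f h) / h`, `h` a `C`-fixed element with a simple pole along the
reducible locus, on the field `K` of fractions of `D`. -/
structure FB (φ : Ak k →ₐ[k] D) (res : D →ₐ[k] Lau k)
    (K : Type) [Field K] [Algebra D K] (O : ValuationSubring K) (ρ : O →+* Mf k) (h : K)
    (Φ : K → K) : Prop where
  or : OR φ res K O ρ
  /-- `xK` is a `p`-basis of `K` -/
  pb : F2Ch.IsPB p (F2Ch.monY (xK φ K)) fun (e : Fin 3 → Fin p) f => cof p (xK φ K) f e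
  h_ne : h ≠ 0
  h_fix : Car p (xK φ K) h = h
  h_res : ∃ w : O, ρ w = 1 ∧ (w : K) = algebraMap D K (φ (kap _)) * h
  def_Φ : ∀ f, Φ f = Car p (xK φ K) (f * h) / h
  pinv : F2Ch.IsPinv p Φ
  one : Φ 1 = 1
  /-- the residual map on `D` is the toric operator -/
  tor : ∀ d : D, ∃ w : O, (w : K) = Φ (algebraMap D K d) ∧
    ρ w = algebraMap (Lau k) (Mf k) (th p k (res d))
  /-- `Φ ^ N f = ct (res f) ^ (1 / p ^ N)` for large `N` -/
  tau : ∀ d : D, ∃ N₀ : ℕ, ∀ N ≥ N₀, Φ^[N] (algebraMap D K d) =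
    algebraMap D K (algebraMap k D ((rt p k)^[N] (ct (res d))))

end

end

end Pool.Agent.F2
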