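import Pool.Agent.Lib.MP_305fdd_al.F2.GDefs
import Pool.Agent.Lib.MP_305fdd_al.F2.TF.Stm

/-!
# MP_305fdd_al (`F_2`), section G: genus, trace ring, reducible locus. Statements and proofs.

Result of this section (`S_RD`, `S_NP`): if the finitely generated group `Λ` has the same finite
quotients as the free group `Fr` of rank two and `p` is an odd prime, there are `f : Fr → Λ`,
`cl : Λ → ℤ²`, a domain `D` (finitely generated over `F_p`), a pseudo-character `T : Λ → D` and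
`res : D → F_p[ℤ²]` with `RD`, and `D` is finite over `F_p[t_1, t_2, t_3]`, `t_i = x_i + g_i ^ p`, with
locally nilpotent Cartier operator (`NP`).

Every piece may use the statements named in its docstring as hypotheses.
-/

set_option autoImplicit false

namespace Pool.Agent.F2

open MvPolynomial Pool.Agent.Lib.MP_305fdd_al Pool.Agent.MP_305fdd_al
open scoped commutatorElement
open Pool.Agent.F2TF (Pol fpow S_count S_thmA)

/-! ## Part 1: the trace polynomials of Fricke, universal rings -/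

/-- [GB rep] the generic representation of `Fr`.

Proof. Let `A = Ak k`, `q = X² - C z X + 1 ∈ A[X]` (monic), `L = AdjoinRoot q`, `w` its root; `A → L`
is injective (`q` monic of degree 2, `L` is free over `A` with basis `1, w`), `w (z - w) = 1`. The
homomorphism `ρ : Fr → GL (Fin 2) L`, `gx ↦ [[x, -1], [1, 0]]`, `gy ↦ [[0, w], [-(z - w), y]]` has
determinant one, `tr ρ(gx) = x`, `tr ρ(gy) = y`, `ρ(gx gy) = [[z - w, x w - y], [0, w]]`,
`tr ρ(gx gy) = z`. `g ↦ tr ρ(g)` is a pseudo-character (`CC.PChar.of_rep` with `δ = 1`; `L` is a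
`k`-algebra). Its values lie in the image of `A`: `CC.PCharFin.tr_mem`, `eval_mem` with `B` = the range of
`A → L` and the list `[gx, gy]`: the words are `1, gy, gx, gx gy`, and `tr ρ(g g) = (tr ρ(g))² - 2`,
`tr ρ(gy gx) = tr ρ(gx gy)`. -/
def S_rep : Prop := ∀ (k : Type) [Field k], ∃ (L : Type) (_ : CommRing L) (_ : Algebra (Ak k) L)
    (ρ : Fr →* GL (Fin 2) L), Function.Injective (algebraMap (Ak k) L) ∧
    (∀ g, (ρ g).val.det = 1) ∧ (ρ gx).val.trace = algebraMap (Ak k) L (X 0) ∧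
    (ρ gy).val.trace = algebraMap (Ak k) L (X 1) ∧
    (ρ (gx * gy)).val.trace = algebraMap (Ak k) L (X 2) ∧
    ∀ g, ∃ a, (ρ g).val.trace = algebraMap (Ak k) L a

/-- [GB tapc] `TA k` is a pseudo-character `Fr → k[x, y, z]` with values `x, y, z` at `gx, gy, gx gy`.
(Uses `S_rep`.)

Proof. As `A → L` is injective the traces of `S_rep` give `T₀ : Fr → A` with `IsTA k T₀` (the relations of
a pseudo-character hold for the traces of a representation with determinant `1`: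
`CC.PChar.of_rep`); `Classical.epsilon_spec`. -/
def S_tapc : Prop := ∀ (k : Type) [Field k], IsTA k (TA k)

/-- [GB br] comparison with the pseudo-characters of `CC/Defs.lean`, and the basic formulas.

Proof. `δ = 1`, `algebraMap 1 = 1`. The formulas: `CC.PChar.inv`, `CC.PChar.comm`, `h = g` in `rel`,
and `T ⁅g, h⁆ = T g ^ 2 + T h ^ 2 + T (g h) ^ 2 - T g T h T (g h) - 2`:
`T (g h g⁻¹ h⁻¹) = T (g h) T (g⁻¹ h⁻¹) - T (g h h g)` (`rel` with `(h g)`, `h⁻¹`...), `T (g⁻¹ h⁻¹) = T (h g) = T (g h)`,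
`T (g h h g) = T (g² h²)`, `T (g² h²) = T (g² h) T h - T (g²) `, `T (g² h) = T (g h) T g - T h`. -/
def S_br : Prop := ∀ (k : Type) [Field k] (G : Type) [Group G] (R : Type) [CommRing R] [Algebra k R]
    (T : G → R), (PC T ↔ CC.PChar (1 : G →* kˣ) T) ∧ (PC T → (∀ g, T g⁻¹ = T g) ∧
    (∀ g, T (g * g) = T g ^ 2 - 2) ∧ (∀ g h, T (h * g * h⁻¹) = T g) ∧
    ∀ g h, T ⁅g, h⁆ = T g ^ 2 + T h ^ 2 + T (g * h) ^ 2 - T g * T h * T (g * h) - 2)

/-- [GB auniv] `TA k` is the universal pseudo-character of `Fr`; `A` is spanned by its values.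
(Uses `S_tapc`, `S_br`.)

Proof. (1) `φ = aeval ![T gx, T gy, T (gx gy)]`; `φ ∘ TA k` and `T` are pseudo-characters of `Fr` with the
same values at `gx, gy, gx gy`, so they are equal (`CC.PChar.unique`, `Fr` is generated by `gx, gy`).
(2) The span `S` of the values is closed under multiplication (`T g T h = T (g h) + T (g h⁻¹)`) and
contains `1`: for `2 ≠ 0` because `T 1 = 2`; in general: let `S' = k + S`, a subalgebra containing the
variables, so `S' = A`. (This is what is stated.) -/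
def S_auniv : Prop :=
  (∀ (k : Type) [Field k] (R : Type) [CommRing R] [Algebra k R] (T : Fr → R), PC T →
    ∃ φ : Ak k →ₐ[k] R, ∀ g, φ (TA k g) = T g) ∧
  (∀ (k : Type) [Field k], Algebra.adjoin k (Set.range (TA k)) = ⊤ ∧
    Submodule.span k ({1} ∪ Set.range (TA k)) = ⊤) ∧
  (∀ (k : Type) [Field k], TA k ⁅gx, gy⁆ = kap k + 2)

/-- [GB uni] the universal ring of a group.

(Uses `S_br`.) Proof. `PC`: the three relations are zero in the quotient. `adjoin`: the variables generate the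
polynomial ring. Universality: `MvPolynomial.aeval T` kills the relations (`Ideal.Quotient.liftₐ`).
Finite type: for `G` finitely generated `CC.PChar.fg` (with `S_br`). -/
def S_uni : Prop :=
  (∀ (k : Type) [Field k] (G : Type) [Group G], PC (tu k : G → Uni k G) ∧
    Algebra.adjoin k (Set.range (tu k : G → Uni k G)) = ⊤ ∧
    ∀ (R : Type) [CommRing R] [Algebra k R] (T : G → R), PC T →
      ∃ φ : Uni k G →ₐ[k] R, ∀ g, φ (tu k g) = T g) ∧
  (∀ (k : Type) [Field k] (G : Type) [Group G] [Group.FG G], Algebra.FiniteType k (Uni k G))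

/-! ## Part 2: the reducible locus of `Fr` -/

/-- [GB resa] values on the reducible locus. (Uses `S_tapc`, `S_br`.)

Proof. `e_0 = 2`, `e_(-c) = e_c`, `e_c e_d = e_(c+d) + e_(c-d)`, so `g ↦ e_(clF g)` is a pseudo-character
of `Fr`; it has the same values at `gx, gy, gx gy` as `resA k ∘ TA k` (`CC.PChar.unique`). The last
statement: `CC.PChar.unique` for the general group `G = Multiplicative (ℤ × ℤ)`; or:
`T ∘ clF` is a pseudo-character of `Fr`, so `= φ ∘ TA k`. -/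
def S_resa : Prop :=
  (∀ (k : Type) [Field k] (g : Fr), resA k (TA k g) = ee k (Multiplicative.toAdd (clF g))) ∧
  (∀ (k : Type) [Field k], PC fun c : Multiplicative (ℤ × ℤ) => ee k (Multiplicative.toAdd c))

/-- [GB kera] `ker (resA k)` is generated by `κ`.

Proof. `resA κ = 0`: computation in `Lau k` with `u = χ^(1,0)`, `v = χ^(0,1)`:
`κ = (z - u v - u⁻¹ v⁻¹)(z - u v⁻¹ - u⁻¹ v)` for `x = u + u⁻¹`, `y = v + v⁻¹`. Conversely, `κ` is monic of degree
two in `z = X 2`, so every `a ∈ A` is `≡ b + c z` mod `κ` with `b, c ∈ k[x, y]` (polynomials not involving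
`X 2`; e.g. the set of such `a` is closed under addition and multiplication by `X 0, X 1, X 2`).
Suppose `resA (b + c z) = 0`. The automorphism `χ^(i,j) ↦ χ^(i,-j)` of `Lau k` fixes `e_(1,0), e_(0,1)` and maps
`e_(1,1)` to `e_(1,-1)`, so `resA(c) (e_(1,1) - e_(1,-1)) = 0`; `Lau k` has no zero divisors
(`ℤ × ℤ` is a torsion free group, `UniqueProds`), the second factor is `≠ 0` (coefficient at `(1,1)`), so
`resA c = 0`, `resA b = 0`. Now `b = ∑ b_ij x^i y^j ≠ 0` has `resA b ≠ 0`: take `(i, j)` lexicographically maximal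
with `b_ij ≠ 0`; the coefficient of `χ^(i,j)` in `e_(1,0)^i' e_(0,1)^j'` is `1` for `(i', j') = (i, j)` and `0` if
`i' < i` or `j' < j` (the support is in `[-i', i'] × [-j', j']`). -/
def S_kera : Prop := ∀ (k : Type) [Field k] (a : Ak k), resA k a = 0 ↔ kap k ∣ a

/-- [GB ctnd] nondegeneracy of the constant term on the reducible locus. (Uses `S_auniv`, `S_resa`.)

Proof. By `S_auniv` the range of `resA` is spanned by `1` and the `e_c` (`clF` is onto), so all its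
elements `s` satisfy `s.coeff (-c) = s.coeff c`; then `ct (s * e_c) = s.coeff (-c) + s.coeff c = 2 s.coeff c`. -/
def S_ctnd : Prop := ∀ (k : Type) [Field k], (2 : k) ≠ 0 → ∀ a : Ak k,
    (∀ c, (resA k a).coeff (-c) = (resA k a).coeff c) ∧
    ((∀ c : ℤ × ℤ, ct (resA k a * ee k c) = 0) → resA k a = 0)

/-! ## Part 3: transfer of pseudo-characters along `NatBij` -/

/-- [GB corr] basic properties of `Corr`.

Proof. `Corr Φ T T'`: `T = τ ∘ π`, `T' = τ ∘ Φ π`. (1) joint values: given `Q₁, π₁, τ₁`, `Q₂, π₂, τ₂`,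
`PSL2Z.joint Φ π₁ π₂ h` gives `g` with `π_i g = Φ π_i h`, so `T_i g = τ_i (π_i g) = T_i' h`; the other direction is
`PSL2Z.joint'`. (2) functionality in both directions follows: for `T₁ = T₂`: `T₁' h = T₁ g = T₂ g = T₂' h`.
(3) `PC`: for `g, h ∈ G` choose by `PSL2Z.joint'` (for the pair `π, π` one element at a time) `g', h' ∈ H` with
`Φ π g' = π g`, `Φ π h' = π h`; then `T (g h) = τ (π g π h) = τ (Φ π (g' h')) = T' (g' h')` etc. (see
`CC.transfer` in `CC/Ideals.lean` for the same computation). (4) `Corr` and composition with functions. -/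
def S_corr : Prop := ∀ (G H : Type) [Group G] [Group H] (Φ : NatBij G H) (R : Type),
    (∀ (T₁ T₂ : G → R) (T₁' T₂' : H → R), Corr Φ T₁ T₁' → Corr Φ T₂ T₂' →
      (∀ h, ∃ g, T₁ g = T₁' h ∧ T₂ g = T₂' h) ∧ (∀ g, ∃ h, T₁' h = T₁ g ∧ T₂' h = T₂ g) ∧
      (T₁ = T₂ ↔ T₁' = T₂')) ∧
    (∀ (S : Type) (φ : R → S) (T : G → R) (T' : H → R), Corr Φ T T' →
      Corr Φ (fun g => φ (T g)) (fun h => φ (T' h)))

/-- [GB corrpc] pseudo-characters with values in finite rings correspond. (Uses `S_br`; see `S_corr`.)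

Proof. `PC T ↔ PC T'` as in (3) of the proof of `S_corr`. Existence: `T` factors through a finite quotient
by `CC.PChar.factor` (with `S_br`); `T' = τ ∘ Φ.toFun π`, and in the other direction
`T = τ ∘ Φ.invFun π`, `Φ.toFun (Φ.invFun π) = π`. -/
def S_corrpc : Prop := ∀ (k : Type) [Field k] (G H : Type) [Group G] [Group H] (Φ : NatBij G H)
    (R : Type) [CommRing R] [Algebra k R],
    (∀ (T : G → R) (T' : H → R), Corr Φ T T' → (PC T ↔ PC T')) ∧
    ([Finite R] → [Group.FG G] → ∀ T : G → R, PC T → ∃ T' : H → R, Corr Φ T T') ∧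
    ([Finite R] → [Group.FG H] → ∀ T' : H → R, PC T' → ∃ T : G → R, Corr Φ T T')

/-- [GB rf] finitely generated `F_p`-algebras are residually finite.

Proof. Let `b ≠ 0`; choose a maximal ideal `m` containing the annihilator of `b`; `b ≠ 0` in the Noetherian
local ring `B_m`, so by Krull's intersection theorem `b ∉ m ^ n B_m` for some `n`, so `b ∉ m ^ n`. `B/m` is finite
(Zariski's lemma: a finitely generated algebra over a finite field which is a field is finite) and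
`B/m ^ n` is finite (`m ^ i / m ^ (i+1)` is a finitely generated `B/m`-module). -/
def S_rf : Prop := ∀ (p : ℕ) [Fact p.Prime] (B : Type) [CommRing B] [Algebra (ZMod p) B],
    Algebra.FiniteType (ZMod p) B → (∀ m : Ideal B, m.IsMaximal → Finite (B ⧸ m)) ∧
    ∀ b : B, b ≠ 0 → ∃ I : Ideal B, Finite (B ⧸ I) ∧ b ∉ I

/-- [GB ev] the evaluations of `Uni k Λ` at the ideals of finite index of `A`. (Uses `S_tapc`,
`S_auniv`, `S_uni`, `S_corr`, `S_corrpc`, `S_rf`.)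

Proof. For `J` put `T_J g = [TA g] ∈ A/J` (a pseudo-character), `T_J'` with `Corr Φ T_J T_J'`, `ev J` the
homomorphism with `ev J (tu l) = T_J' l`. `surj`: the range of `ev J` contains the values of `T_J'`, which are
the values of `T_J` (joint values), and these generate `A/J`. `compat`: `factor ∘ T_J = T_J'` and
`factor ∘ T_J'` correspond, functionality; then `AlgHom.ext_of_adjoin_eq_top`. Let
`E = {a ∈ A | ∃ b, ev J b = [a]_J ∧ ev J' b = [a]_J'}`: a subalgebra (image argument as in `CC.joint_alg`) which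
contains the `TA g`, so `E = A`. `inj`: if `ker (ev J) = ker (ev J')` and `a ∈ J`, take `b` for `a`: `ev J b = 0`,
so `ev J' b = 0`, `a ∈ J'`. `fin`: `I` an ideal of finite index of `Uni`, `T' l = [tu l] ∈ Uni/I =: R`
corresponds to a pseudo-character `T : Fr → R`, `T = φ ∘ TA`, `φ : A → R`, `J = ker φ`; `φ` induces an
injective `ψ : A/J → R`; `ψ ∘ T_J = T`, so `ψ ∘ T_J' = T'` by functionality, so `ψ ∘ ev J` is the quotient
map, `I = ker (ev J)`. `sep`: `Uni` is a finitely generated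
`F_p`-algebra; `S_rf` and `fin`. -/
def S_ev : Prop := ∀ (p : ℕ) [Fact p.Prime] (Λ : Type) [Group Λ] [Group.FG Λ] (_ : NatBij Fr Λ),
    ∃ ev : ∀ J : {J : Ideal (Ak (ZMod p)) // Finite (Ak (ZMod p) ⧸ J)},
      Uni (ZMod p) Λ →ₐ[ZMod p] Ak (ZMod p) ⧸ J.1,
    CC.IsTR p (Ak (ZMod p)) (Uni (ZMod p) Λ) ev

/-! ## Part 4: the map `f : Fr → Λ` and the formal neighbourhood of the reducible locus -/

/-- [GB emb] existence of `f` and `cl`.

Proof. `f` from `Solv.thmB'`. `lowerCentralSeries 0` of `commutator Λ` is `commutator Λ`, so by the case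
`c = 0` every `l ∈ Λ` is `f g * c`, `c ∈ commutator Λ`, with `g` unique modulo `commutator Fr = ker clF`
(`comap`). `cl l = clF g` is a well defined homomorphism with kernel `commutator Λ`, `cl ∘ f = clF`. (Or:
`cl` = the composition `Λ → Abelianization Λ ≃ Abelianization Fr → ℤ²`.) -/
def S_emb : Prop := ∀ (Λ : Type) [Group Λ] [Group.FG Λ], SameFiniteQuotients Λ Fr →
    ∃ (f : Fr →* Λ) (cl : Λ →* Multiplicative (ℤ × ℤ)), Emb Λ f cl

/-- [GB kill] the trace polynomials modulo `κⁿ` only depend on the class modulo `γ_(2n)(Fr')`.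
(Uses `S_rep`, `S_tapc`, `S_auniv`.)

Proof. Let `ρ : Fr → GL (Fin 2) L` be the representation of `S_rep` (`tr ρ(g) = TA g`: uniqueness,
`CC.PChar.unique`), `X = ρ gx`, `Y = ρ gy` (matrices), `S` the `A`-span of the `ρ g` in `M_2(L)`; it is an
`A`-subalgebra, and `tr s ∈ A` for `s ∈ S`. Let `c = X Y - Y X ∈ S`. With `X⁻¹ = x - X`, `X² = x X - 1`:
`c X = X Y X - Y X² = X Y X - x Y X + Y` and `X⁻¹ c = (x - X)(X Y - Y X) = x X Y - x Y X - (x X - 1) Y + X Y X =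
X Y X - x Y X + Y`, so `c X = X⁻¹ c`, similarly `c Y = Y⁻¹ c` (`c Y = X Y² - Y X Y = y X Y - X - Y X Y`,
`Y⁻¹ c = (y - Y)(X Y - Y X) = y X Y - y Y X - Y X Y + (y Y - 1) X = y X Y - X - Y X Y`). So `c ρ(g) = ρ(ι g) c`,
`ι : Fr → Fr` the automorphism `gx ↦ gx⁻¹`, `gy ↦ gy⁻¹` (`ι² = id`), and `N_m := c^m S = S c^m`
satisfies `S N_m ⊆ N_m`, `N_m S ⊆ N_m`, `N_m N_n ⊆ N_(m+n)`. `c² = κ`: `c = (ρ⁅gx, gy⁆ - 1) Y X`, `tr c = 0`,
`det c = det (ρ⁅gx, gy⁆ - 1) = 2 - tr ρ⁅gx, gy⁆ = -κ` (`S_auniv`), Cayley-Hamilton. (1) `ρ(g) ρ(h) - ρ(h) ρ(g) ∈ N_1`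
for all `g, h` (for fixed `h ∈ {gx, gy}` the set of `g` with this property is a subgroup, then the other
way round), so `ρ(g) - 1 ∈ N_1` for `g = ⁅a, b⁆`, and `{g | ρ(g) - 1 ∈ N_1}` is a subgroup: it
contains `commutator Fr`. (2) by induction on `m`: `g ∈ lowerCentralSeries m` of `commutator Fr` ⇒
`ρ(g) - 1 ∈ N_(m+1)`: `{g | ρ(g) - 1 ∈ N_(m+1)}` is a subgroup, and for `ρ(a) - 1 ∈ N_(m+1)`, `ρ(b) - 1 ∈ N_1`:
`ρ⁅a, b⁆ - 1 = ((ρ(a) - 1)(ρ(b) - 1) - (ρ(b) - 1)(ρ(a) - 1)) ρ(b a)⁻¹ ∈ N_(m+2)`. (3) For `g` in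
`lowerCentralSeries (2 n)`: `ρ(g) - 1 = c^(2n) s = κⁿ s`, `s ∈ S`, and
`TA (g h) - TA h = tr ((ρ(g) - 1) ρ(h)) = κⁿ tr (s ρ(h))`, `tr (s ρ(h)) ∈ A`. -/
def S_kill : Prop := ∀ (k : Type) [Field k] (n : ℕ) (g h : Fr),
    g ∈ (commutator Fr).lowerCentralSeries (2 * n) → kap k ^ n ∣ TA k (g * h) - TA k h

/-- [GB beta] the homomorphisms `β n : Uni k Λ → A/κⁿ`. (Uses `S_tapc`, `S_kill`, `S_uni`.)

Proof. `Γ = (commutator Λ).lowerCentralSeries (2 n)`, a normal subgroup of `Λ`. For `l ∈ Λ` choose `g ∈ Fr` with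
`f g * l⁻¹ ∈ Γ` (`Emb.sup`), `T_n l = [TA g]`. Well defined: if also `f g' * l⁻¹ ∈ Γ`, then `f (g g'⁻¹) ∈ Γ`, so
`g g'⁻¹ ∈ (commutator Fr).lowerCentralSeries (2 n)` (`Emb.com`), `TA g = TA ((g g'⁻¹) g') ≡ TA g'`. It is a
pseudo-character (representatives multiply because `Γ` is normal), so it gives `β n` (`S_uni`).
Compatibility: on the generators `tu l`; a representative for `n` is one for `m` if `m ≤ n`
(`lowerCentralSeries_antitone`); if `n < m` and nevertheless `κⁿ ∈ (κ^m)`: impossible (`κ` is not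
a unit and not `0`), so `m ≤ n` in all cases. -/
def S_beta : Prop := ∀ (k : Type) [Field k] (Λ : Type) [Group Λ] (f : Fr →* Λ)
    (cl : Λ →* Multiplicative (ℤ × ℤ)), Emb Λ f cl →
    ∃ β : ∀ n : ℕ, Uni k Λ →ₐ[k] Ak k ⧸ (Ideal.span {kap k ^ n} : Ideal (Ak k)),
      (∀ (n : ℕ) (g : Fr) (l : Λ), f g * l⁻¹ ∈ (commutator Λ).lowerCentralSeries (2 * n) →
        β n (tu k l) = Ideal.Quotient.mk _ (TA k g)) ∧
      ∀ (m n : ℕ) (hmn : (Ideal.span {kap k ^ n} : Ideal (Ak k)) ≤ Ideal.span {kap k ^ m})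
        (b : Uni k Λ), Ideal.Quotient.factor hmn (β n b) = β m b

/-- [GB tr] existence of `D`. (Uses `S_beta`, `S_uni`.)

Proof. `D = Uni k Λ ⧸ ⨅ n, ker (β n)`, `T l = [tu l]`, `β n` the induced maps
(`Ideal.Quotient.liftₐ`). -/
def S_tr : Prop := ∀ (k : Type) [Field k] (Λ : Type) [Group Λ] [Group.FG Λ] (f : Fr →* Λ)
    (cl : Λ →* Multiplicative (ℤ × ℤ)), Emb Λ f cl →
    ∃ (D : Type) (_ : CommRing D) (_ : Algebra k D) (T : Λ → D)
      (β : ∀ n : ℕ, D →ₐ[k] Ak k ⧸ (Ideal.span {kap k ^ n} : Ideal (Ak k))), TR k Λ f D T β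

/-- [GB dom] `D` is a domain. (Uses `S_kera`, `S_auniv`.)

Proof. `κ` is prime in `A` (`S_kera`: `A/κ` embeds in the domain `Lau k`), `κ ≠ 0`. For `0 ≠ d ∈ D` let `a` be
maximal with `β a d = 0` (`β 0 d = 0` as `A/(1) = 0`; `sep`; monotonicity by `compat`); `β (a+1) d = [α]` with
`κ^a ∣ α`, `¬ κ^(a+1) ∣ α`. For `0 ≠ d'` similarly `b, α'`. Represent `β (a+b+1) d = [δ]`, `β (a+b+1) d' = [δ']`; by
`compat`, `δ ≡ α` mod `κ^(a+1)`, so `δ = κ^a δ_1`, `¬ κ ∣ δ_1`, `δ' = κ^b δ_1'`, and `δ δ' = κ^(a+b) δ_1 δ_1'` is not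
divisible by `κ^(a+b+1)` (`κ` prime). So `β (a+b+1) (d d') ≠ 0`. `D` is nontrivial because `β 1 1 = 1 ≠ 0`. -/
def S_dom : Prop := ∀ (k : Type) [Field k] (Λ : Type) [Group Λ] (f : Fr →* Λ) (D : Type)
    [CommRing D] [Algebra k D] (T : Λ → D)
    (β : ∀ n : ℕ, D →ₐ[k] Ak k ⧸ (Ideal.span {kap k ^ n} : Ideal (Ak k))),
    TR k Λ f D T β → IsDomain D

/-- [GB res] the restriction to the reducible locus. (Uses `S_kera`, `S_resa`, `S_auniv`.)

Proof. `res` = `β 1` followed by `A/(κ^1) → Lau k` induced by `resA k` (`κ ∈ ker`). For `l ∈ Λ` choose `g` with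
`f g * l⁻¹ ∈ lowerCentralSeries 2` (`Emb.sup`); this is in `commutator Λ = ker cl`, so `cl l = clF g`, and
`res (T l) = resA (TA g) = e_(clF g)` (`S_resa`). `res b = 0 ↔ β 1 b = 0` by `S_kera`. `T ∘ f` is a
pseudo-character, `φ : A → D` the homomorphism with `φ (TA g) = T (f g)` (`S_auniv`); then `β n ∘ φ` is the
quotient map (`AlgHom` equal on generators; `f g * (f g)⁻¹ = 1`) and `res ∘ φ = resA`. -/
def S_res : Prop := ∀ (k : Type) [Field k] (Λ : Type) [Group Λ] (f : Fr →* Λ)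
    (cl : Λ →* Multiplicative (ℤ × ℤ)), Emb Λ f cl → ∀ (D : Type)
    [CommRing D] [Algebra k D] (T : Λ → D)
    (β : ∀ n : ℕ, D →ₐ[k] Ak k ⧸ (Ideal.span {kap k ^ n} : Ideal (Ak k))),
    TR k Λ f D T β → (∃ res : D →ₐ[k] Lau k,
      (∀ l, res (T l) = ee k (Multiplicative.toAdd (cl l))) ∧ (∀ b, res b = 0 ↔ β 1 b = 0)) ∧
    ∃ φ : Ak k →ₐ[k] D, (∀ g, φ (TA k g) = T (f g)) ∧ ∀ n a, β n (φ a) = Ideal.Quotient.mk _ a

/-- [GB frb] the finite quotients of `Uni` at the maximal ideals through the reducible locus.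
(Uses `F2TF.S_count` for `Uni` (`S_ev`) and for `A` itself, `S_rf`, `S_uni`, `S_auniv`, `S_kera`.)

Proof. Let `q = p ^ r`. Let `β` be as in `S_beta`, `m` a maximal ideal of `B = Uni (ZMod p) Λ` containing `ker (β 1)`,
`J` the ideal of `A` containing `κ` such that `J/κ` is the image of `m` under `β 1` (`β 1` is onto: its
image contains all `[TA g]`), so `B/m = A/J`, finite. `β q : B → A/κ^q → A/fpow q J` (`κ^q ∈ fpow q J`)
maps `m` to `J/fpow q J` (compatibility of `β q` and `β 1`), so it kills `fpow q m`; it is onto. By `S_count`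
for `B` (`S_ev` for an element of `NatBij Fr Λ`, `exists_natBij`) and for `A` (with `ev J = mk`,
`IsTR p A A mk`: all conditions are clear, `sep` is `S_rf`) the rings `B/fpow q m` and `A/fpow q J` are finite with the same number
`|A/J| ^ (q ^ 3)` of elements, so `fpow q m = ker (B → A/fpow q J)`. Now let `β 1 b = 0`. Then `β q b = [κ a]`,
choose `b'` with `β q b' = [a]` (`β q` is onto) and `b - κ_B b' ∈ ker (β q) ⊆ fpow q m`,
`κ_B = tu ⁅f gx, f gy⁆ - 2`. -/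
def S_frb : Prop := ∀ (p : ℕ) [Fact p.Prime] (Λ : Type) [Group Λ] [Group.FG Λ] (f : Fr →* Λ)
    (cl : Λ →* Multiplicative (ℤ × ℤ)), Emb Λ f cl → SameFiniteQuotients Λ Fr →
    ∀ β : ∀ n : ℕ, Uni (ZMod p) Λ →ₐ[ZMod p] Ak (ZMod p) ⧸
      (Ideal.span {kap (ZMod p) ^ n} : Ideal (Ak (ZMod p))),
    (∀ (n : ℕ) (g : Fr) (l : Λ), f g * l⁻¹ ∈ (commutator Λ).lowerCentralSeries (2 * n) →
        β n (tu (ZMod p) l) = Ideal.Quotient.mk _ (TA (ZMod p) g)) →
    (∀ (m n : ℕ) (hmn : (Ideal.span {kap (ZMod p) ^ n} : Ideal (Ak (ZMod p))) ≤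
        Ideal.span {kap (ZMod p) ^ m})
        (b : Uni (ZMod p) Λ), Ideal.Quotient.factor hmn (β n b) = β m b) →
    ∀ m : Ideal (Uni (ZMod p) Λ), m.IsMaximal → RingHom.ker (β 1) ≤ m → ∀ (r : ℕ)
      (b : Uni (ZMod p) Λ), β 1 b = 0 → ∃ b' : Uni (ZMod p) Λ,
        b - (tu (ZMod p) ⁅f gx, f gy⁆ - 2) * b' ∈ fpow (p ^ r) m

/-- [GB loc] the ideal of the reducible locus is locally generated by `κ`. (Uses `S_frb`, `S_uni`.)

Proof. `B = Uni (ZMod p) Λ`, Noetherian, `π : B → D` onto with `π (tu l) = T l`; `β n ∘ π` satisfies the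
hypotheses of `S_frb`. Let `I = ker (β 1 ∘ π)`. The ideal `E = {e ∈ B | e I ⊆ κ_B B}` is not contained in any
maximal ideal `m ⊇ I`: `fpow (p ^ r) m ≤ m ^ (p ^ r)`, so by `S_frb` `I B_m ⊆ κ_B B_m + m ^ n B_m` for all `n`, so
`I B_m ⊆ κ_B B_m` (Krull's intersection theorem in `B_m / κ_B B_m`), and `I` is finitely generated, so there
is `e ∉ m` with `e I ⊆ κ_B B`. So `E + I = B`, and there is `e ∈ E` with `e - 1 ∈ I`, i.e. `β 1 (π e) = 1`.
Its image in `D` does it: if `β 1 d = 0`, `d = π b`, then `b ∈ I`. -/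
def S_loc : Prop := ∀ (p : ℕ) [Fact p.Prime] (Λ : Type) [Group Λ] [Group.FG Λ] (f : Fr →* Λ)
    (cl : Λ →* Multiplicative (ℤ × ℤ)), Emb Λ f cl → SameFiniteQuotients Λ Fr →
    ∀ (D : Type) [CommRing D] [Algebra (ZMod p) D] (T : Λ → D)
    (β : ∀ n : ℕ, D →ₐ[ZMod p] Ak (ZMod p) ⧸ (Ideal.span {kap (ZMod p) ^ n} : Ideal (Ak (ZMod p)))),
    TR (ZMod p) Λ f D T β → ∃ e : D, β 1 e = 1 ∧ ∀ b, β 1 b = 0 → ∃ c,
      e * b = (T ⁅f gx, f gy⁆ - 2) * c

/-! ## Part 5: facts on the group -/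

/-- [GB cop] `1 - χ^b` is not a zero divisor modulo `1 - χ^a` if `a, b` are independent.

Proof. For `F ∈ Lau k` let `s_F(c)` be the sum of the coefficients of `F` over the coset `c + ℤ a`. (1) If
`s_F = 0` then `(1 - χ^a) ∣ F`: the ideal `(1 - χ^a)` contains all `χ^c - χ^(c + n a)`, and `F` with vanishing
coset sums is a combination of such elements (induction on the size of the support; or: modulo
`(1 - χ^a)` every `χ^c` is `≡ χ^(r(c))` for a set of representatives `r` of the cosets, and then the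
coefficients are the coset sums). (`a ≠ 0` as `a, b` are independent.) (2) `(1 - χ^b) F = (1 - χ^a) G` has
vanishing coset sums (those of `(1 - χ^a) G` cancel), so `s_F(c) = s_F(c - b)` for all `c`. As `b` has infinite
order modulo `ℤ a` and only finitely many cosets have `s_F ≠ 0`, `s_F = 0`. -/
def S_cop : Prop := ∀ (k : Type) [Field k] (a b : Multiplicative (ℤ × ℤ)), ¬ Dep a b →
    ∀ F G : Lau k, (1 - AddMonoidAlgebra.single (Multiplicative.toAdd b) 1) * F =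
      (1 - AddMonoidAlgebra.single (Multiplicative.toAdd a) 1) * G →
      (1 - AddMonoidAlgebra.single (Multiplicative.toAdd a) 1 : Lau k) ∣ F

/-- [GB fox] Fox derivatives. (Uses `S_cop`.)

Proof. The homomorphism `Fr → GL (Fin 2) (Lau k)`, `gx ↦ [[χ^(1,0), 1], [0, 1]]`, `gy ↦ [[χ^(0,1), 0], [0, 1]]` maps
`g` to `[[χ^(clF g), fx g], [0, 1]]`; this defines `fx`, with `fx (g h) = fx g + χ^(cl g) fx h`, similarly
`fy`. The formula `fx g (χ^(1,0) - 1) + fy g (χ^(0,1) - 1) = χ^(cl g) - 1` holds for `1, gx, gy` and is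
compatible with products and inverses. Last statement: `w = ⁅g, h⁆`, `χ^(cl w) = 1`, `w h g = g h`, so
`fx w = fx (g h) - fx (h g) = (1 - χ^(cl h)) fx g - (1 - χ^(cl g)) fx h`, same for `fy`.
Let `fx w = 0`. Then `fy w (χ^(0,1) - 1) = 0`, so `fy w = 0` (`Lau k` is a domain); same if `fy w = 0`. Put
`a = clF g`, `b = clF h`, suppose that `a, b` are independent. `(1 - χ^b) fx g = (1 - χ^a) fx h` gives
`(1 - χ^a) ∣ fx g` (`S_cop`), similarly
`(1 - χ^a) ∣ fy g`; with `fx g (χ^(1,0) - 1) + fy g (χ^(0,1) - 1) = χ^a - 1`, cancelling `1 - χ^a ≠ 0` and applying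
the augmentation `Lau k → k` gives `0 = -1`. -/
def S_fox : Prop := ∀ (k : Type) [Field k], ∃ fx fy : Fr → Lau k,
    (∀ g h, fx (g * h) = fx g + AddMonoidAlgebra.single (Multiplicative.toAdd (clF g)) 1 * fx h) ∧
    (∀ g h, fy (g * h) = fy g + AddMonoidAlgebra.single (Multiplicative.toAdd (clF g)) 1 * fy h) ∧
    fx gx = 1 ∧ fx gy = 0 ∧ fy gx = 0 ∧ fy gy = 1 ∧
    ∀ g h : Fr, (fx ⁅g, h⁆ = 0 ∨ fy ⁅g, h⁆ = 0) → Dep (clF g) (clF h)

/-- [GB depf] `κ² ∣ TA ⁅g, h⁆ - 2` implies that the classes of `g, h` are dependent. (Uses `S_tapc`,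
`S_auniv`, `S_fox`.)

Proof. `M = (Lau k)[s]` (polynomials), `u = χ^(1,0)`, `v = χ^(0,1)`. `A → M`: `x ↦ u + u⁻¹`, `y ↦ v + v⁻¹`,
`z ↦ s + u v + u⁻¹ v⁻¹`. `ρ : Fr → GL (Fin 2) M`, `gx ↦ [[u, 1], [0, u⁻¹]]`, `gy ↦ [[v, 0], [s, v⁻¹]]` has
determinant `1`, traces `x, y` and `tr ρ(gx gy) = u v + s + u⁻¹ v⁻¹ = z`, so `tr ρ(g)` is the image of `TA g`
(`CC.PChar.unique`). For every `g`: `ρ(g) = [[a, b], [s c, d]]` with (modulo `s`) `a_0 = χ^(cl g)`,
`d_0 = χ^(-cl g)`, and `b_0(g), c_0(g)` (constant coefficients) satisfy `b_0(g h) = χ^(cl g) b_0(h) + b_0(g) χ^(-cl h)`,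
`c_0(g h) = c_0(g) χ^(cl h) + χ^(-cl g) c_0(h)`. Let `D` be the endomorphism `χ^c ↦ χ^(2c)` of `Lau k` and `ι` the
automorphism `χ^c ↦ χ^(-c)`; then `χ^(cl g) b_0(g) = u D(fx g)` and `χ^(-cl g) ... `: precisely
`B(g) = b_0(g) χ^(cl g)` satisfies `B(g h) = B(g) + χ^(2 cl g) B(h)`, `B(gx) = u`, `B(gy) = 0`, so `B = u D(fx)`;
`C(g) = c_0(g) χ^(-cl g)` satisfies `C(g h) = C(g) + χ^(-2 cl g) C(h)`, `C(gx) = 0`, `C(gy) = v⁻¹`, so
`C = v⁻¹ ι (D (fy))`. For `w = ⁅g, h⁆`: `cl w = 0`, `ρ(w) = [[1 + s a', b], [s c, 1 + s d']]`, the determinant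
`1 = 1 + s (a' + d') + s² a' d' - s b c` gives `tr ρ(w) - 2 = s (a' + d') ≡ s b_0 c_0` modulo `s²`. The image of
`κ` in `M` is divisible by `s` (`κ = s (s + δ)`, `δ = (u - u⁻¹)(v - v⁻¹)`), so `κ² ∣ TA w - 2` gives
`b_0 c_0 = 0` in the domain `Lau k`; `D` and `ι` are injective, so `fx w = 0` or `fy w = 0`. `S_fox`. -/
def S_depf : Prop := ∀ (k : Type) [Field k] (g h : Fr),
    kap k ^ 2 ∣ TA k ⁅g, h⁆ - 2 → Dep (clF g) (clF h)

/-- [GB dep] the same for `Λ`. (Uses `S_depf`, `S_auniv`.)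

Proof. `Γ = (commutator Λ).lowerCentralSeries 4`, normal in `Λ`. Choose `g₀, h₀ ∈ Fr` with `f g₀ g⁻¹, f h₀ h⁻¹ ∈ Γ`
(`Emb.sup`). Then `f ⁅g₀, h₀⁆ ⁅g, h⁆⁻¹ ∈ Γ` and `β 2 (T ⁅g, h⁆) = [TA ⁅g₀, h₀⁆]` (`TR.beta`), so `T ⁅g, h⁆ = 2` gives
`κ² ∣ TA ⁅g₀, h₀⁆ - 2`; `cl g = clF g₀`, `cl h = clF h₀` (`Γ ≤ commutator Λ`). -/
def S_dep : Prop := ∀ (k : Type) [Field k] (Λ : Type) [Group Λ] (f : Fr →* Λ)
    (cl : Λ →* Multiplicative (ℤ × ℤ)), Emb Λ f cl → ∀ (D : Type)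
    [CommRing D] [Algebra k D] (T : Λ → D)
    (β : ∀ n : ℕ, D →ₐ[k] Ak k ⧸ (Ideal.span {kap k ^ n} : Ideal (Ak k))),
    TR k Λ f D T β → ∀ g h, T ⁅g, h⁆ = 2 → Dep (cl g) (cl h)

/-- [GB fr3] the relation of Fricke for three elements. (Uses `S_br`.)

Proof. `T (a b u) + T (b a u) = P` is `CC.PChar.triple`,
`P = T a T (b u) + T b T (a u) + T u T (a b) - T a T b T u`. Product: `rel` with `a b u`, `b a u`:
`T (a b u) T (b a u) = T (a b u b a u) + T (a b a⁻¹ b⁻¹)`; cyclically and by `rel`: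
`T (a b u b a u) = T ((b u) (b a u a)) = T (b u) T (b a u a) - T (u⁻¹ a u a)`,
`T (b a u a) = T ((a b) (a u)) = T (a b) T (a u) - T (b⁻¹ u)`, `T (b⁻¹ u) = T b T u - T (b u)`,
`T (u⁻¹ a u a) = T (a) ^ 2 - T ⁅u⁻¹, a⁆`, and `S_br` for the two commutators (`T (u⁻¹ a) = T a T u - T (a u)`). So
`T (a b u) (P - T (a b u)) = Q`. -/
def S_fr3 : Prop := ∀ (k : Type) [Field k] (G : Type) [Group G] (R : Type) [CommRing R] [Algebra k R]
    (T : G → R), PC T → ∀ a b u : G,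
    T (a * b * u) ^ 2 - (T a * T (b * u) + T b * T (a * u) + T u * T (a * b) - T a * T b * T u) *
      T (a * b * u) + (T a ^ 2 + T b ^ 2 + T u ^ 2 + T (a * b) ^ 2 + T (a * u) ^ 2 + T (b * u) ^ 2 -
      T a * T b * T (a * b) - T a * T u * T (a * u) - T b * T u * T (b * u) +
      T (a * b) * T (a * u) * T (b * u) - 4) = 0

/-- [GB two] `T u = 2` implies that `u` is trivial for `T` (the quaternion algebra of `T` is ramified
along the reducible locus). (Uses `S_fr3`, `S_kera`, `S_auniv`, `S_dom`, `S_ctnd`.)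

Proof. `a = f gx`, `b = f gy`, `x = T a`, `y = T b`, `z = T (a b)`, `P = T (a u) - x`, `Q = T (b u) - y`,
`R = T (a b u) - z`. With `T u = 2`, `S_fr3` becomes `F = 0`, `F = P² + Q² + R² + z P Q - x Q R - y P R`.
With `δ = y² - 4`, `α = x y - 2 z`, `γ = 2 x - y z`, `N(s, t) = s² + t² - y s t`:
`δ² F = N(δ P + α Q, δ R + γ Q) + δ κ Q²` (`ring`), `κ = x² + y² + z² - x y z - 4`. Put `P' = δ P + α Q`,
`R' = δ R + γ Q`: `N(P', R') + δ κ Q² = 0` in `D`. Claim: `β n` kills `P', R', Q` for all `n`. Induction: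
suppose `β n` kills them. `β (2n+1)`: `P' ↦ [κⁿ P₁]`, `R' ↦ [κⁿ R₁]`, `Q ↦ [κⁿ Q₁]` with `P₁, R₁, Q₁ ∈ A`
(`compat`), and `x, y, z, κ` go to the classes of `X 0, X 1, X 2, kap`. So
`κ^(2n) (N(P₁, R₁) + δ κ Q₁²) ∈ (κ^(2n+1))`, `κ ∣ N(P₁, R₁)`. Apply `resA`: with `v = χ^(0,1)`, `s = resA P₁`,
`t = resA R₁`: `(s - v t)(s - v⁻¹ t) = 0` in the domain `Lau k`, so `s = v^(±1) t`; `s` and `t` are invariant under
`χ^c ↦ χ^(-c)` (`S_ctnd`, first part), so `(v - v⁻¹) t = 0`, `t = 0 = s`. By `S_kera` `κ ∣ P₁`, `κ ∣ R₁`, so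
`β (n+1)` kills `P', R'`. Then the same with `β (2n+2)`, `P' ↦ [κ^(n+1) P₂]`, `R' ↦ [κ^(n+1) R₂]`,
`Q ↦ [κⁿ Q₁]`: `κ^(2n+1) δ Q₁² ∈ (κ^(2n+2))`, `κ ∣ δ Q₁²`, `resA δ = (v - v⁻¹)² ≠ 0`, so `κ ∣ Q₁`.
By `sep` `P' = R' = Q = 0`, and `δ ≠ 0` in the domain `D` (`β 1 δ ≠ 0`), so `P = Q = R = 0`. Hence
`T (w u) = T w` for `w ∈ {1, a, b, a b}`. For `g ∈ Fr` there are `c_i ∈ D` with
`T (f g h) = c_0 T h + c_1 T (a h) + c_2 T (b h) + c_3 T (a b h)` for all `h ∈ Λ` (induction as in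
`CC.PChar.unique`; or `CC.PCharFin.tr_mem` for `T` restricted to ... with `B = ⊤`), `h = u, 1` give
`T (f g u) = T (f g)`. For `g ∈ Λ` and `n` choose `g₀ ∈ Fr` with `f g₀ * g⁻¹ ∈ lowerCentralSeries (2n)`, and `u₀`
for `u`: `β n (T (g u)) = [TA (g₀ u₀)] = β n (T (f g₀ u)) = β n (T (f g₀)) = β n (T g)`. `sep`. -/
def S_two : Prop := ∀ (k : Type) [Field k], (2 : k) ≠ 0 → ∀ (Λ : Type) [Group Λ] (f : Fr →* Λ)
    (cl : Λ →* Multiplicative (ℤ × ℤ)), Emb Λ f cl → ∀ (D : Type)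
    [CommRing D] [Algebra k D] (T : Λ → D)
    (β : ∀ n : ℕ, D →ₐ[k] Ak k ⧸ (Ideal.span {kap k ^ n} : Ideal (Ak k))),
    TR k Λ f D T β → ∀ u, T u = 2 → ∀ g, T (g * u) = T g

/-! ## Part 6: assembly -/

/-- [GB npd] Theorem A for `D` (over `F_p`). (Uses `F2TF.S_thmA`, `S_ev`, `S_uni`.)

Proof. `exists_natBij` (from `SameFiniteQuotients`), `S_ev`, and `S_thmA` for `B = Uni (ZMod p) Λ`, `m = 3`,
`x = ![tu (f gx), tu (f gy), tu (f (gx gy))]` give `g_B`. `π : B → D` with `π (tu l) = T l` (`S_uni`) is onto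
(`TR.gen`); `g = π ∘ g_B`. `fin`: composition of a finite and a surjective homomorphism. `nil`: for `l`
apply the statement to `l ∘ π`: `cart^[N] (l ∘ π) = cart^[N] l ∘ π`. For `k = ZMod p` the `p`-th root
is the identity (`ZMod.pow_card`), so `psik = F2TF.psi`, `cartk = F2TF.cart`. -/
def S_npd : Prop := ∀ (p : ℕ) [Fact p.Prime] (Λ : Type) [Group Λ] [Group.FG Λ] (f : Fr →* Λ),
    SameFiniteQuotients Λ Fr → ∀ (D : Type) [CommRing D] [Algebra (ZMod p) D] (T : Λ → D),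
    PC T → Algebra.adjoin (ZMod p) (Set.range T) = ⊤ → ∃ g : Fin 3 → D,
      NP p (ZMod p) D (crd f T) g

/-- the inclusion `F_p[x, y, z] → k[x, y, z]` -/
noncomputable def inc (p : ℕ) [Fact p.Prime] (k : Type) [Field k] [CharP k p] :
    Ak (ZMod p) →+* Ak k :=
  MvPolynomial.map (ZMod.castHom (dvd_refl p) k)

/-- [GB bch] base change: the map `D → D'`. (Uses `S_uni`, `S_tapc`, `S_auniv`.)

Proof. `inc (TA (ZMod p) g) = TA k g` (`CC.PChar.unique`), `inc κ = κ`. Make `D'` an algebra over `ZMod p`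
(through `k`). `T'` is a pseudo-character, so there is `ψ₀ : Uni (ZMod p) Λ → D'`, `ψ₀ (tu l) = T' l`, and
`π : Uni (ZMod p) Λ → D` onto. `β' n (ψ₀ b)` is the image of `β n (π b)` under `A/κⁿ → Ak k/κⁿ`
(on the generators `tu l`, `TR.beta`). So if `π b = 0` then `β' n (ψ₀ b) = 0` for all `n`, `ψ₀ b = 0`, and `ψ` is
well defined. In the stated form: `β n b = [a]` implies `β' n (ψ b) = [inc a]`. The span of `ψ D` is a
`k`-subalgebra containing the `T' l`. -/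
def S_bch : Prop := ∀ (p : ℕ) [Fact p.Prime] (k : Type) [Field k] [CharP k p] (Λ : Type) [Group Λ]
    (f : Fr →* Λ) (cl : Λ →* Multiplicative (ℤ × ℤ)), Emb Λ f cl →
    ∀ (D : Type) [CommRing D] [Algebra (ZMod p) D] (T : Λ → D)
    (β : ∀ n : ℕ, D →ₐ[ZMod p] Ak (ZMod p) ⧸ (Ideal.span {kap (ZMod p) ^ n} : Ideal (Ak (ZMod p))))
    (D' : Type) [CommRing D'] [Algebra k D'] (T' : Λ → D')
    (β' : ∀ n : ℕ, D' →ₐ[k] Ak k ⧸ (Ideal.span {kap k ^ n} : Ideal (Ak k))),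
    TR (ZMod p) Λ f D T β → TR k Λ f D' T' β' →
    ∃ ψ : D →+* D', (∀ l, ψ (T l) = T' l) ∧ Submodule.span k (Set.range ψ) = ⊤ ∧
      ∀ (n : ℕ) (b : D) (a : Ak (ZMod p)), β n b = Ideal.Quotient.mk _ a →
        β' n (ψ b) = Ideal.Quotient.mk _ (inc p k a)

/-- [GB bas] `k[x, y, z]` is free over `F_p[x, y, z]`.

Proof. A basis `c_s` of `k` over `F_p` (`Module.Free.chooseBasis`); every polynomial over `k` is uniquely a
finite sum `∑ c_s inc a_s` (coefficientwise). `κⁿ ∣ ∑ c_s inc a_s` in `k[x, y, z]`: write the quotient as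
`∑ c_s inc b_s` and compare: `a_s = κⁿ b_s`. -/
def S_bas : Prop := ∀ (p : ℕ) [Fact p.Prime] (k : Type) [Field k] [CharP k p],
    ∃ (S : Type) (c : S → k), (∀ x : k, ∃ a : S →₀ ZMod p, x = a.sum fun s m =>
        (ZMod.castHom (dvd_refl p) k m) * c s) ∧
      (∀ a : Ak k, ∃! b : S →₀ Ak (ZMod p), a = b.sum fun s q => C (c s) * inc p k q) ∧
      ∀ (n : ℕ) (b : S →₀ Ak (ZMod p)), kap k ^ n ∣ (b.sum fun s q => C (c s) * inc p k q) →
        ∀ s, kap (ZMod p) ^ n ∣ b s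

/-- [GB bcl] base change of `loc`. (Uses `S_bch`, `S_bas`.)

Proof. `e' = ψ e`. Let `β' 1 b' = 0`, `b' = ∑ c_s ψ (d_s)` (finite sum over the basis `c` of `k` over `F_p`;
`span k (range ψ) = ⊤`), `β 1 d_s = [a_s]`. `0 = β' 1 b' = [∑ c_s inc a_s]`, so `κ ∣ a_s`, `β 1 d_s = 0`,
`e d_s = κ_D d_s'`, and `e' b' = κ_D' ∑ c_s ψ (d_s')`. -/
def S_bcl : Prop := ∀ (p : ℕ) [Fact p.Prime] (k : Type) [Field k] [CharP k p] (Λ : Type) [Group Λ]
    (f : Fr →* Λ) (cl : Λ →* Multiplicative (ℤ × ℤ)), Emb Λ f cl →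
    ∀ (D : Type) [CommRing D] [Algebra (ZMod p) D] (T : Λ → D)
    (β : ∀ n : ℕ, D →ₐ[ZMod p] Ak (ZMod p) ⧸ (Ideal.span {kap (ZMod p) ^ n} : Ideal (Ak (ZMod p))))
    (D' : Type) [CommRing D'] [Algebra k D'] (T' : Λ → D')
    (β' : ∀ n : ℕ, D' →ₐ[k] Ak k ⧸ (Ideal.span {kap k ^ n} : Ideal (Ak k))),
    TR (ZMod p) Λ f D T β → TR k Λ f D' T' β' →
    (∃ e : D, β 1 e = 1 ∧ ∀ b, β 1 b = 0 → ∃ c, e * b = (T ⁅f gx, f gy⁆ - 2) * c) →
    ∃ e : D', β' 1 e = 1 ∧ ∀ b, β' 1 b = 0 → ∃ c, e * b = (T' ⁅f gx, f gy⁆ - 2) * c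

/-- [GB bcn] base change of `NP`. (Uses `S_bas`; `ψ` from `S_bch`.)

Proof. `g' = ψ ∘ g`. Let `P = Ak (ZMod p)`, `P' = Ak k`, `ι = aeval (x + g ^ p)`, `ι'` similarly; `ψ (ι a) = ι' (inc a)`.
`fin`: if `d_1, .., d_m` generate `D` over `P` then the `ψ d_j` generate the `P'`-module `D'`
(`D' = k ψ(D)`). `nil`: for `l' : D' → P'` write `l' (ψ d) = ∑ s, c_s inc (l_s d)` (`S_bas`), `l_s : D → P` additive and
`P`-linear; only finitely many `l_s` are nonzero (they are determined by the values at `d_1, .., d_m`).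
`psik (c q) = rt c * psik q`, `psik (inc a) = inc (psik a)`. By induction
`cartk^[N] l' (ψ d) = ∑ s, rt^[N] (c_s) inc (cartk^[N] l_s d)`, which is `0` for `N` large. `cartk^[N] l'` is additive
and `k`-linear (`cartk l' (a d) = psik (a ^ p l' (d ^ p)) = a cartk l' (d)`; additivity: `(b + c) ^ p =
b ^ p + c ^ p` in `D'`), so it vanishes on the `k`-span `D'` of `ψ D`. -/
def S_bcn : Prop := ∀ (p : ℕ) [Fact p.Prime] (k : Type) [Field k] [CharP k p] [PerfectRing k p]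
    (D : Type) [CommRing D] [Algebra (ZMod p) D] (D' : Type) [CommRing D'] [Algebra k D']
    (ψ : D →+* D'), Submodule.span k (Set.range ψ) = ⊤ → ∀ x g : Fin 3 → D,
    NP p (ZMod p) D x g → NP p k D' (fun i => ψ (x i)) (fun i => ψ (g i))

/-- [GB g] MAIN RESULT OF THE SECTION. (Uses `S_emb`, `S_tr`, `S_dom`, `S_res`, `S_loc`, `S_two`,
`S_dep`, `S_npd`, `S_bch`, `S_bcl`, `S_bcn`, `S_auniv`.)

Proof. Put the statements together: `f, cl` from `S_emb`; `D₀, T₀, β₀` from `S_tr` for `ZMod p`, `D, T, β` from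
`S_tr` for `k`; `ψ` from `S_bch`, `g = ψ ∘ g₀`, `g₀` from `S_npd` (`crd f T = ψ ∘ crd f T₀`); `res` from
`S_res`; `loc`: `e` from `S_loc` (over `ZMod p`) and `S_bcl`; `β 1 (e - 1) = 0` gives `res e = 1`;
`β 1 b = 0 ↔ res b = 0`. `kne`: `β 2 (T ⁅f gx, f gy⁆ - 2) = [kap]` is not `0` (`S_auniv`; `kap ∉ (kap²)`).
`2 ≠ 0` in `k` as `p ≠ 2`. -/
def S_g : Prop := ∀ (p : ℕ) [Fact p.Prime], p ≠ 2 → ∀ (k : Type) [Field k] [CharP k p]
    [PerfectRing k p] (Λ : Type) [Group Λ] [Group.FG Λ],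
    SameFiniteQuotients Λ Fr → ∃ (f : Fr →* Λ) (cl : Λ →* Multiplicative (ℤ × ℤ)) (D : Type)
      (_ : CommRing D) (_ : Algebra k D) (T : Λ → D) (res : D →ₐ[k] Lau k)
      (g : Fin 3 → D), Emb Λ f cl ∧ RD k Λ f cl D T res ∧ NP p k D (crd f T) g

end Pool.Agent.F2
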