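import Pool.Agent.Lib.MP_305fdd_al.F2.StmB
import Pool.Agent.Lib.MP_305fdd_al.F2.TF.Main
import Pool.Agent.Lib.MP_305fdd_al.F2.GB.rep
import Pool.Agent.Lib.MP_305fdd_al.F2.GB.tapc
import Pool.Agent.Lib.MP_305fdd_al.F2.GB.br
import Pool.Agent.Lib.MP_305fdd_al.F2.GB.auniv
import Pool.Agent.Lib.MP_305fdd_al.F2.GB.uni
import Pool.Agent.Lib.MP_305fdd_al.F2.GB.resa
import Pool.Agent.Lib.MP_305fdd_al.F2.GB.kera
import Pool.Agent.Lib.MP_305fdd_al.F2.GB.ctnd
import Pool.Agent.Lib.MP_305fdd_al.F2.GB.corr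
import Pool.Agent.Lib.MP_305fdd_al.F2.GB.corrpc
import Pool.Agent.Lib.MP_305fdd_al.F2.GB.rf
import Pool.Agent.Lib.MP_305fdd_al.F2.GB.ev
import Pool.Agent.Lib.MP_305fdd_al.F2.GB.emb
import Pool.Agent.Lib.MP_305fdd_al.F2.GB.kill
import Pool.Agent.Lib.MP_305fdd_al.F2.GB.beta
import Pool.Agent.Lib.MP_305fdd_al.F2.GB.tr
import Pool.Agent.Lib.MP_305fdd_al.F2.GB.dom
import Pool.Agent.Lib.MP_305fdd_al.F2.GB.res
import Pool.Agent.Lib.MP_305fdd_al.F2.GB.frb
import Pool.Agent.Lib.MP_305fdd_al.F2.GB.loc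
import Pool.Agent.Lib.MP_305fdd_al.F2.GB.cop
import Pool.Agent.Lib.MP_305fdd_al.F2.GB.fox
import Pool.Agent.Lib.MP_305fdd_al.F2.GB.depf
import Pool.Agent.Lib.MP_305fdd_al.F2.GB.dep
import Pool.Agent.Lib.MP_305fdd_al.F2.GB.fr3
import Pool.Agent.Lib.MP_305fdd_al.F2.GB.two
import Pool.Agent.Lib.MP_305fdd_al.F2.GB.npd
import Pool.Agent.Lib.MP_305fdd_al.F2.GB.bch
import Pool.Agent.Lib.MP_305fdd_al.F2.GB.bas
import Pool.Agent.Lib.MP_305fdd_al.F2.GB.bcl
import Pool.Agent.Lib.MP_305fdd_al.F2.GB.bcn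
import Pool.Agent.Lib.MP_305fdd_al.F2.GB.g
import Pool.Agent.Lib.MP_305fdd_al.F2.GB.pi
import Pool.Agent.Lib.MP_305fdd_al.F2.FB.car
import Pool.Agent.Lib.MP_305fdd_al.F2.FB.chg
import Pool.Agent.Lib.MP_305fdd_al.F2.FB.pol
import Pool.Agent.Lib.MP_305fdd_al.F2.FB.fpl
import Pool.Agent.Lib.MP_305fdd_al.F2.FB.fld
import Pool.Agent.Lib.MP_305fdd_al.F2.FB.star
import Pool.Agent.Lib.MP_305fdd_al.F2.FB.th
import Pool.Agent.Lib.MP_305fdd_al.F2.FB.or
import Pool.Agent.Lib.MP_305fdd_al.F2.FB.ind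
import Pool.Agent.Lib.MP_305fdd_al.F2.FB.lk
import Pool.Agent.Lib.MP_305fdd_al.F2.FB.pb
import Pool.Agent.Lib.MP_305fdd_al.F2.FB.om
import Pool.Agent.Lib.MP_305fdd_al.F2.FB.nil
import Pool.Agent.Lib.MP_305fdd_al.F2.FB.mo
import Pool.Agent.Lib.MP_305fdd_al.F2.FB.rc
import Pool.Agent.Lib.MP_305fdd_al.F2.FB.h
import Pool.Agent.Lib.MP_305fdd_al.F2.FB.fb
import Pool.Agent.Lib.MP_305fdd_al.F2.FB.bd

/-!
# MP_305fdd_al (`F_2`): the result of the sections A, G and B, without hypotheses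
-/

set_option autoImplicit false

namespace Pool.Agent.F2

open MvPolynomial Pool.Agent.Lib.MP_305fdd_al Pool.Agent.MP_305fdd_al

/-! ## Section G -/

theorem t_rep : S_rep := p_rep
theorem t_tapc : S_tapc := p_tapc t_rep
theorem t_br : S_br := p_br
theorem t_auniv : S_auniv := p_auniv t_tapc t_br
theorem t_uni : S_uni := p_uni t_br
theorem t_resa : S_resa := p_resa t_tapc t_br
theorem t_kera : S_kera := p_kera
theorem t_ctnd : S_ctnd := p_ctnd t_auniv t_resa
theorem t_corr : S_corr := p_corr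
theorem t_corrpc : S_corrpc := p_corrpc t_corr t_br
theorem t_rf : S_rf := p_rf
theorem t_ev : S_ev := p_ev t_tapc t_auniv t_uni t_corr t_corrpc t_rf
theorem t_emb : S_emb := p_emb
theorem t_kill : S_kill := p_kill t_rep t_tapc t_auniv
theorem t_beta : S_beta := p_beta t_tapc t_kill t_uni
theorem t_tr : S_tr := p_tr t_beta t_uni
theorem t_dom : S_dom := p_dom t_kera t_auniv
theorem t_res : S_res := p_res t_kera t_resa t_auniv
theorem t_frb : S_frb := p_frb F2TF.count t_ev t_rf t_uni t_auniv t_kera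
theorem t_loc : S_loc := p_loc t_frb t_uni
theorem t_cop : S_cop := p_cop
theorem t_fox : S_fox := p_fox t_cop
theorem t_depf : S_depf := p_depf t_tapc t_auniv t_fox
theorem t_dep : S_dep := p_dep t_depf t_auniv
theorem t_fr3 : S_fr3 := p_fr3 t_br
theorem t_two : S_two := p_two t_fr3 t_kera t_auniv t_dom t_ctnd t_tapc
theorem t_npd : S_npd := p_npd F2TF.thmA t_ev t_uni
theorem t_bch : S_bch := p_bch t_uni t_tapc t_auniv
theorem t_bas : S_bas := p_bas
theorem t_bcl : S_bcl := p_bcl t_bch t_bas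
theorem t_bcn : S_bcn := p_bcn t_bas

/-- Section G -/
theorem t_g : S_g :=
  p_g t_emb t_tr t_dom t_res t_loc t_two t_dep t_npd t_bch t_bcl t_bcn t_auniv t_kera

/-! ## Section B -/

theorem t_car : S_car := p_car
theorem t_chg : S_chg := p_chg
theorem t_pol : S_pol := p_pol
theorem t_fpl : S_fpl := p_fpl t_pol t_car
theorem t_fld : S_fld := p_fld t_car
theorem t_th : S_th := p_th
theorem t_star : S_star := p_star t_pol t_th

section

variable (p : ℕ) [Fact p.Prime] (k : Type) [Field k] [CharP k p] [PerfectRing k p]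
  (D : Type) [CommRing D] [Algebra k D] (φ : Ak k →ₐ[k] D) (res : D →ₐ[k] Lau k) (g : Fin 3 → D)
  (K : Type) [Field K] [Algebra D K]

theorem t_or : S_or p k D φ res g K := p_or p k D φ res g K
theorem t_ind : S_ind p k D φ res g K := p_ind p k D φ res g K t_pol t_kera
theorem t_lk : S_lk p k D φ res g K :=
  p_lk p k D φ res g K (t_or p k D φ res g K) (t_ind p k D φ res g K) t_chg t_pol
theorem t_pb : S_pb p k D φ res g K :=
  p_pb p k D φ res g K (t_or p k D φ res g K) (t_ind p k D φ res g K) t_chg t_fpl t_fld t_car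
theorem t_om : S_om p k D φ res g K :=
  p_om p k D φ res g K (t_pb p k D φ res g K) t_fpl t_car
theorem t_nil : S_nil p k D φ res g K :=
  p_nil p k D φ res g K (t_pb p k D φ res g K) t_fpl (t_om p k D φ res g K) t_car
theorem t_mo : S_mo p k D φ res g K := p_mo p k D φ res g K (t_om p k D φ res g K)
theorem t_rc : S_rc p k D φ res g K :=
  p_rc p k D φ res g K (t_ind p k D φ res g K) t_pol t_star t_th t_car
theorem t_h : S_h p k D φ res g K :=
  p_h p k D φ res g K (t_om p k D φ res g K) (t_nil p k D φ res g K) (t_mo p k D φ res g K)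
    (t_rc p k D φ res g K) t_car t_th (t_pb p k D φ res g K)
theorem t_fb : S_fb p k D φ res g K :=
  p_fb p k D φ res g K (t_or p k D φ res g K) (t_lk p k D φ res g K) (t_pb p k D φ res g K)
    (t_h p k D φ res g K) (t_rc p k D φ res g K) (t_mo p k D φ res g K) (t_nil p k D φ res g K)
    (t_om p k D φ res g K) t_th t_car t_star
theorem t_bd : S_bd p k D res g := p_bd p k D res g t_auniv t_resa t_tapc

end

/-- THE SETUP: what sections A, G and B give for a group `Λ` in the genus of the free group of rank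
two and a perfect field `k` of odd characteristic. -/
theorem exists_setup (p : ℕ) [Fact p.Prime] (hp : p ≠ 2) (k : Type) [Field k] [CharP k p]
    [PerfectRing k p] (Λ : Type) [Group Λ] [Group.FG Λ] (hΛ : SameFiniteQuotients Λ Fr) :
    ∃ (f : Fr →* Λ) (cl : Λ →* Multiplicative (ℤ × ℤ)) (D : Type)
      (_ : CommRing D) (_ : Algebra k D) (T : Λ → D) (res : D →ₐ[k] Lau k)
      (g : Fin 3 → D) (φ : Ak k →ₐ[k] D), Emb Λ f cl ∧ RD k Λ f cl D T res ∧
      (∀ w, φ (TA k w) = T (f w)) ∧ BD p k D φ res g ∧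
      ∀ (K : Type) [Field K] [Algebra D K] [IsFractionRing D K],
        ∃ (O : ValuationSubring K) (ρ : O →+* Mf k) (h : K) (Φ : K → K),
          FB p φ res K O ρ h Φ := by
  obtain ⟨f, cl, D, i1, i2, T, res, g, hE, hR, hN⟩ := t_g p hp k Λ hΛ
  obtain ⟨φ, h1, h2⟩ := t_bd p k D res g hp Λ f cl T hE hR hN
  refine ⟨f, cl, D, i1, i2, T, res, g, φ, hE, hR, h1, h2, ?_⟩
  intro K _ _ hK
  exact t_fb p k D φ res g K h2 hK

end Pool.Agent.F2
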