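import Pool.Agent.Lib.MP_305fdd_al.F2.ChDefs

/-!
# MP_305fdd_al, F_2 project, section C, second part: cells, uniformity, residues, germs

Every `def S_xx : Prop` is one independent piece; its docstring contains the complete proof.
The other statements (also those of `ChStm.lean`) may be taken as hypotheses.

Conventions. `p` is a prime, `k` a perfect field of characteristic `p`, `K` and `κ` field extensions of `k`.
`Frame k p v x y ex ac π ρ`: adapted frame of the valuation `v : K → Γ`. `FA k p x y ex ac π ρ`: its algebraic part.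
`ap y ex ac π N f` is a Laurent polynomial over `κ` in `r` variables: `ap 0 f = single (ex f) (ac f)`,
`ap (N+1) f = ∑ l, (ap N (π l f)) ^ p * om l`, `om l = single (exl l) (monY ȳ l.2)`, `ȳ j = ac (y j)`.
`Loc y ex ac π V u δ`: the local facts at the weight `u : Fin r → Γ'` on the stable space `V`.
`CharP κ p` and `CharP K p` follow from the `k`-algebra structures.
-/

set_option autoImplicit false

namespace Pool.Agent.F2Ch

open MvPolynomial

/-! ## D. Algebra of the approximations -/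

/-- [F2C D0] (about 60 lines) The algebraic part of a frame.
Proof. `x_ne` = `vb.ne`; `ac_zero`, `ac_ne`, `ac_mul`, `ac_alg`, `ac_x` are fields of `IsAC`; `ex_zero` = `vb.zero`.
`ex_mul`: `wt (ex (f g)) = v (f g) = v f + v g = wt (ex f + ex g)` and `vb.indep`.  `ex_alg`: for `c = 0` it is `ex_zero`, for `c ≠ 0` the value is `0`
(`triv`) and `indep`.  `ex_x`: `wt (ex (x i)) = v (x i) = wt (Pi.single i 1)`.  `ex_y`: `y_val`. -/
def S_D0 : Prop :=
  ∀ (p : ℕ) [Fact p.Prime] (k K κ : Type) [Field k] [CharP k p] [PerfectRing k p] [Field K]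
    [Algebra k K] [Field κ] [Algebra k κ] (Γ : Type) [AddCommGroup Γ] [LinearOrder Γ] [IsOrderedAddMonoid Γ]
    (v : K → Γ) (r s : ℕ) (x : Fin r → K) (y : Fin s → K) (ex : K → Fin r → ℤ) (ac : K → κ)
    (π : Ix p r s → K → K) (ρ : (Fin s → Fin p) → κ → κ),
    Frame k p v x y ex ac π ρ → FA k p x y ex ac π ρ

/-- [F2C D1] (about 120 lines) Exactness for multiplication by constants, by the `x i` and by the `y j`.
Proof. First: the `π l` are additive and `π l (a ^ p * f) = a * π l f` (`IsPB`: `repr`, `uniq`, and `(a+b)^p = a^p + b^p`).  Everything is by induction on `N` (for all `f`); `N = 0`: `f = 0` is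
trivial (`lead 0 = 0` since `ac 0 = 0`), for `f ≠ 0` use `ex_mul`, `ac_mul`.
(a) `c = d ^ p`, `π l (c f) = d π l f`, `(single 0 d) ^ p = single 0 c`.
(b) `f = ∑ (π l f) ^ p mon l`, so `x i * f = ∑_{l.1 i < p - 1} (π l f) ^ p mon (l + e_i) + ∑_{l.1 i = p - 1} (x i * π l f) ^ p mon (l - (p-1) e_i)`: this gives
`π (l + e_i) (x i f) = π l f` and `π (l - (p-1) e_i) (x i f) = x i * π l f`; insert into the definition of `ap (N+1)`, use the induction hypothesis for
`x i * π l f` and reindex the sum (`l ↦ l + e_i mod p` is a bijection).  `(single (Pi.single i 1) 1) ^ p = single (Pi.single i p) 1`.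
(c) the same with `y j`.
(d) `π ix0 1 = 1`, `π l 1 = 0` for `l ≠ ix0`, `ex 1 = 0`, `ac 1 = 1`. -/
def S_D1 : Prop :=
  ∀ (p : ℕ) [Fact p.Prime] (k K κ : Type) [Field k] [CharP k p] [PerfectRing k p] [Field K]
    [Algebra k K] [Field κ] [Algebra k κ] (r s : ℕ) (x : Fin r → K) (y : Fin s → K) (ex : K → Fin r → ℤ) (ac : K → κ)
    (π : Ix p r s → K → K) (ρ : (Fin s → Fin p) → κ → κ),
    FA k p x y ex ac π ρ →
    (∀ N (c : k) f, ap y ex ac π N (algebraMap k K c * f) =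
      AddMonoidAlgebra.single 0 (algebraMap k κ c) * ap y ex ac π N f) ∧
    (∀ N i f, ap y ex ac π N (x i * f) =
      AddMonoidAlgebra.single (Pi.single i 1) 1 * ap y ex ac π N f) ∧
    (∀ N j f, ap y ex ac π N (y j * f) =
      AddMonoidAlgebra.single 0 (ac (y j)) * ap y ex ac π N f) ∧
    (∀ N, ap y ex ac π N 1 = 1) ∧ (∀ N, ap y ex ac π N 0 = 0)

/-- [F2C D2] (about 130 lines) The coefficients of `ap (N + 1) f`: no cancellation.
Proof. `κ` has characteristic `p`, so for `P : AddMonoidAlgebra κ (Fin r → ℤ)` (a commutative ring of characteristic `p`): `(P ^ p).coeff (p m) = (P.coeff m) ^ p` and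
`(P ^ p).coeff n = 0` if `n` is not in `p ℤ^r` (induction on `P`: `add_pow_char`, `(single m c)^p = single (p m) (c^p)`).  Multiplication by `om l = single (exl l) c` shifts
the exponents by `exl l` and multiplies the coefficients by `c`.  Every `n : Fin r → ℤ` is uniquely `p m + a` with `0 ≤ a i < p`.  So in the sum `∑ l` only the `l = (a, j)` contribute to the
coefficient of `p m + a`: (a).
(b) The coefficient in (a) is `0` iff all the `(ap N (π (a,j) f)).coeff m` are `0`: `rb.uniq` (a sum `∑ c_j ^ p * monY ȳ j` determines the `c_j`).  So the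
exponents of `ap (N+1) f` are exactly the `p m + exl l` with `m` an exponent of `ap N (π l f)`.
(c) By induction on `N`: `ap 0 f = single (ex f) (ac f)` is `0` iff `f = 0`; `ap (N+1) f = 0` iff all `ap N (π l f) = 0` (by (b)) iff all `π l f = 0` iff `f = 0` (`pb.repr`). -/
def S_D2 : Prop :=
  ∀ (p : ℕ) [Fact p.Prime] (k K κ : Type) [Field k] [CharP k p] [PerfectRing k p] [Field K]
    [Algebra k K] [Field κ] [Algebra k κ] (r s : ℕ) (x : Fin r → K) (y : Fin s → K) (ex : K → Fin r → ℤ) (ac : K → κ)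
    (π : Ix p r s → K → K) (ρ : (Fin s → Fin p) → κ → κ),
    FA k p x y ex ac π ρ →
    (∀ N f (a : Fin r → Fin p) (m : Fin r → ℤ),
      (ap y ex ac π (N + 1) f).coeff (fun i => (p : ℤ) * m i + ((a i : ℕ) : ℤ)) =
        ∑ j, (ap y ex ac π N (π (a, j) f)).coeff m ^ p * monY (fun i => ac (y i)) j) ∧
    (∀ N f (n : Fin r → ℤ), (ap y ex ac π (N + 1) f).coeff n ≠ 0 ↔
      ∃ l m, (ap y ex ac π N (π l f)).coeff m ≠ 0 ∧ n = (p : ℤ) • m + exl l) ∧
    (∀ N f, ap y ex ac π N f = 0 ↔ f = 0)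

/-- [F2C D3] (about 100 lines) Uses D2. Minimal weights of `ap (N + 1) f`.
Proof. D2 (b) and `wt u (p m + exl l) = p • wt u m + wt u (exl l)` (`wt` is additive in the exponent); multiplication by `p` is monotone. (c): a nonzero Laurent polynomial has finitely many exponents and at
least one, so a minimal weight. -/
def S_D3 : Prop :=
  ∀ (p : ℕ) [Fact p.Prime] (k K κ : Type) [Field k] [CharP k p] [PerfectRing k p] [Field K]
    [Algebra k K] [Field κ] [Algebra k κ] (r s : ℕ) (x : Fin r → K) (y : Fin s → K) (ex : K → Fin r → ℤ) (ac : K → κ)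
    (π : Ix p r s → K → K) (ρ : (Fin s → Fin p) → κ → κ),
    FA k p x y ex ac π ρ → ∀ (Γ' : Type) [AddCommGroup Γ'] [LinearOrder Γ'] [IsOrderedAddMonoid Γ'] (u : Fin r → Γ'),
    (∀ N f c, UGe u c (ap y ex ac π (N + 1) f) ↔
      ∀ l c', IsMinW u (ap y ex ac π N (π l f)) c' → c ≤ p • c' + wt u (exl l)) ∧
    (∀ N f c, IsMinW u (ap y ex ac π (N + 1) f) c ↔
      (∀ l c', IsMinW u (ap y ex ac π N (π l f)) c' → c ≤ p • c' + wt u (exl l)) ∧
        ∃ l c', IsMinW u (ap y ex ac π N (π l f)) c' ∧ c = p • c' + wt u (exl l)) ∧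
    (∀ N f, f ≠ 0 → ∃ c, IsMinW u (ap y ex ac π N f) c)

/-- [F2C D4] (about 150 lines) Carries.
Proof. `l.1 i + l'.1 i + θ.1 i ≤ 2 (p - 1) + 1 < 2 p`, so the quotient by `p` is `0` or `1` and `cq` is the quotient: `l + l' + θ = p (cq l l' θ) + cr l l' θ` componentwise, so
`mon l * mon l' * mon θ = (mon (cq l l' θ)) ^ p * mon (cr l l' θ)`.  Multiply `f = ∑ (π l f) ^ p mon l`, `g = ∑ (π l' g) ^ p mon l'` and `mon θ`, collect by `cr l l' θ` and use
`pb.uniq` (and `(∑ ..)^p = ∑ .. ^p`): (a).  (b) is the same computation with `single`s.  (c) `prodSp` is spanned by a bilinear image of a finite dimensional space, for finitely many `θ`; stability from (a), additivity and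
`π l (c f) = c' π l f`, `c' ^ p = c`. (d) Induction on `M` with (a): `wd π (l :: w) f = wd π w (π l f)`; a sum of elements with `Abs (prodSp) M` has `Abs (prodSp) M`. (e) `f = f * 1 * mon 0`. -/
def S_D4 : Prop :=
  ∀ (p : ℕ) [Fact p.Prime] (k K κ : Type) [Field k] [CharP k p] [PerfectRing k p] [Field K]
    [Algebra k K] [Field κ] [Algebra k κ] (r s : ℕ) (x : Fin r → K) (y : Fin s → K) (ex : K → Fin r → ℤ) (ac : K → κ)
    (π : Ix p r s → K → K) (ρ : (Fin s → Fin p) → κ → κ),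
    FA k p x y ex ac π ρ →
    (∀ f g (θ : Ix 2 r s) l'', π l'' (f * g * mon x y θ) =
      ∑ l, ∑ l', if cr l l' θ = l'' then π l f * π l' g * mon x y (cq l l' θ) else 0) ∧
    (∀ (l l' : Ix p r s) (θ : Ix 2 r s), om y ac l * om y ac l' * om y ac θ =
      (om y ac (cq l l' θ)) ^ p * om y ac (cr l l' θ)) ∧
    (∀ V : Submodule k K, FiniteDimensional k V → (∀ l, ∀ f ∈ V, π l f ∈ V) →
      FiniteDimensional k (prodSp x y V) ∧ (∀ l, ∀ f ∈ prodSp x y V, π l f ∈ prodSp x y V) ∧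
      (∀ M f g (θ : Ix 2 r s), Abs π (V : Set K) M f → Abs π (V : Set K) M g →
        Abs π (prodSp x y V : Set K) M (f * g * mon x y θ)) ∧
      ((1 : K) ∈ V → V ≤ prodSp x y V))

/-- [F2C D5] (about 130 lines) Weights in the Laurent polynomial ring (Gauss).
Proof. (a) The support of `P` is finite and not empty.  (b) Uniqueness: both are minima of the same set.  (c) `P Q = ∑ P_m Q_n X^(m+n)`, so `UGe u (c + c') (P Q)` when `UGe u c P`, `UGe u c' Q`; and the part of weight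
`c + c'` of `P Q` comes from the pairs of exponents of weights `c` and `c'` exactly.  (d) `part u c P` and `part u c' Q` are nonzero when `c`, `c'` are the minimal weights, and
`AddMonoidAlgebra κ (Fin r → ℤ)` is a domain (instance).  (e) and (f): directly from coefficients. -/
def S_D5 : Prop :=
  ∀ (κ : Type) [Field κ] (r : ℕ) (Γ' : Type) [AddCommGroup Γ'] [LinearOrder Γ'] [IsOrderedAddMonoid Γ'] (u : Fin r → Γ'),
    (∀ P : AddMonoidAlgebra κ (Fin r → ℤ), P ≠ 0 → ∃ c, IsMinW u P c) ∧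
    (∀ (P : AddMonoidAlgebra κ (Fin r → ℤ)) c c', IsMinW u P c → IsMinW u P c' → c = c') ∧
    (∀ (P Q : AddMonoidAlgebra κ (Fin r → ℤ)) c c', UGe u c P → UGe u c' Q →
      UGe u (c + c') (P * Q) ∧ part u (c + c') (P * Q) = part u c P * part u c' Q) ∧
    (∀ (P Q : AddMonoidAlgebra κ (Fin r → ℤ)) c c', IsMinW u P c → IsMinW u Q c' →
      IsMinW u (P * Q) (c + c')) ∧
    (∀ (P E : AddMonoidAlgebra κ (Fin r → ℤ)) c c', IsMinW u P c → UGe u c' E → c < c' →
      IsMinW u (P + E) c ∧ part u c (P + E) = part u c P) ∧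
    (∀ (P Q : AddMonoidAlgebra κ (Fin r → ℤ)) c, part u c (P + Q) = part u c P + part u c Q) ∧
    (∀ (P : AddMonoidAlgebra κ (Fin r → ℤ)) c, UGe u c P → (part u c P ≠ 0 ↔ IsMinW u P c))

/-! ## E. Local facts and errors -/

/-- [F2C E1] (about 150 lines) Uses C0, C8. The finitely many comparisons, and the local facts.
Proof. (a) `{v f | 0 ≠ f ∈ V}` is finite (C0) and `ex f` is determined by `v f` (`vb.gen`, `vb.indep`), so `{ex f | f ∈ V}` is finite; as `π l f ∈ V`, `Cmp` is contained in a finite set.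
(b) `δ` = the minimum of the `wt u n`, `n ∈ Cmp`, if `Cmp` is not empty, any positive element otherwise (`Nontrivial Γ'`).
`orth`: by `Frame.orth`, `v f ≤ p v (π l f) + v (mon l)`, i.e. for `n = p ex (π l f) + exl l - ex f` we have `0 ≤ wt_v n`; if `= 0` then `n = 0` (`indep`) and equality holds; if `> 0` then `n ∈ Cmp` and `0 < δ ≤ wt u n`.
`step`: for `f = 0` the difference is `0`.  Let `f ≠ 0`.  `ap 1 f = ∑ l, single (p ex (π l f) + exl l) (ac (π l f) ^ p * monY ȳ l.2)`.  By C8 the terms with `π l f ≠ 0` and `p ex (π l f) + exl l = ex f` sum up to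
`single (ex f) (ac f) = ap 0 f`; for the other `l` with `π l f ≠ 0` the difference `n` is in `Cmp`, so the exponent has weight `≥ wt u (ex f) + δ`.
`add`: `f = 0` or `g = 0` or `f + g = 0`: clear (in the last case `ac g = - ac f`, `ex g = ex f`, the expression is `0`: `ac (-1) ...`; use `lc` at `γ = v f`: `0 = lc γ 0 = lc γ f + lc γ g`).  Otherwise: if `v f < v g` then `v (f+g) = v f`, `ac (f+g) = ac f` (`IsAC.add`
at `γ = v f`), so the expression is `- lead g`, of weight `wt u (ex g) ≥ wt u (ex f) + δ` (`ex g - ex f ∈ Cmp`).  `v g < v f`: symmetric.  If `v f = v g` then `ex f = ex g`; if `v (f+g) = v f` then the expression is `0`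
(`IsAC.add`); if `v (f+g) > v f` then `ac f + ac g = 0` and the expression is `lead (f+g)`, and `ex (f+g) - ex f ∈ Cmp`. -/
def S_E1 : Prop :=
  ∀ (p : ℕ) [Fact p.Prime] (k K κ : Type) [Field k] [CharP k p] [PerfectRing k p] [Field K]
    [Algebra k K] [Field κ] [Algebra k κ] (Γ : Type) [AddCommGroup Γ] [LinearOrder Γ] [IsOrderedAddMonoid Γ]
    (v : K → Γ) (r s : ℕ) (x : Fin r → K) (y : Fin s → K) (ex : K → Fin r → ℤ) (ac : K → κ)
    (π : Ix p r s → K → K) (ρ : (Fin s → Fin p) → κ → κ),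
    Frame k p v x y ex ac π ρ → ∀ V : Submodule k K, FiniteDimensional k V →
    (∀ l, ∀ f ∈ V, π l f ∈ V) → (Cmp v x ex π (V : Set K)).Finite ∧
    ∀ (Γ' : Type) [AddCommGroup Γ'] [LinearOrder Γ'] [IsOrderedAddMonoid Γ'] [Nontrivial Γ'] (u : Fin r → Γ'), Good (Cmp v x ex π (V : Set K)) u →
      ∃ δ, Loc y ex ac π V u δ

/-- [F2C E2] (about 130 lines) Uses D2, D3. The error of `ap M f` against `ap N f`, `N ≥ M`.
Proof. Note `UGe` is stable under sums and differences, `UGe u c P` implies `UGe u (p c) (P ^ p)` (coefficients of `P ^ p`: D2) and `UGe u (c + wt u (exl l)) (P * om l)`; `P ^ p - Q ^ p = (P - Q) ^ p`.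
First `M = 0`, `f ∈ V`, `f ≠ 0`, `c0 = wt u (ex f)`: by induction on `N`, `UGe u (c0 + δ) (ap N f - ap 0 f)`: `ap (N+1) f - ap 0 f = ∑ l (ap N (π l f) - ap 0 (π l f)) ^ p om l + (ap 1 f - ap 0 f)`; the second
part by `Loc.step`; the `l`-th term (only `π l f ≠ 0`) has weights `≥ p (wt u (ex (π l f)) + δ) + wt u (exl l) ≥ c0 + p δ ≥ c0 + δ` by `Loc.orth`.  (`c ≤ c0` because `ap 0 f = single (ex f) (ac f)`; `f = 0` trivial.)
`M → M + 1`: `ap (N+1) f - ap (M+1) f = ∑ l (ap N (π l f) - ap M (π l f)) ^ p om l`; for `π l f ≠ 0` let `c_l` be the minimal weight of `ap M (π l f)` (D3), `c ≤ p c_l + wt u (exl l)`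
(D3); by induction the term has weights `≥ p (c_l + p ^ M δ) + wt u (exl l) ≥ c + p ^ (M+1) δ`.
(b) from (a): with `c` the minimal weight of `ap M f` the error has weights `> c` (`0 < p ^ M δ`). -/
def S_E2 : Prop :=
  ∀ (p : ℕ) [Fact p.Prime] (k K κ : Type) [Field k] [CharP k p] [PerfectRing k p] [Field K]
    [Algebra k K] [Field κ] [Algebra k κ] (r s : ℕ) (x : Fin r → K) (y : Fin s → K) (ex : K → Fin r → ℤ) (ac : K → κ)
    (π : Ix p r s → K → K) (ρ : (Fin s → Fin p) → κ → κ),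
    FA k p x y ex ac π ρ → ∀ (Γ' : Type) [AddCommGroup Γ'] [LinearOrder Γ'] [IsOrderedAddMonoid Γ'] (u : Fin r → Γ')
    (V : Submodule k K) (δ : Γ'), Loc y ex ac π V u δ →
    (∀ M f, Abs π (V : Set K) M f → ∀ c, UGe u c (ap y ex ac π M f) → ∀ N, M ≤ N →
      UGe u (c + p ^ M • δ) (ap y ex ac π N f - ap y ex ac π M f)) ∧
    (∀ M f, Abs π (V : Set K) M f → ∀ c, IsMinW u (ap y ex ac π M f) c → ∀ N, M ≤ N →
      IsMinW u (ap y ex ac π N f) c ∧
        part u c (ap y ex ac π N f) = part u c (ap y ex ac π M f))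

/-- [F2C E3] (about 120 lines) Uses D2, D3. Additivity up to errors.
Proof. Two summands, induction on `M`.  `M = 0`: `Loc.add` (`UGe u c (lead f)` means `c ≤ wt u (ex f)` for `f ≠ 0`).  `M + 1`: `π l (f + g) = π l f + π l g`, so the difference is `∑ l (ap M (π l f + π l g) - ap M (π l f) - ap M (π l g)) ^ p * om l`; if
both `π l f`, `π l g` are `0` the term is `0`; otherwise let `c_l` be the smaller one of the minimal weights of `ap M (π l f)`, `ap M (π l g)` (of those which are not `0`); `c ≤ p c_l + wt u (exl l)` by D3; by induction the term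
has weights `≥ p (c_l + p ^ M δ) + wt u (exl l) ≥ c + p ^ (M+1) δ`.
Finite sums: induction over a `Finset`; the partial sums `S` have `Abs V M` and `UGe u c (ap M S)` (because the error is `UGe u (c + p ^ M δ)`). -/
def S_E3 : Prop :=
  ∀ (p : ℕ) [Fact p.Prime] (k K κ : Type) [Field k] [CharP k p] [PerfectRing k p] [Field K]
    [Algebra k K] [Field κ] [Algebra k κ] (r s : ℕ) (x : Fin r → K) (y : Fin s → K) (ex : K → Fin r → ℤ) (ac : K → κ)
    (π : Ix p r s → K → K) (ρ : (Fin s → Fin p) → κ → κ),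
    FA k p x y ex ac π ρ → ∀ (Γ' : Type) [AddCommGroup Γ'] [LinearOrder Γ'] [IsOrderedAddMonoid Γ'] (u : Fin r → Γ')
    (V : Submodule k K) (δ : Γ'), Loc y ex ac π V u δ →
    ∀ M (ι : Type) [Fintype ι] (h : ι → K), (∀ i, Abs π (V : Set K) M (h i)) →
    ∀ c, (∀ i, UGe u c (ap y ex ac π M (h i))) →
    UGe u (c + p ^ M • δ) (ap y ex ac π M (∑ i, h i) - ∑ i, ap y ex ac π M (h i))

/-- [F2C E4] (about 200 lines) Uses D2, D3, D4, D5, E3. Multiplicativity up to errors.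
Proof. Induction on `M` for all `f, g, θ, c, c'`.  `M = 0`: the difference is `0` (`ex`, `ac` are multiplicative, `ex (mon x y θ) = exl θ`, `ac (mon x y θ) = monY ȳ θ.2`; trivial if `f = 0` or `g = 0`).
`M + 1`: by D4 (a) `π l'' (f g mon θ) = ∑_{cr l l' θ = l''} h_{l,l'}`, `h_{l,l'} = π l f * π l' g * mon (cq l l' θ)`, and by D4 (b) `ap (M+1) f * ap (M+1) g * om θ = ∑_{l,l'} (ap M (π l f) * ap M (π l' g) * om (cq l l' θ)) ^ p * om (cr l l' θ)`.  So the difference is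
`∑_{l''} (ap M (∑_{(l,l') ↦ l''} h_{l,l'}) - ∑_{(l,l') ↦ l''} ap M (π l f) * ap M (π l' g) * om (cq l l' θ)) ^ p * om l''`.  Fix `l''`.  Only pairs with `π l f ≠ 0 ≠ π l' g` matter; if there is none the term is `0`.  Let `c_l`, `c'_l'` be the minimal weights of
`ap M (π l f)`, `ap M (π l' g)` and `C` the minimum of the `c_l + c'_l' + wt u (exl (cq l l' θ))` over these pairs.  By induction `ap M h_{l,l'}` is `ap M (π l f) * ap M (π l' g) * om (cq ..)` up to `UGe u (C + p ^ M δ)`, so `UGe u C (ap M h_{l,l'})`, and by E3 (the `h_{l,l'}` have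
`Abs (prodSp) M` by D4) the bracket is `UGe u (C + p ^ M δ)`.  Finally, for the pair where `C` is attained, `p C + wt u (exl l'') = (p c_l + wt u (exl l)) + (p c'_l' + wt u (exl l')) + wt u (exl θ) ≥ c + c' + wt u (exl θ)` (D3, and `exl l + exl l' + exl θ = p exl (cq) + exl (cr)`), so
`p (C + p ^ M δ) + wt u (exl l'') ≥ c + c' + wt u (exl θ) + p ^ (M+1) δ`. -/
def S_E4 : Prop :=
  ∀ (p : ℕ) [Fact p.Prime] (k K κ : Type) [Field k] [CharP k p] [PerfectRing k p] [Field K]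
    [Algebra k K] [Field κ] [Algebra k κ] (r s : ℕ) (x : Fin r → K) (y : Fin s → K) (ex : K → Fin r → ℤ) (ac : K → κ)
    (π : Ix p r s → K → K) (ρ : (Fin s → Fin p) → κ → κ),
    FA k p x y ex ac π ρ → ∀ (Γ' : Type) [AddCommGroup Γ'] [LinearOrder Γ'] [IsOrderedAddMonoid Γ'] (u : Fin r → Γ')
    (V0 : Submodule k K) (δ : Γ'), FiniteDimensional k V0 → (∀ l, ∀ f ∈ V0, π l f ∈ V0) →
    Loc y ex ac π (prodSp x y V0) u δ →
    ∀ M f g (θ : Ix 2 r s), Abs π (V0 : Set K) M f → Abs π (V0 : Set K) M g →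
    ∀ c c', UGe u c (ap y ex ac π M f) → UGe u c' (ap y ex ac π M g) →
    UGe u (c + c' + wt u (exl θ) + p ^ M • δ)
      (ap y ex ac π M (f * g * mon x y θ) - ap y ex ac π M f * ap y ex ac π M g * om y ac θ)

/-! ## F. The valuation of a good weight -/

/-- [F2C F1] (about 250 lines) Uses D1-D5, E2, E3, E4. The valuation of a good weight.
Proof. Let `R` be the set of all `f` with `Abs V0 M f` for some `M` (then for all larger ones, by stability); it contains all `aeval t q` and `1`.  `V0 ≤ prodSp x y V0` (D4), so E2 applies to `f ∈ R`, `f ≠ 0`: there is one `ν f`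
with `IsMinW u (ap M f) (ν f)` whenever `Abs V0 M f` (existence: D3; independence of `M`: E2 (b) and uniqueness).
(1) If `f, g ∈ R` are nonzero, `Abs V0 M f`, `Abs V0 M g`, then `IsMinW u (ap M (f g)) (ν f + ν g)`: E4 with `θ = 0` (`mon 0 = 1`, `om 0 = 1`), D5 (Gauss, and a perturbation by higher weights).  So if `f g = f' g'` with all four in `R` and nonzero then
`ν f + ν g = ν f' + ν g'` (common `M`).  (2) If `f, g, f + g ∈ R` are nonzero then `ν (f+g) ≥ min (ν f) (ν g)`: E3 with two summands.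
For `f ≠ 0` choose (`FracGen`) `a, b` in `k[t]`, nonzero, with `f b = a`, and put `w f = ν a - ν b`, `w 0 = 0`.  By (1) this does not depend on the choice (`a b' = a' b`), and `w f = ν f` for `f ∈ R` (`f b = a * 1`, `ν 1 = 0`).  `w (f g) = w f + w g`: `(f g) (b b') = a a'`, where
`a a' ∈ k[t]` and `ν (a a') = ν a + ν a'` by (1).  Ultrametric inequality: common denominator and (2).  Trivial on constants: `c = c * 1 ∈ V0`, `ap 0 c = single 0 c` (`ex_alg`, `ac_alg`), so `ν c = 0`. -/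
def S_F1 : Prop :=
  ∀ (p : ℕ) [Fact p.Prime] (k K κ : Type) [Field k] [CharP k p] [PerfectRing k p] [Field K]
    [Algebra k K] [Field κ] [Algebra k κ] (r s : ℕ) (x : Fin r → K) (y : Fin s → K) (ex : K → Fin r → ℤ) (ac : K → κ)
    (π : Ix p r s → K → K) (ρ : (Fin s → Fin p) → κ → κ),
    FA k p x y ex ac π ρ → ∀ (n : ℕ) (t : Fin n → K) (h : K) (V0 : Submodule k K),
    FracGen k t → Nuc x y π t h V0 → ∀ (Γ' : Type) [AddCommGroup Γ'] [LinearOrder Γ'] [IsOrderedAddMonoid Γ'] (u : Fin r → Γ') (δ : Γ'),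
    Loc y ex ac π (prodSp x y V0) u δ →
    ∃ w : K → Γ', IsV w ∧ Triv k w ∧
      ∀ M f, f ≠ 0 → Abs π (V0 : Set K) M f → IsMinW u (ap y ex ac π M f) (w f)

/-- [F2C F2] (about 120 lines) Uses D3, D5. Orthogonality of the monomials and compatibility for `w`.
Proof. (a) `x i ∈ V0`, so `IsMinW u (ap 0 (x i)) (w (x i))`, `ap 0 (x i) = single (Pi.single i 1) 1`, so `w (x i) = u i`; the same for `y j`.  (b) Let first `f ≠ 0` with `Abs V0 (M+1) f`: then `Abs V0 M (π l f)`, and D3 gives `w f ≤ p w (π l f) + wt u (exl l)`, and `wt u (exl l) = w (mon x y l)`.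
For a general `f` write `f b = a`, `a, b ∈ k[t]`, `b ≠ 0`; `f = a b ^ (p-1) / b ^ p`, `π l f = π l (a b ^ (p-1)) / b` and `a b ^ (p-1) ∈ k[t]`.
(c) `h ∈ V0`, `ex h = 0`, so `w h = 0`; `φ f = π ix0 (h f)` and (b) for `l = ix0`. -/
def S_F2 : Prop :=
  ∀ (p : ℕ) [Fact p.Prime] (k K κ : Type) [Field k] [CharP k p] [PerfectRing k p] [Field K]
    [Algebra k K] [Field κ] [Algebra k κ] (r s : ℕ) (x : Fin r → K) (y : Fin s → K) (ex : K → Fin r → ℤ) (ac : K → κ)
    (π : Ix p r s → K → K) (ρ : (Fin s → Fin p) → κ → κ),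
    FA k p x y ex ac π ρ → ∀ (n : ℕ) (t : Fin n → K) (h : K) (V0 : Submodule k K),
    FracGen k t → Nuc x y π t h V0 → ∀ (Γ' : Type) [AddCommGroup Γ'] [LinearOrder Γ'] [IsOrderedAddMonoid Γ'] (u : Fin r → Γ') (w : K → Γ'),
    IsV w → Triv k w → (∀ M f, f ≠ 0 → Abs π (V0 : Set K) M f → IsMinW u (ap y ex ac π M f) (w f)) →
    (∀ i, w (x i) = u i) ∧ (∀ j, w (y j) = 0) ∧
    (∀ l f, π l f ≠ 0 → w f ≤ p • w (π l f) + w (mon x y l)) ∧
    (∀ φ : K → K, h ≠ 0 → ex h = 0 → (∀ f, φ f = π ix0 (h * f)) → Compat p φ w)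

/-- [F2C F3] (about 60 lines) Uses D0, D4, E1, F1, F2, C9. THE CELL OF A FRAME (internal form).
Proof. D0 gives `FA`; `prodSp x y V0` is finite dimensional and stable (D4), E1 gives `Loc`, F1 gives `w`, F2 its compatibility. -/
def S_F3 : Prop :=
  ∀ (p : ℕ) [Fact p.Prime] (k K κ : Type) [Field k] [CharP k p] [PerfectRing k p] [Field K]
    [Algebra k K] [Field κ] [Algebra k κ] (Γ : Type) [AddCommGroup Γ] [LinearOrder Γ] [IsOrderedAddMonoid Γ]
    (v : K → Γ) (r s : ℕ) (x : Fin r → K) (y : Fin s → K) (ex : K → Fin r → ℤ) (ac : K → κ)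
    (π : Ix p r s → K → K) (ρ : (Fin s → Fin p) → κ → κ),
    Frame k p v x y ex ac π ρ → ∀ (n : ℕ) (t : Fin n → K) (h : K) (V0 : Submodule k K),
    FracGen k t → Nuc x y π t h V0 → h ≠ 0 → v h = 0 →
    ∀ φ : K → K, (∀ f, φ f = π ix0 (h * f)) →
    (Cmp v x ex π (prodSp x y V0 : Set K)).Finite ∧
    ∀ (Γ' : Type) [AddCommGroup Γ'] [LinearOrder Γ'] [IsOrderedAddMonoid Γ'] [Nontrivial Γ'] (u : Fin r → Γ'), Good (Cmp v x ex π (prodSp x y V0 : Set K)) u →
      ∃ w : K → Γ', At k p φ y ex ac π V0 u w ∧ (∀ i, w (x i) = u i) ∧ (∀ j, w (y j) = 0)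

/-- [F2C F4] (about 80 lines) Uses A3. Existence of a nucleus.
Proof. `t'` = the family consisting of `t`, the `x i`, the `y j` and `h` (`Fin n'` with `n' = n + r + s + 1`, or the reindexing of a `Sum` type).  `FracGen k t'` and `k[t] ⊆ k[t']` by renaming variables.
Apply A3 to `t'` and `E = {1, h} ∪ range x ∪ range y`; the `π l` are additive and `p⁻¹`-linear (from `Frame.pb`). -/
def S_F4 : Prop :=
  ∀ (p : ℕ) [Fact p.Prime] (k K κ : Type) [Field k] [CharP k p] [PerfectRing k p] [Field K]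
    [Algebra k K] [Field κ] [Algebra k κ] (Γ : Type) [AddCommGroup Γ] [LinearOrder Γ] [IsOrderedAddMonoid Γ]
    (v : K → Γ) (r s : ℕ) (x : Fin r → K) (y : Fin s → K) (ex : K → Fin r → ℤ) (ac : K → κ)
    (π : Ix p r s → K → K) (ρ : (Fin s → Fin p) → κ → κ),
    Frame k p v x y ex ac π ρ → ∀ (n : ℕ) (t : Fin n → K) (h : K), FracGen k t →
    ∃ (n' : ℕ) (t' : Fin n' → K) (V0 : Submodule k K),
      (∀ q : MvPolynomial (Fin n) k, ∃ q' : MvPolynomial (Fin n') k, aeval t' q' = aeval t q) ∧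
      FracGen k t' ∧ Nuc x y π t' h V0

/-- [F2C F5] (about 60 lines) Uses D3. Uniqueness, and the frame valuation itself.
Proof. (a) Both valuations agree on all nonzero `aeval t q` (absorption and uniqueness of the minimum), so on all quotients (`FracGen`).
(b) `IsMinW (v ∘ x) (ap M f) (v f)` by induction on `M`: `M = 0`: `ap 0 f = single (ex f) (ac f)` and `v f = wt (ex f)`.  `M + 1`: D3 and the fact that `v f` is the minimum of the
`p v (π l f) + v (mon x y l)`, `π l f ≠ 0` (`Frame.orth` and the ultrametric inequality for `f = ∑ (π l f) ^ p mon l`); `v (mon x y l) = wt (exl l)`. Here no absorption is needed. -/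
def S_F5 : Prop :=
  ∀ (p : ℕ) [Fact p.Prime] (k K κ : Type) [Field k] [CharP k p] [PerfectRing k p] [Field K]
    [Algebra k K] [Field κ] [Algebra k κ] (r s : ℕ) (x : Fin r → K) (y : Fin s → K) (ex : K → Fin r → ℤ) (ac : K → κ)
    (π : Ix p r s → K → K) (ρ : (Fin s → Fin p) → κ → κ),
    FA k p x y ex ac π ρ → ∀ (n : ℕ) (t : Fin n → K) (h : K) (V0 : Submodule k K),
    FracGen k t → Nuc x y π t h V0 → ∀ φ : K → K, ∀ (Γ' : Type) [AddCommGroup Γ'] [LinearOrder Γ'] [IsOrderedAddMonoid Γ'],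
    (∀ (u : Fin r → Γ') (w w' : K → Γ'),
      At k p φ y ex ac π V0 u w → At k p φ y ex ac π V0 u w' → w = w') ∧
    (∀ v : K → Γ', Frame k p v x y ex ac π ρ → ∀ M f, f ≠ 0 →
      IsMinW (fun i => v (x i)) (ap y ex ac π M f) (v f))

/-! ## U. Uniformity -/

/-- [F2C U1] (about 60 lines) Orthogonality of the monomials at any compatible valuation with `w h = 0`.
Proof. `π l f = π ix0 (f / mon l)`: by `pb.repr`, `f / mon l = ∑_{l'} (π l' f) ^ p (mon l' / mon l)`, and `mon l' / mon l` is a `p`-th power times `mon l''`, `l'' = l' - l mod p`, so by `pb.uniq` only `l' = l` contributes.  So `π l f = φ (f / (h mon l))`, and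
compatibility gives `w f - w h - w (mon l) ≤ p w (π l f)` (for `π l f ≠ 0`; then `f ≠ 0`). -/
def S_U1 : Prop :=
  ∀ (p : ℕ) [Fact p.Prime] (k K κ : Type) [Field k] [CharP k p] [PerfectRing k p] [Field K]
    [Algebra k K] [Field κ] [Algebra k κ] (r s : ℕ) (x : Fin r → K) (y : Fin s → K) (ex : K → Fin r → ℤ) (ac : K → κ)
    (π : Ix p r s → K → K) (ρ : (Fin s → Fin p) → κ → κ),
    FA k p x y ex ac π ρ → ∀ (h : K) (φ : K → K), h ≠ 0 → (∀ f, φ f = π ix0 (h * f)) →
    ∀ (Γ' : Type) [AddCommGroup Γ'] [LinearOrder Γ'] [IsOrderedAddMonoid Γ'] (w : K → Γ'), IsV w → Compat p φ w → w h = 0 →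
    ∀ l f, π l f ≠ 0 → w f ≤ p • w (π l f) + w (mon x y l)

/-- [F2C U2] (about 120 lines) Such a valuation is trivial on `k(y)`.
Proof. For `P ≠ 0` in `k[Y]` write `P = ∑_j P_j ^ p Y ^ j`, `j ∈ [0,p)^s` (`k` is perfect), `deg P_j < deg P` if `deg P > 0`; some `P_j ≠ 0`.  Then `aeval y P = ∑_j (aeval y P_j) ^ p * mon x y (0, j)`, so `π (0, j) (aeval y P) = aeval y P_j` (`pb.uniq`).  By strong induction on the total
degree: `aeval y P_j ≠ 0` with `w = 0` for `P_j ≠ 0`, so `aeval y P ≠ 0`, `w (aeval y P) ≥ 0` (ultrametric, `w (y j) = 0`) and `≤ p w (aeval y P_j) + 0 = 0` by orthogonality.  Constants: `Triv`. -/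
def S_U2 : Prop :=
  ∀ (p : ℕ) [Fact p.Prime] (k K κ : Type) [Field k] [CharP k p] [PerfectRing k p] [Field K]
    [Algebra k K] [Field κ] [Algebra k κ] (r s : ℕ) (x : Fin r → K) (y : Fin s → K) (ex : K → Fin r → ℤ) (ac : K → κ)
    (π : Ix p r s → K → K) (ρ : (Fin s → Fin p) → κ → κ),
    FA k p x y ex ac π ρ → ∀ (Γ' : Type) [AddCommGroup Γ'] [LinearOrder Γ'] [IsOrderedAddMonoid Γ'] (w : K → Γ'), IsV w → Triv k w →
    (∀ l f, π l f ≠ 0 → w f ≤ p • w (π l f) + w (mon x y l)) → (∀ j, w (y j) = 0) →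
    ∀ P : MvPolynomial (Fin s) k, P ≠ 0 → aeval y P ≠ 0 ∧ w (aeval y P) = 0

/-- [F2C U3] (about 150 lines) Uses B1, B4, C7. The residue field is algebraic over `k(ȳ)`; its transcendence degree is `s`.
Proof. C7: `κ` is finitely generated, `FracGen k t'`.  B4 gives a `p`-basis of `κ` with `p ^ d`, `d = trdeg`, elements; `rb` has `p ^ s` elements, so `d = s` (B1 twice).
`ȳ j = ac (y j)` is algebraically independent: as in U2, `P(ȳ) = ∑_j P_j(ȳ) ^ p ȳ ^ j = 0` gives `P_j(ȳ) = 0` for all `j` (`rb.uniq`), induction on the degree.  An algebraically independent family with `trdeg` elements is a transcendence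
basis (`Algebra.trdeg` finite), so every `c ∈ κ` is algebraic over `k(ȳ)`; clear denominators and divide by a power of `c ≠ 0`: a relation `∑ i ∈ range (d+1), a_i(ȳ) c ^ i = 0` with `a_0 ≠ 0`.
For `s = 0`: `κ` is algebraic over `k`. -/
def S_U3 : Prop :=
  ∀ (p : ℕ) [Fact p.Prime] (k K κ : Type) [Field k] [CharP k p] [PerfectRing k p] [Field K]
    [Algebra k K] [Field κ] [Algebra k κ] (Γ : Type) [AddCommGroup Γ] [LinearOrder Γ] [IsOrderedAddMonoid Γ]
    (v : K → Γ) (r s : ℕ) (x : Fin r → K) (y : Fin s → K) (ex : K → Fin r → ℤ) (ac : K → κ)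
    (π : Ix p r s → K → K) (ρ : (Fin s → Fin p) → κ → κ),
    Frame k p v x y ex ac π ρ → ∀ (n : ℕ) (t : Fin n → K), FracGen k t →
    Algebra.trdeg k κ = s ∧
    (∀ P : MvPolynomial (Fin s) k, P ≠ 0 → aeval (fun j => ac (y j)) P ≠ 0) ∧
    ∀ c : κ, c ≠ 0 → ∃ (d : ℕ) (a : ℕ → MvPolynomial (Fin s) k), a 0 ≠ 0 ∧
      ∑ i ∈ Finset.range (d + 1), aeval (fun j => ac (y j)) (a i) * c ^ i = 0

/-- [F2C U4] (about 200 lines) Uses U1, U2, U3. RESIDUES PERSIST: finitely many conditions on `w` determine which polynomials in the `f i` have positive value.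
Proof. Let `res z = lc v ac 0 z`, additive and multiplicative on `{z | Ge v 0 z}` (a ring) with `res z = 0` iff `Gt v 0 z`.  `Ev : MvPolynomial (Fin s ⊕ Fin m) k →ₐ κ`, `Y j ↦ ȳ j`, `F i ↦ res (f i)`, and `ev : MvPolynomial (Fin s ⊕ Fin m) k →ₐ K`, `Y j ↦ y j`, `F i ↦ f i`; so
`Ev Q = res (ev Q)`.  The kernel of `Ev` is generated by finitely many `Q_1, .., Q_N` (noetherian).  `G1` = the nonzero ones of the `ev Q_i` and of the `f i` with `v (f i) > 0`; `G0` = `h`, the `y j` and the `f i` with `f i ≠ 0`, `v (f i) = 0`.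
Let `w` satisfy the conditions; then U1, U2 apply, and `Ge w 0 (ev Q)` for all `Q` (a sum of products).  If `Ev Q = 0` then `Q = ∑ A_i Q_i` and `Gt w 0 (ev Q)`.  Conversely let `c = Ev Q ≠ 0`; by U3 there is a relation `∑ a_i(ȳ) c ^ i = 0`, `a_0 ≠ 0`; `S = ∑ a_i(Y) Q ^ i` is in
the kernel, so `Gt w 0 (ev S)`; if `Gt w 0 (ev Q)` then `a_0(y) = ev S - ∑_{i ≥ 1} a_i(y) (ev Q) ^ i` is `Gt w 0`, but `a_0(y) ≠ 0` and `w (a_0(y)) = 0` by U2: contradiction. -/
def S_U4 : Prop :=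
  ∀ (p : ℕ) [Fact p.Prime] (k K κ : Type) [Field k] [CharP k p] [PerfectRing k p] [Field K]
    [Algebra k K] [Field κ] [Algebra k κ] (Γ : Type) [AddCommGroup Γ] [LinearOrder Γ] [IsOrderedAddMonoid Γ]
    (v : K → Γ) (r s : ℕ) (x : Fin r → K) (y : Fin s → K) (ex : K → Fin r → ℤ) (ac : K → κ)
    (π : Ix p r s → K → K) (ρ : (Fin s → Fin p) → κ → κ),
    Frame k p v x y ex ac π ρ → ∀ (n : ℕ) (t : Fin n → K), FracGen k t →
    ∀ (h : K) (φ : K → K), h ≠ 0 → v h = 0 → (∀ f, φ f = π ix0 (h * f)) →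
    ∀ (m : ℕ) (f : Fin m → K), (∀ i, Ge v 0 (f i)) →
    ∃ G0 G1 : Set K, G0.Finite ∧ G1.Finite ∧ (∀ g ∈ G0, g ≠ 0 ∧ v g = 0) ∧
      (∀ g ∈ G1, g ≠ 0 ∧ 0 < v g) ∧
      ∀ (Γ' : Type) [AddCommGroup Γ'] [LinearOrder Γ'] [IsOrderedAddMonoid Γ'] (w : K → Γ'), IsV w → Triv k w → Compat p φ w → (∀ g ∈ G0, w g = 0) →
        (∀ g ∈ G1, 0 < w g) → ∀ P : MvPolynomial (Fin m) k,
        Ge w 0 (aeval f P) ∧ (Gt w 0 (aeval f P) ↔ Gt v 0 (aeval f P))

/-- [F2C U5] (about 120 lines) Uses C0. Adapted generators of a finite dimensional space.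
Proof. `V` has finitely many values (C0); for a value `γ` let `V_γ = {f ∈ V | Ge v γ f}` and `V'_γ = {f ∈ V | Gt v γ f}` (subspaces) and let `B_γ` be a finite subset of `V_γ` which spans a complement of `V'_γ` in `V_γ`; all elements of `B_γ` are nonzero of value `γ`.
By downward induction on the (finitely many) values, `V_γ` is spanned by the `B_γ'`, `γ' ≥ γ`.  The family of all `b ∈ B_γ` (all `γ`): `e = ex b`, `g = b * ∏ x_j ^ (- e j)`, `v g = 0`.  A nonzero `f ∈ V` is in `V_γ` with `γ = v f`, so a combination of elements `b` of values `≥ v f`; `v b = v f` iff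
`ex b = ex f`. -/
def S_U5 : Prop :=
  ∀ (k K : Type) [Field k] [Field K] [Algebra k K] (Γ : Type) [AddCommGroup Γ] [LinearOrder Γ] [IsOrderedAddMonoid Γ]
    (v : K → Γ), IsV v → Triv k v → ∀ (r : ℕ) (x : Fin r → K) (ex : K → Fin r → ℤ),
    IsVB v x ex → ∀ V : Submodule k K, FiniteDimensional k V →
    ∃ (m : ℕ) (g : Fin m → K) (e : Fin m → Fin r → ℤ), (∀ i, g i ≠ 0 ∧ v (g i) = 0) ∧
      ∀ f ∈ V, f ≠ 0 → ∃ c : Fin m → k,
        f = ∑ i, algebraMap k K (c i) * g i * ∏ j, x j ^ (e i j) ∧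
        ∀ i, c i ≠ 0 → e i = ex f ∨
          wt (fun j => v (x j)) (ex f) < wt (fun j => v (x j)) (e i)

/-- [F2C U6] (about 130 lines) Uses U4, U5. The values of `w` on a finite dimensional space.
Proof. Take `g`, `e` from U5 and `G0`, `G1` from U4 for the family `g`; add to `G1` all `∏ x_j ^ ((e i' - e i) j)` with `wt_v (e i) < wt_v (e i')`.  Let `f ∈ V`, `f ≠ 0`, `f = ∑ c_i g_i x ^ (e i)`.  `z = ∑_{e i = ex f} c_i g_i`: `z x ^ (ex f)` is `f` minus terms of larger value, so `z ≠ 0`, `v z = 0`, so by U4 (a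
linear polynomial in the `g i`) `w z = 0` (not `Gt w 0`, and `Ge w 0`).  The other terms with `c_i ≠ 0` have `w`-value `≥ wt (e i)` (`w ∘ x` weights, `w (g i) = 0` or at least `Ge w 0`), larger than `wt (ex f)` (take an index `i'` with `c_{i'} ≠ 0`, `e i' = ex f`, it exists because `z ≠ 0`).  So `w f = wt (w ∘ x) (ex f)`. -/
def S_U6 : Prop :=
  ∀ (p : ℕ) [Fact p.Prime] (k K κ : Type) [Field k] [CharP k p] [PerfectRing k p] [Field K]
    [Algebra k K] [Field κ] [Algebra k κ] (Γ : Type) [AddCommGroup Γ] [LinearOrder Γ] [IsOrderedAddMonoid Γ]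
    (v : K → Γ) (r s : ℕ) (x : Fin r → K) (y : Fin s → K) (ex : K → Fin r → ℤ) (ac : K → κ)
    (π : Ix p r s → K → K) (ρ : (Fin s → Fin p) → κ → κ),
    Frame k p v x y ex ac π ρ → ∀ (n : ℕ) (t : Fin n → K), FracGen k t →
    ∀ (h : K) (φ : K → K), h ≠ 0 → v h = 0 → (∀ f, φ f = π ix0 (h * f)) →
    ∀ V : Submodule k K, FiniteDimensional k V →
    ∃ G0 G1 : Set K, G0.Finite ∧ G1.Finite ∧ (∀ g ∈ G0, g ≠ 0 ∧ v g = 0) ∧
      (∀ g ∈ G1, g ≠ 0 ∧ 0 < v g) ∧
      ∀ (Γ' : Type) [AddCommGroup Γ'] [LinearOrder Γ'] [IsOrderedAddMonoid Γ'] (w : K → Γ'), IsV w → Triv k w → Compat p φ w → (∀ g ∈ G0, w g = 0) →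
        (∀ g ∈ G1, 0 < w g) → ∀ f ∈ V, f ≠ 0 → w f = wt (fun i => w (x i)) (ex f)

/-- [F2C U7] (about 120 lines) Uses D0, D3, D4, E1, U1, U6. THE UNIFORM LEMMA.
Proof. U6 for the space `V0`; add to `G0`: `h`, the `y j`; add to `G1`: the monomials `∏ x_i ^ (n i)`, `n ∈ Cmp v x ex π (prodSp x y V0)` (finite by E1, D4; of positive value by definition of `Cmp`).  Let `w` satisfy the conditions and `u = w ∘ x`.  `Good`: clear, `w (x ^ n) = wt u n`.  `IsMinW u (ap M f) (w f)` for `Abs V0 M f`, `f ≠ 0`,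
by induction on `M`: `M = 0`: `f ∈ V0`, `w f = wt u (ex f)`.  `M + 1`: the `π l f` have `Abs V0 M`, and `w f` is the minimum of the `p w (π l f) + w (mon x y l)`, `π l f ≠ 0` (U1 and the ultrametric inequality); `w (mon x y l) = wt u (exl l)`; D3. -/
def S_U7 : Prop :=
  ∀ (p : ℕ) [Fact p.Prime] (k K κ : Type) [Field k] [CharP k p] [PerfectRing k p] [Field K]
    [Algebra k K] [Field κ] [Algebra k κ] (Γ : Type) [AddCommGroup Γ] [LinearOrder Γ] [IsOrderedAddMonoid Γ]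
    (v : K → Γ) (r s : ℕ) (x : Fin r → K) (y : Fin s → K) (ex : K → Fin r → ℤ) (ac : K → κ)
    (π : Ix p r s → K → K) (ρ : (Fin s → Fin p) → κ → κ),
    Frame k p v x y ex ac π ρ → ∀ (n : ℕ) (t : Fin n → K) (h : K) (V0 : Submodule k K),
    FracGen k t → Nuc x y π t h V0 → h ≠ 0 → v h = 0 →
    ∀ φ : K → K, (∀ f, φ f = π ix0 (h * f)) →
    ∃ G0 G1 : Set K, G0.Finite ∧ G1.Finite ∧ (∀ g ∈ G0, g ≠ 0 ∧ v g = 0) ∧
      (∀ g ∈ G1, g ≠ 0 ∧ 0 < v g) ∧
      ∀ (Γ' : Type) [AddCommGroup Γ'] [LinearOrder Γ'] [IsOrderedAddMonoid Γ'] (w : K → Γ'), IsV w → Triv k w → Compat p φ w → (∀ g ∈ G0, w g = 0) →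
        (∀ g ∈ G1, 0 < w g) →
        Good (Cmp v x ex π (prodSp x y V0 : Set K)) (fun i => w (x i)) ∧
        (∀ j, w (y j) = 0) ∧ At k p φ y ex ac π V0 (fun i => w (x i)) w

/-! ## R. Residues -/

/-- [F2C R1] (about 150 lines) The toric extension of `φb`.
Proof. On `A = AddMonoidAlgebra κ (Fin r → ℤ)` let `Φ0 P` have the coefficient `φb (P.coeff (p m))` at `m` (`φb 0 = 0` because `φb` is additive).  `Φ0` is additive and `Φ0 (Q ^ p P) = Q Φ0 P`: for `Q = single m' c`: `Q ^ p = single (p m') (c ^ p)`; then additivity in `Q` (`(Q + Q')^p = Q^p + Q'^p`).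
On `L = FractionRing A` put `Φ (P / Q) = Φ0 (P Q ^ (p-1)) / Q`; well defined: `P / Q = P' / Q'` implies `Q' Φ0 (P Q^(p-1)) = Φ0 (Q'^p P Q^(p-1)) = Φ0 (P' Q'^(p-1) Q^p) = Q Φ0 (P' Q'^(p-1))`.  Additive: common denominators. `Φ (z ^ p w) = z Φ w`: clear. -/
def S_R1 : Prop :=
  ∀ (p : ℕ) [Fact p.Prime] (κ : Type) [Field κ] [CharP κ p] (r : ℕ) (φb : κ → κ), IsPinv p φb →
    ∃ Φ : FractionRing (AddMonoidAlgebra κ (Fin r → ℤ)) →
        FractionRing (AddMonoidAlgebra κ (Fin r → ℤ)),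
      IsPinv p Φ ∧
      (∀ (m : Fin r → ℤ) (c : κ),
        Φ (algebraMap _ _ (AddMonoidAlgebra.single ((p : ℤ) • m) c)) =
          algebraMap _ _ (AddMonoidAlgebra.single m (φb c))) ∧
      (∀ (m : Fin r → ℤ) (c : κ), (¬ ∃ m', m = (p : ℤ) • m') →
        Φ (algebraMap _ _ (AddMonoidAlgebra.single m c)) = 0)

/-- [F2C R2] (about 250 lines) Uses D1-D5, E1-E4, F2, F5. The leading forms at a good weight.
Proof. As in F1: for nonzero `f` with `Abs V0 M f` put `in f = part u (w f) (ap M f)`, nonzero, independent of `M` (E2).  (1) `in f * in g = in f' * in g'` if `f g = f' g'` and all four have `Abs V0 M` for some `M`: by E4 with `θ = 0`, `ap M (f g) = ap M f * ap M g + E`, `UGe u (w f + w g + p^M δ) E`, so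
`part u (w f + w g) (ap M (f g)) = in f * in g` (D5).  (2) if `a, b, a + b ∈ k[t]` and `Ge w γ a`, `Ge w γ b` then `part u γ (ap M (a + b)) = part u γ (ap M a) + part u γ (ap M b)` for `M` large (E3; the error has weights `≥ γ + p^M δ`).
For `f ≠ 0` let `AC f = in a / in b` for `f b = a`, `a, b ∈ k[t]` nonzero; well defined by (1); `AC 0 = 0`.  Multiplicative: `in (a a') = in a * in a'` for `a, a' ∈ k[t]`.  `AC f = in f` if `Abs V0 M f`: `f b = a * 1`, `in 1 = 1`.  Additivity of `lc w AC γ`: common denominator `b`, and (2) at the level `γ + w b`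
(`lc w AC γ f = part u (γ + w b) (ap M a) / in b` for `Ge w γ f`, `f b = a`).  Values on `V0` (`M = 0`): `in f = single (ex f) (ac f)`. -/
def S_R2 : Prop :=
  ∀ (p : ℕ) [Fact p.Prime] (k K κ : Type) [Field k] [CharP k p] [PerfectRing k p] [Field K]
    [Algebra k K] [Field κ] [Algebra k κ] (Γ : Type) [AddCommGroup Γ] [LinearOrder Γ] [IsOrderedAddMonoid Γ]
    (v : K → Γ) (r s : ℕ) (x : Fin r → K) (y : Fin s → K) (ex : K → Fin r → ℤ) (ac : K → κ)
    (π : Ix p r s → K → K) (ρ : (Fin s → Fin p) → κ → κ),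
    Frame k p v x y ex ac π ρ → ∀ (n : ℕ) (t : Fin n → K) (h : K) (V0 : Submodule k K),
    FracGen k t → Nuc x y π t h V0 → ∀ (φ : K → K) (Γ' : Type) [AddCommGroup Γ'] [LinearOrder Γ'] [IsOrderedAddMonoid Γ'] [Nontrivial Γ'] (u : Fin r → Γ') (w : K → Γ'),
    Good (Cmp v x ex π (prodSp x y V0 : Set K)) u → At k p φ y ex ac π V0 u w →
    ∃ AC : K → FractionRing (AddMonoidAlgebra κ (Fin r → ℤ)), AC 0 = 0 ∧
      (∀ f, f ≠ 0 → AC f ≠ 0) ∧ (∀ f g, AC (f * g) = AC f * AC g) ∧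
      (∀ γ f g, Ge w γ f → Ge w γ g → lc w AC γ (f + g) = lc w AC γ f + lc w AC γ g) ∧
      (∀ M f, f ≠ 0 → Abs π (V0 : Set K) M f →
        AC f = algebraMap _ _ (part u (w f) (ap y ex ac π M f))) ∧
      (∀ f ∈ V0, AC f = algebraMap _ _ (AddMonoidAlgebra.single (ex f) (ac f)))

/-- [F2C R3] (about 200 lines) Uses D1-D5, E1-E4, F2, R1, R2. `φ` on the leading forms.
Proof. Let first `f = aeval t q`.  `h f ∈ k[t]` (`Nuc.h_t`), so for `M` large `Abs V0 (M+1) (h f)`, and `φ f = π ix0 (h f)` has `Abs V0 M`.  By D2 (a) with `a = 0` and `rb.uniq`: `(ap M (φ f)).coeff m = ρ j0 ((ap (M+1) (h f)).coeff (p m))`.  By E4 (`θ = 0`) `ap (M+1) (h f) = ap (M+1) h * ap (M+1) f + E`, `UGe u (w f + p^(M+1) δ) E`, and the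
part of weight `0` of `ap (M+1) h` is `single 0 (ac h)` (E2, `h ∈ V0`, `ex h = 0`).  So for `Ge w (p γ) f`: `part u γ (ap M (φ f))` has the coefficient `ρ j0 (ac h * c_{pm}) = φb (c_{pm})` at `m`, where `c` = the coefficients of `part u (p γ) (ap (M+1) f)`: this is `Φ`.
For a general `f` with `Ge w (p γ) f`: `f b = a`, `f b ^ p = a b ^ (p-1)`, so `φ f = φ (a b ^ (p-1)) / b` and `lc w AC γ (φ f) = lc w AC (γ + w b) (φ (a b^(p-1))) / AC b = Φ (lc w AC (p (γ + w b)) (a b ^ (p-1))) / AC b = Φ (lc w AC (p γ) f * (AC b) ^ p) / AC b = Φ (lc w AC (p γ) f)`. -/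
def S_R3 : Prop :=
  ∀ (p : ℕ) [Fact p.Prime] (k K κ : Type) [Field k] [CharP k p] [PerfectRing k p] [Field K]
    [Algebra k K] [Field κ] [Algebra k κ] (Γ : Type) [AddCommGroup Γ] [LinearOrder Γ] [IsOrderedAddMonoid Γ]
    (v : K → Γ) (r s : ℕ) (x : Fin r → K) (y : Fin s → K) (ex : K → Fin r → ℤ) (ac : K → κ)
    (π : Ix p r s → K → K) (ρ : (Fin s → Fin p) → κ → κ),
    Frame k p v x y ex ac π ρ → ∀ (n : ℕ) (t : Fin n → K) (h : K) (V0 : Submodule k K),
    FracGen k t → Nuc x y π t h V0 → h ≠ 0 → v h = 0 →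
    ∀ (φ : K → K) (φb : κ → κ), (∀ f, φ f = π ix0 (h * f)) → (∀ c, φb c = ρ j0 (ac h * c)) →
    ∀ (Γ' : Type) [AddCommGroup Γ'] [LinearOrder Γ'] [IsOrderedAddMonoid Γ'] [Nontrivial Γ'] (u : Fin r → Γ') (w : K → Γ'),
    Good (Cmp v x ex π (prodSp x y V0 : Set K)) u → At k p φ y ex ac π V0 u w →
    ∀ AC : K → FractionRing (AddMonoidAlgebra κ (Fin r → ℤ)), AC 0 = 0 →
      (∀ f, f ≠ 0 → AC f ≠ 0) → (∀ f g, AC (f * g) = AC f * AC g) →
      (∀ γ f g, Ge w γ f → Ge w γ g → lc w AC γ (f + g) = lc w AC γ f + lc w AC γ g) →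
      (∀ M f, f ≠ 0 → Abs π (V0 : Set K) M f →
        AC f = algebraMap _ _ (part u (w f) (ap y ex ac π M f))) →
    ∀ Φ : FractionRing (AddMonoidAlgebra κ (Fin r → ℤ)) →
        FractionRing (AddMonoidAlgebra κ (Fin r → ℤ)),
      IsPinv p Φ →
      (∀ (m : Fin r → ℤ) (c : κ),
        Φ (algebraMap _ _ (AddMonoidAlgebra.single ((p : ℤ) • m) c)) =
          algebraMap _ _ (AddMonoidAlgebra.single m (φb c))) →
      (∀ (m : Fin r → ℤ) (c : κ), (¬ ∃ m', m = (p : ℤ) • m') →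
        Φ (algebraMap _ _ (AddMonoidAlgebra.single m c)) = 0) →
      ∀ γ f, Ge w (p • γ) f → Ge w γ (φ f) ∧ lc w AC γ (φ f) = Φ (lc w AC (p • γ) f)

/-- [F2C R4] (about 200 lines) Uses A3, C8, E2, F2, R2. All constants of `κ` are residues at `w`.
Proof. Let `κ'` be the set of all `z ∈ κ` which are `0` or of the form: `algebraMap (single 0 z) = AC f` for some `f ≠ 0` with `w f = 0`.  It is a subfield (products, quotients; sums by the additivity of `lc w AC 0`; `AC` is injective-free, `single 0` is a ring homomorphism) and contains `k` and `ȳ j = ac (y j)`.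
It contains `ac f` for all `0 ≠ f ∈ V0`: `f * ∏ x_i ^ (-(ex f) i)` has `w`-value `0` (`w f = wt u (ex f)` by the minimum property for `M = 0`, `w (x i) = u i`) and `AC` of it is `single (ex f) (ac f) * single (-(ex f)) 1 = single 0 (ac f)`.
CLAIM: if `f ≠ 0` and `Abs V0 M f` then `ac f ∈ κ'`: induction on `M`; step: C8 (`ac f` is a sum of terms `ac (π l f) ^ p * monY ȳ l.2`).  So `ac (aeval t q) ∈ κ'` for all `q`; every nonzero element of `κ` is `ac f` for some `f ≠ 0` (`IsAC.surj`), `f` is a quotient of two `aeval t q`, and `ac` is multiplicative. -/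
def S_R4 : Prop :=
  ∀ (p : ℕ) [Fact p.Prime] (k K κ : Type) [Field k] [CharP k p] [PerfectRing k p] [Field K]
    [Algebra k K] [Field κ] [Algebra k κ] (Γ : Type) [AddCommGroup Γ] [LinearOrder Γ] [IsOrderedAddMonoid Γ]
    (v : K → Γ) (r s : ℕ) (x : Fin r → K) (y : Fin s → K) (ex : K → Fin r → ℤ) (ac : K → κ)
    (π : Ix p r s → K → K) (ρ : (Fin s → Fin p) → κ → κ),
    Frame k p v x y ex ac π ρ → ∀ (n : ℕ) (t : Fin n → K) (h : K) (V0 : Submodule k K),
    FracGen k t → Nuc x y π t h V0 → ∀ (φ : K → K) (Γ' : Type) [AddCommGroup Γ'] [LinearOrder Γ'] [IsOrderedAddMonoid Γ'] (u : Fin r → Γ') (w : K → Γ'),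
    At k p φ y ex ac π V0 u w →
    ∀ AC : K → FractionRing (AddMonoidAlgebra κ (Fin r → ℤ)), AC 0 = 0 →
      (∀ f, f ≠ 0 → AC f ≠ 0) → (∀ f g, AC (f * g) = AC f * AC g) →
      (∀ γ f g, Ge w γ f → Ge w γ g → lc w AC γ (f + g) = lc w AC γ f + lc w AC γ g) →
      (∀ f ∈ V0, AC f = algebraMap _ _ (AddMonoidAlgebra.single (ex f) (ac f))) →
      ∀ z : κ, z ≠ 0 → ∃ f, f ≠ 0 ∧ w f = 0 ∧
        AC f = algebraMap _ _ (AddMonoidAlgebra.single (0 : Fin r → ℤ) z)

/-- [F2C R5] (about 200 lines) Uses E1-E4, F3, R1, R2, R3. THE CONSTANT TERM ARGUMENT.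
Proof. `u' = ∑ i, u i` is good (`wt` is additive in the weight, `ι` is not empty); let `w'` be the valuation at `u'` (F3), `AC'` from R2, `Φ` from R1 with `φb c = ρ j0 (ac h * c)`.  `f ≠ 0` (else `φ^N (f ^ 2) = 0`).  Let `M` with `Abs V0 M f`, `P = ap M f`.  For every exponent `m` of `P`: `wt (u i) m ≥ w i f ≥ 0` (`At.min`), so
`wt u' m = ∑ wt (u i) m ≥ 0`, with equality iff all `wt (u i) m = 0`.  Suppose that the only `n` with `wt (u i) n = 0` for all `i` is `n = 0`.  Then all exponents `m ≠ 0` of `P` have `wt u' m > 0`.  (1) If `P.coeff 0 = 0` then `w' f > 0` (`IsMinW u' P (w' f)`), `w' (f ^ 2) > 0`, and compatibility, `N` times, gives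
`0 < w' (f^2) ≤ p ^ N w' (φ^N (f ^ 2)) = p ^ N w' (c) = 0`, a contradiction (`φ^i (f^2) ≠ 0` for `i ≤ N` as `φ 0 = 0`).  (2) If `c0 = P.coeff 0 ≠ 0` then `w' f = 0` and `AC' f = single 0 c0`.  By R3 with `γ = 0`, `N` times, `lc w' AC' 0 (φ^N f) = Φ^N (single 0 c0) = single 0 (φb^N c0)`.  As `s = 0`, `rb` says that every `c ∈ κ` is a
`p`-th power: `c = (ρ j0 c) ^ p`, so `φb c = ρ j0 (ac h * c)` is `≠ 0` for `c ≠ 0` (its `p`-th power is `ac h * c`).  So `φb^N c0 ≠ 0`, but `φ^N f = 0`: contradiction. -/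
def S_R5 : Prop :=
  ∀ (p : ℕ) [Fact p.Prime] (k K κ : Type) [Field k] [CharP k p] [PerfectRing k p] [Field K]
    [Algebra k K] [Field κ] [Algebra k κ] (Γ : Type) [AddCommGroup Γ] [LinearOrder Γ] [IsOrderedAddMonoid Γ]
    (v : K → Γ) (r : ℕ) (x : Fin r → K) (y : Fin 0 → K) (ex : K → Fin r → ℤ) (ac : K → κ)
    (π : Ix p r 0 → K → K) (ρ : (Fin 0 → Fin p) → κ → κ),
    Frame k p v x y ex ac π ρ → ∀ (n : ℕ) (t : Fin n → K) (h : K) (V0 : Submodule k K),
    FracGen k t → Nuc x y π t h V0 → h ≠ 0 → v h = 0 →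
    ∀ φ : K → K, (∀ f, φ f = π ix0 (h * f)) →
    ∀ (Γ' : Type) [AddCommGroup Γ'] [LinearOrder Γ'] [IsOrderedAddMonoid Γ'] [Nontrivial Γ'] (ι : Type) [Fintype ι] [Nonempty ι] (u : ι → Fin r → Γ')
      (w : ι → K → Γ'), (∀ i, Good (Cmp v x ex π (prodSp x y V0 : Set K)) (u i)) →
    (∀ i, At k p φ y ex ac π V0 (u i) (w i)) →
    ∀ (q : MvPolynomial (Fin n) k) (N : ℕ) (c : k), (∀ i, Ge (w i) 0 (aeval t q)) →
      φ^[N] (aeval t q) = 0 → c ≠ 0 → φ^[N] ((aeval t q) ^ 2) = algebraMap k K c →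
    ∃ m : Fin r → ℤ, m ≠ 0 ∧ ∀ i, wt (u i) m = 0

/-- [F2C R6] (about 100 lines) Two descriptions of the residue field of the same valuation.
Proof. `res z = lc w ac' 0 z` and `Res z = lc w AC 0 z` are additive on `O = {z | Ge w 0 z}`, multiplicative (`ac'`, `AC` are multiplicative; if one factor is `Gt w 0` both sides are `0`), and both vanish exactly on `{z | Gt w 0 z}`; `res` is onto `κ'`.  So `σ (res z) = Res z` is well defined and a ring homomorphism
(`AC 1 = 1` since `AC 1 ^ 2 = AC 1 ≠ 0`). -/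
def S_R6 : Prop :=
  ∀ (k K κ' L : Type) [Field k] [Field K] [Algebra k K] [Field κ'] [Algebra k κ'] [Field L] (Γ' : Type) [AddCommGroup Γ'] [LinearOrder Γ'] [IsOrderedAddMonoid Γ']
    (w : K → Γ'), IsV w → ∀ (r' : ℕ) (x' : Fin r' → K) (ac' : K → κ'), IsAC k w x' ac' →
    ∀ AC : K → L, AC 0 = 0 → (∀ f, f ≠ 0 → AC f ≠ 0) → (∀ f g, AC (f * g) = AC f * AC g) →
      (∀ f g, Ge w 0 f → Ge w 0 g → lc w AC 0 (f + g) = lc w AC 0 f + lc w AC 0 g) →
    ∃ σ : κ' →+* L, ∀ f, f ≠ 0 → w f = 0 → σ (ac' f) = AC f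

/-- [F2C R7] (about 150 lines) Uses D5, F2, R4. The residue field of the valuation of a good weight: homogeneous fractions of degree `0`.
Proof. `→`: `f g = e` with `g, e ∈ k[t]`, nonzero, `w g = w e =: c`; `AC g = P`, `AC e = Q` with `P = part u c (ap M g)`, `Q = part u c (ap M e)` (`M` large), both nonzero with all exponents of weight `c`; let `m0` be an exponent of `P`; `b = single (-m0) 1 * P`,
`a = single (-m0) 1 * Q`.  `←`: it is enough that for every nonzero `a` with all exponents of weight `0` there is `f ≠ 0`, `w f = 0`, `AC f = a` (then take quotients).  `a = ∑ single m c_m`; by R4 there is `f_m` with `w f_m = 0`, `AC f_m = single 0 c_m`; `AC (f_m x ^ m) = single m c_m` and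
`w (f_m x ^ m) = wt u m = 0` (`AC (x i) = single (Pi.single i 1) 1` as `x i ∈ V0`).  By additivity of `lc w AC 0`: `lc w AC 0 (∑ f_m x ^ m) = a ≠ 0`, so `f = ∑ f_m x ^ m` is as required. -/
def S_R7 : Prop :=
  ∀ (p : ℕ) [Fact p.Prime] (k K κ : Type) [Field k] [CharP k p] [PerfectRing k p] [Field K]
    [Algebra k K] [Field κ] [Algebra k κ] (Γ : Type) [AddCommGroup Γ] [LinearOrder Γ] [IsOrderedAddMonoid Γ]
    (v : K → Γ) (r s : ℕ) (x : Fin r → K) (y : Fin s → K) (ex : K → Fin r → ℤ) (ac : K → κ)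
    (π : Ix p r s → K → K) (ρ : (Fin s → Fin p) → κ → κ),
    Frame k p v x y ex ac π ρ → ∀ (n : ℕ) (t : Fin n → K) (h : K) (V0 : Submodule k K),
    FracGen k t → Nuc x y π t h V0 → ∀ (φ : K → K) (Γ' : Type) [AddCommGroup Γ'] [LinearOrder Γ'] [IsOrderedAddMonoid Γ'] (u : Fin r → Γ') (w : K → Γ'),
    At k p φ y ex ac π V0 u w →
    ∀ AC : K → FractionRing (AddMonoidAlgebra κ (Fin r → ℤ)), AC 0 = 0 →
      (∀ f, f ≠ 0 → AC f ≠ 0) → (∀ f g, AC (f * g) = AC f * AC g) →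
      (∀ γ f g, Ge w γ f → Ge w γ g → lc w AC γ (f + g) = lc w AC γ f + lc w AC γ g) →
      (∀ M f, f ≠ 0 → Abs π (V0 : Set K) M f →
        AC f = algebraMap _ _ (part u (w f) (ap y ex ac π M f))) →
      (∀ f ∈ V0, AC f = algebraMap _ _ (AddMonoidAlgebra.single (ex f) (ac f))) →
      ∀ z, (∃ f, f ≠ 0 ∧ w f = 0 ∧ AC f = z) ↔
        (z ≠ 0 ∧ ∃ a b : AddMonoidAlgebra κ (Fin r → ℤ), b ≠ 0 ∧
          (∀ m, a.coeff m ≠ 0 → wt u m = 0) ∧ (∀ m, b.coeff m ≠ 0 → wt u m = 0) ∧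
          z * algebraMap _ _ b = algebraMap _ _ a)

/-! ## K. Composites, flags, germs -/

/-- [F2C K1] (about 150 lines) Uses C9. Composites.
Proof. `V f = toLex (v f, Q (ac f))`.  `V 0 = toLex (0, Q 0) = 0`.  Multiplicative: `v`, `ac`, `Q` are (on nonzero elements).  Addition: let `f, g, f + g ≠ 0`.  If `v f < v g` then `v (f+g) = v f` and `ac (f+g) = ac f` (`IsAC.add` at `γ = v f`), so `V (f+g) = V f`; symmetric; if `v f = v g` and `v (f+g) = v f` then `ac (f+g) = ac f + ac g ≠ 0` and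
`Q (ac f + ac g) ≥ min`; if `v (f+g) > v f` then `V (f+g)` is larger than both.  Trivial on `k`: `IsAC.alg`.
Compatibility: let `φ f ≠ 0`; `v f ≤ p v (φ f)`.  If `<` we are done.  If `v f = p v (φ f)`, let `m = ex (φ f)`, `z = ∏ x_i ^ (m i)` (`v z = v (φ f)`, `ac z = 1`), `g = f z ^ (-p)`: `v g = 0`, `ac g = ac f`, `φ g = φ f / z`, `v (φ g) = 0`, `ac (φ g) = ac (φ f)`.  The hypothesis gives `ac (φ f) = φb (ac f)` and `Compat p φb Q` gives
`Q (ac f) ≤ p Q (ac (φ f))`.  So `V f ≤ p V (φ f)` in the lexicographic order. -/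
def S_K1 : Prop :=
  ∀ (p : ℕ) [Fact p.Prime] (k K κ : Type) [Field k] [CharP k p] [PerfectRing k p] [Field K]
    [Algebra k K] [Field κ] [Algebra k κ] (Γ : Type) [AddCommGroup Γ] [LinearOrder Γ] [IsOrderedAddMonoid Γ]
    (v : K → Γ) (r s : ℕ) (x : Fin r → K) (y : Fin s → K) (ex : K → Fin r → ℤ) (ac : K → κ)
    (π : Ix p r s → K → K) (ρ : (Fin s → Fin p) → κ → κ),
    Frame k p v x y ex ac π ρ → ∀ φ : K → K, IsPinv p φ → Compat p φ v → ∀ φb : κ → κ,
    (∀ f, Ge v 0 f → Ge v 0 (φ f) ∧ lc v ac 0 (φ f) = φb (lc v ac 0 f)) →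
    ∀ (Γ' : Type) [AddCommGroup Γ'] [LinearOrder Γ'] [IsOrderedAddMonoid Γ'] (Q : κ → Γ'), IsV Q → Triv k Q → Compat p φb Q →
    IsV (fun f => (toLex (v f, Q (ac f)) : Γ ×ₗ Γ')) ∧
      Triv k (fun f => (toLex (v f, Q (ac f)) : Γ ×ₗ Γ')) ∧
      Compat p φ (fun f => (toLex (v f, Q (ac f)) : Γ ×ₗ Γ'))

/-- [F2C K2] (about 150 lines) Decomposition of a flag.
Proof. `b i = (ofLex (V (x i))).2`.  For `c ∈ κ`, `c ≠ 0`, choose `f ≠ 0` with `v f = 0`, `ac f = c`, `Q c = (ofLex (V f)).2`, `Q 0 = 0`.  Well defined: if `ac f = ac f'`, `v f = v f' = 0` then `f / f' = 1 + g` with `g = 0` or `v g > 0` (`lc v ac 0 (f/f' - 1) = 0`), so `V g > 0`, `V (f / f') = V 1 = 0`.  `IsV Q`: multiplicative; addition: for `c, c', c + c' ≠ 0` take lifts `f, f'`;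
`f + f'` is a lift of `c + c'`, `V (f + f') ≥ min`, all first components are `0`.  Trivial: `Triv k V`.  Compatible: for `φb c ≠ 0` and a lift `f` of `c`, `φ f` is a lift of `φb c`.  Formula: `f = (f x^(-ex f)) x^(ex f)`, the first factor is a lift of `ac f`. -/
def S_K2 : Prop :=
  ∀ (p : ℕ) [Fact p.Prime] (k K κ : Type) [Field k] [CharP k p] [PerfectRing k p] [Field K]
    [Algebra k K] [Field κ] [Algebra k κ] (Γ : Type) [AddCommGroup Γ] [LinearOrder Γ] [IsOrderedAddMonoid Γ]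
    (v : K → Γ) (r s : ℕ) (x : Fin r → K) (y : Fin s → K) (ex : K → Fin r → ℤ) (ac : K → κ)
    (π : Ix p r s → K → K) (ρ : (Fin s → Fin p) → κ → κ),
    Frame k p v x y ex ac π ρ → ∀ φ : K → K, IsPinv p φ → Compat p φ v → ∀ φb : κ → κ,
    (∀ f, Ge v 0 f → Ge v 0 (φ f) ∧ lc v ac 0 (φ f) = φb (lc v ac 0 f)) →
    ∀ (Γ' : Type) [AddCommGroup Γ'] [LinearOrder Γ'] [IsOrderedAddMonoid Γ'] (V : K → Γ ×ₗ Γ'), IsV V → Triv k V → Compat p φ V → (∀ f, (ofLex (V f)).1 = v f) →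
    ∃ (Q : κ → Γ') (b : Fin r → Γ'), IsV Q ∧ Triv k Q ∧ Compat p φb Q ∧
      ∀ f, f ≠ 0 → V f = toLex (v f, Q (ac f) + wt b (ex f))

/-- [F2C K3] (about 60 lines) The first component of a valuation in a lexicographic product.
Proof. `V f ≤ V g` in the lexicographic order implies `(V f).1 ≤ (V g).1`; `toLex` and `ofLex` are additive. -/
def S_K3 : Prop :=
  ∀ (p : ℕ) (k K : Type) [Field k] [Field K] [Algebra k K] (Γ : Type) [AddCommGroup Γ] [LinearOrder Γ] [IsOrderedAddMonoid Γ]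
    (Γ' : Type) [AddCommGroup Γ'] [LinearOrder Γ'] [IsOrderedAddMonoid Γ'] (φ : K → K)
    (V : K → Γ ×ₗ Γ'), IsV V → Triv k V → Compat p φ V →
    IsV (fun f => (ofLex (V f)).1) ∧ Triv k (fun f => (ofLex (V f)).1) ∧
      Compat p φ (fun f => (ofLex (V f)).1)

/-- [F2C K4] (about 80 lines) Lexicographic and real positivity.
Proof. For `n ∈ N`, `wt` of the lexicographic weights is `toLex (wt a n, wt b n) > 0`, so `wt a n > 0`, or `wt a n = 0` and `wt b n > 0`.  In the first case `wt (a + ε b) n = wt a n + ε wt b n > 0` for small `ε > 0`, in the second for all `ε > 0`.  `N` is finite. -/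
def S_K4 : Prop :=
  ∀ (r : ℕ) (N : Set (Fin r → ℤ)) (a b : Fin r → ℝ), N.Finite →
    Good N (fun i => (toLex (a i, b i) : ℝ ×ₗ ℝ)) →
    ∃ ε0 > 0, ∀ ε, 0 < ε → ε < ε0 → Good N (fun i => a i + ε * b i)

/-- [F2C K5] (about 150 lines) Uses F3, F5, K4. REAL POINTS NEAR A FLAG.
Proof. `V (x i) = (a i, b i)`.  `N = Cmp V x ex π (prodSp x y V0)` is finite and `Good` at `V ∘ x`; K4 gives `ε0`; for `0 < ε < ε0` let `w ε` be the valuation at `a + ε b` (F3), otherwise arbitrary.  Let `f = aeval t q ≠ 0`, `M` with `Abs V0 M f`, `S` the support of `ap M f` (finite, not empty): `w ε f = min_{m ∈ S} (wt a m + ε wt b m)` and (F5)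
`V f = min_{m ∈ S} toLex (wt a m, wt b m)` is attained at `m0`: so `w ε f ≤ wt a m0 + ε wt b m0`, with equality for small `ε` (finitely many comparisons, as in K4).  A minimum of affine functions is concave. -/
def S_K5 : Prop :=
  ∀ (p : ℕ) [Fact p.Prime] (k K κ : Type) [Field k] [CharP k p] [PerfectRing k p] [Field K]
    [Algebra k K] [Field κ] [Algebra k κ] (V : K → ℝ ×ₗ ℝ) (r s : ℕ) (x : Fin r → K) (y : Fin s → K) (ex : K → Fin r → ℤ) (ac : K → κ)
    (π : Ix p r s → K → K) (ρ : (Fin s → Fin p) → κ → κ),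
    Frame k p V x y ex ac π ρ → ∀ (n : ℕ) (t : Fin n → K) (h : K) (V0 : Submodule k K),
    FracGen k t → Nuc x y π t h V0 → h ≠ 0 → V h = 0 →
    ∀ φ : K → K, (∀ f, φ f = π ix0 (h * f)) →
    ∃ (ε0 : ℝ) (w : ℝ → K → ℝ), 0 < ε0 ∧
      (∀ ε, 0 < ε → ε < ε0 → IsV (w ε) ∧ Triv k (w ε) ∧ Compat p φ (w ε)) ∧
      ∀ f, f ≠ 0 → (∃ q : MvPolynomial (Fin n) k, aeval t q = f) →
        ConcaveOn ℝ (Set.Ioo 0 ε0) (fun ε => w ε f) ∧
        (∀ ε, 0 < ε → ε < ε0 → w ε f ≤ (ofLex (V f)).1 + ε * (ofLex (V f)).2) ∧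
        ∃ ε1 > 0, ∀ ε, 0 < ε → ε < ε1 → ε < ε0 ∧
          w ε f = (ofLex (V f)).1 + ε * (ofLex (V f)).2

/-- [F2C K6] (about 80 lines) Germs of real valuations.
Proof. `Filter.Germ` of an ultrafilter: `(f : Germ) ≤ g` iff `∀ᶠ i, f i ≤ g i`, `<` iff `∀ᶠ i, f i < g i` (ultrafilter), `=` iff `∀ᶠ i, f i = g i`.  All laws hold for every `i`. -/
def S_K6 : Prop :=
  ∀ (p : ℕ) (k K I : Type) [Field k] [Field K] [Algebra k K] (U : Ultrafilter I) (φ : K → K)
    (w : I → K → ℝ), (∀ i, IsV (w i)) → (∀ i, Triv k (w i)) → (∀ i, Compat p φ (w i)) →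
    IsV (fun f => (((fun i => w i f : I → ℝ)) : Filter.Germ (U : Filter I) ℝ)) ∧
    Triv k (fun f => (((fun i => w i f : I → ℝ)) : Filter.Germ (U : Filter I) ℝ)) ∧
    Compat p φ (fun f => (((fun i => w i f : I → ℝ)) : Filter.Germ (U : Filter I) ℝ)) ∧
    (∀ f, (0 : Filter.Germ (U : Filter I) ℝ) < ((fun i => w i f : I → ℝ) : Filter.Germ (U : Filter I) ℝ) ↔
      ∀ᶠ i in (U : Filter I), 0 < w i f) ∧
    (∀ f, ((fun i => w i f : I → ℝ) : Filter.Germ (U : Filter I) ℝ) = 0 ↔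
      ∀ᶠ i in (U : Filter I), w i f = 0)

end Pool.Agent.F2Ch
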