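import Pool.Agent.Lib.MP_305fdd_al.F2.ChStm
import Pool.Agent.Lib.MP_305fdd_al.F2.ChStmG

/-!
# MP_305fdd_al, F_2 project, section C: the interface (charts)

`Chart` is what the other sections use; `S_chart` is proved in `Ch/All.lean` from the pieces.
-/

set_option autoImplicit false

namespace Pool.Agent.F2Ch

open MvPolynomial

/-- the field of fractions of the Laurent polynomials -/
abbrev LF (κ : Type) [Field κ] (r : ℕ) : Type := FractionRing (AddMonoidAlgebra κ (Fin r → ℤ))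

/-- a Laurent polynomial as a fraction -/
noncomputable abbrev toLF {κ : Type} [Field κ] {r : ℕ} (P : AddMonoidAlgebra κ (Fin r → ℤ)) : LF κ r :=
  algebraMap _ _ P

/-- `φ`-compatible valuations -/
structure InZ (k : Type) (p : ℕ) {K Γ : Type} [Field k] [Field K] [Algebra k K] [AddCommGroup Γ]
    [LinearOrder Γ] [IsOrderedAddMonoid Γ] (φ : K → K) (w : K → Γ) : Prop where
  isv : IsV w
  triv : Triv k w
  compat : Compat p φ w

/-- `Φ` is the toric extension of `φb`: `Φ (c X ^ (p m)) = φb c X ^ m`, `Φ (c X ^ m) = 0` if `p ∤ m`. -/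
structure IsTor (p : ℕ) {κ : Type} [Field κ] {r : ℕ} (φb : κ → κ) (Φ : LF κ r → LF κ r) : Prop where
  pinv : IsPinv p Φ
  mul : ∀ (m : Fin r → ℤ) (c : κ), Φ (toLF (AddMonoidAlgebra.single ((p : ℤ) • m) c)) =
    toLF (AddMonoidAlgebra.single m (φb c))
  zero : ∀ (m : Fin r → ℤ) (c : κ), (¬ ∃ m', m = (p : ℤ) • m') →
    Φ (toLF (AddMonoidAlgebra.single m c)) = 0

/-- `w` is the valuation of weight `u` in a chart with Laurent polynomials `L f`, `f ∈ k[t]`. -/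
structure OnCh (k : Type) (p : ℕ) {K κ Γ : Type} [Field k] [Field K] [Algebra k K] [Field κ]
    [AddCommGroup Γ] [LinearOrder Γ] [IsOrderedAddMonoid Γ] {n r : ℕ} (φ : K → K) (t : Fin n → K)
    (L : K → AddMonoidAlgebra κ (Fin r → ℤ)) (u : Fin r → Γ) (w : K → Γ) : Prop where
  inz : InZ k p φ w
  min : ∀ q : MvPolynomial (Fin n) k, aeval t q ≠ 0 → IsMinW u (L (aeval t q)) (w (aeval t q))

/-- `AC` describes the leading forms of the valuation `w` of weight `u` in a chart. -/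
structure LForm (k : Type) (p : ℕ) {K κ Γ : Type} [Field k] [Field K] [Algebra k K] [Field κ]
    [Algebra k κ] [AddCommGroup Γ] [LinearOrder Γ] [IsOrderedAddMonoid Γ] {n r : ℕ} (φ : K → K)
    (t : Fin n → K) (x : Fin r → K) (L : K → AddMonoidAlgebra κ (Fin r → ℤ)) (Φ : LF κ r → LF κ r)
    (u : Fin r → Γ) (w : K → Γ) (AC : K → LF κ r) : Prop where
  zero : AC 0 = 0
  ne : ∀ f, f ≠ 0 → AC f ≠ 0
  mul : ∀ f g, AC (f * g) = AC f * AC g
  add : ∀ γ f g, Ge w γ f → Ge w γ g → lc w AC γ (f + g) = lc w AC γ f + lc w AC γ g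
  eq : ∀ q : MvPolynomial (Fin n) k, aeval t q ≠ 0 →
    AC (aeval t q) = toLF (part u (w (aeval t q)) (L (aeval t q)))
  x_eq : ∀ i, AC (x i) = toLF (AddMonoidAlgebra.single (Pi.single i 1) 1)
  alg : ∀ c : k, AC (algebraMap k K c) = toLF (AddMonoidAlgebra.single 0 (algebraMap k κ c))
  phi : ∀ γ f, Ge w (p • γ) f → Ge w γ (φ f) ∧ lc w AC γ (φ f) = Φ (lc w AC (p • γ) f)
  surj : ∀ z : κ, z ≠ 0 → ∃ f, f ≠ 0 ∧ w f = 0 ∧
    AC f = toLF (AddMonoidAlgebra.single (0 : Fin r → ℤ) z)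
  range : ∀ z, (∃ f, f ≠ 0 ∧ w f = 0 ∧ AC f = z) ↔
    (z ≠ 0 ∧ ∃ a b : AddMonoidAlgebra κ (Fin r → ℤ), b ≠ 0 ∧
      (∀ m, a.coeff m ≠ 0 → wt u m = 0) ∧ (∀ m, b.coeff m ≠ 0 → wt u m = 0) ∧
      z * toLF b = toLF a)

/-- A chart at the compatible valuation `V`: the elements `x i` have values which form a basis of the value group of `V` (exponents `ex`), `κ` is the
residue field of `V` with angular component `ac`, `φb` is the map induced by `φ` on `κ`, `N` is a finite set of `V`-positive exponents; every weight `u` (in any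
ordered group) which is positive on `N` is realised by exactly one compatible valuation, computed by the minimal weight in the Laurent polynomials `L f`, `f ∈ k[t]`;
every compatible valuation which satisfies finitely many conditions is of this form. -/
structure Chart (k : Type) (p : ℕ) {K κ Γ : Type} [Field k] [Field K] [Algebra k K] [Field κ]
    [Algebra k κ] [AddCommGroup Γ] [LinearOrder Γ] [IsOrderedAddMonoid Γ] {n r : ℕ} (φ : K → K)
    (t : Fin n → K) (V : K → Γ) (x : Fin r → K) (ex : K → Fin r → ℤ) (ac : K → κ) (φb : κ → κ)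
    (N : Set (Fin r → ℤ)) (L : K → AddMonoidAlgebra κ (Fin r → ℤ)) : Prop where
  vb : IsVB V x ex
  isac : IsAC k V x ac
  pinv : IsPinv p φb
  one : φb 1 = 1
  res : ∀ f, Ge V 0 f → Ge V 0 (φ f) ∧ lc V ac 0 (φ f) = φb (lc V ac 0 f)
  fin : N.Finite
  good : Good N (fun i => V (x i))
  onch : OnCh k p φ t L (fun i => V (x i)) V
  lead : ∀ q : MvPolynomial (Fin n) k, aeval t q ≠ 0 →
    part (fun i => V (x i)) (V (aeval t q)) (L (aeval t q)) =
      AddMonoidAlgebra.single (ex (aeval t q)) (ac (aeval t q))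
  cell : ∀ (Γ' : Type) [AddCommGroup Γ'] [LinearOrder Γ'] [IsOrderedAddMonoid Γ'] [Nontrivial Γ']
    (u : Fin r → Γ'), Good N u → ∃ w : K → Γ', OnCh k p φ t L u w ∧ ∀ i, w (x i) = u i
  uniq : ∀ (Γ' : Type) [AddCommGroup Γ'] [LinearOrder Γ'] [IsOrderedAddMonoid Γ']
    (u : Fin r → Γ') (w w' : K → Γ'), OnCh k p φ t L u w → OnCh k p φ t L u w' → w = w'
  lform : ∀ (Γ' : Type) [AddCommGroup Γ'] [LinearOrder Γ'] [IsOrderedAddMonoid Γ'] [Nontrivial Γ']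
    (u : Fin r → Γ') (w : K → Γ') (Φ : LF κ r → LF κ r), IsTor p φb Φ → Good N u →
    OnCh k p φ t L u w → ∃ AC : K → LF κ r, LForm k p φ t x L Φ u w AC
  unif : ∃ G0 G1 : Set K, G0.Finite ∧ G1.Finite ∧ (∀ g ∈ G0, g ≠ 0 ∧ V g = 0) ∧
    (∀ g ∈ G1, g ≠ 0 ∧ 0 < V g) ∧
    ∀ (Γ' : Type) [AddCommGroup Γ'] [LinearOrder Γ'] [IsOrderedAddMonoid Γ'] (w : K → Γ'),
      InZ k p φ w → (∀ g ∈ G0, w g = 0) → (∀ g ∈ G1, 0 < w g) →
      Good N (fun i => w (x i)) ∧ OnCh k p φ t L (fun i => w (x i)) w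

/-- [F2C X1] Existence of the toric extension. -/
def S_X1 : Prop :=
  ∀ (p : ℕ) [Fact p.Prime] (κ : Type) [Field κ] [CharP κ p] (r : ℕ) (φb : κ → κ), IsPinv p φb →
    ∃ Φ : LF κ r → LF κ r, IsTor p φb Φ

/-- [F2C X2] EXISTENCE OF CHARTS. -/
def S_X2 : Prop :=
  ∀ (p : ℕ) [Fact p.Prime] (k K Γ : Type) [Field k] [CharP k p] [PerfectRing k p] [Field K]
    [Algebra k K] [AddCommGroup Γ] [LinearOrder Γ] [IsOrderedAddMonoid Γ]
    (n : ℕ) (t : Fin n → K), FracGen k t → ∀ (d : ℕ) (b : Fin (p ^ d) → K)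
    (ρ0 : Fin (p ^ d) → K → K), IsPB p b ρ0 → ∀ φ : K → K, IsPinv p φ → φ 1 = 1 →
    ∀ V : K → Γ, InZ k p φ V →
    ∃ (r s : ℕ) (κ : Type) (_ : Field κ) (_ : Algebra k κ) (x : Fin r → K) (ex : K → Fin r → ℤ)
      (ac : K → κ) (φb : κ → κ) (N : Set (Fin r → ℤ)) (L : K → AddMonoidAlgebra κ (Fin r → ℤ)),
      Chart k p φ t V x ex ac φb N L ∧ r + s = d ∧ Algebra.trdeg k κ = s ∧
      (∃ (n' : ℕ) (t' : Fin n' → κ), FracGen k t') ∧
      ∃ (b' : Fin (p ^ s) → κ) (ρ' : Fin (p ^ s) → κ → κ), IsPB p b' ρ'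

/-- [F2C X3] THE CONSTANT TERM ARGUMENT in a chart of maximal rational rank. -/
def S_X3 : Prop :=
  ∀ (p : ℕ) [Fact p.Prime] (k K Γ : Type) [Field k] [CharP k p] [PerfectRing k p] [Field K]
    [Algebra k K] [AddCommGroup Γ] [LinearOrder Γ] [IsOrderedAddMonoid Γ]
    (n : ℕ) (t : Fin n → K), FracGen k t → ∀ φ : K → K, IsPinv p φ → φ 1 = 1 →
    ∀ (κ : Type) [Field κ] [Algebra k κ] (V : K → Γ), InZ k p φ V →
    ∀ (r : ℕ) (x : Fin r → K) (ex : K → Fin r → ℤ)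
      (ac : K → κ) (φb : κ → κ) (N : Set (Fin r → ℤ)) (L : K → AddMonoidAlgebra κ (Fin r → ℤ)),
      Chart k p φ t V x ex ac φb N L → (∀ c : κ, ∃ c', c' ^ p = c) →
    ∀ (Γ' : Type) [AddCommGroup Γ'] [LinearOrder Γ'] [IsOrderedAddMonoid Γ'] [Nontrivial Γ']
      (ι : Type) [Fintype ι] [Nonempty ι] (u : ι → Fin r → Γ') (w : ι → K → Γ'),
      (∀ i, Good N (u i)) → (∀ i, OnCh k p φ t L (u i) (w i)) →
    ∀ (q : MvPolynomial (Fin n) k) (M : ℕ) (c : k), (∀ i, Ge (w i) 0 (aeval t q)) →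
      φ^[M] (aeval t q) = 0 → c ≠ 0 → φ^[M] ((aeval t q) ^ 2) = algebraMap k K c →
    ∃ m : Fin r → ℤ, m ≠ 0 ∧ ∀ i, wt (u i) m = 0

/-- [F2C X4] RESIDUES PERSIST. -/
def S_X4 : Prop :=
  ∀ (p : ℕ) [Fact p.Prime] (k K Γ : Type) [Field k] [CharP k p] [PerfectRing k p] [Field K]
    [Algebra k K] [AddCommGroup Γ] [LinearOrder Γ] [IsOrderedAddMonoid Γ]
    (n : ℕ) (t : Fin n → K), FracGen k t → ∀ (d : ℕ) (b : Fin (p ^ d) → K)
    (ρ0 : Fin (p ^ d) → K → K), IsPB p b ρ0 → ∀ φ : K → K, IsPinv p φ → φ 1 = 1 →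
    ∀ V : K → Γ, InZ k p φ V → ∀ (m : ℕ) (f : Fin m → K), (∀ i, Ge V 0 (f i)) →
    ∃ G0 G1 : Set K, G0.Finite ∧ G1.Finite ∧ (∀ g ∈ G0, g ≠ 0 ∧ V g = 0) ∧
      (∀ g ∈ G1, g ≠ 0 ∧ 0 < V g) ∧
      ∀ (Γ' : Type) [AddCommGroup Γ'] [LinearOrder Γ'] [IsOrderedAddMonoid Γ'] (w : K → Γ'),
        InZ k p φ w → (∀ g ∈ G0, w g = 0) → (∀ g ∈ G1, 0 < w g) → ∀ P : MvPolynomial (Fin m) k,
        Ge w 0 (aeval f P) ∧ (Gt w 0 (aeval f P) ↔ Gt V 0 (aeval f P))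

/-- [F2C X5] Germs of real valuations, and the uniform lemma for them. -/
def S_X5 : Prop :=
  ∀ (p : ℕ) [Fact p.Prime] (k K I : Type) [Field k] [CharP k p] [PerfectRing k p] [Field K]
    [Algebra k K] (U : Ultrafilter I) (φ : K → K) (w : I → K → ℝ), (∀ i, InZ k p φ (w i)) →
    InZ k p φ (fun f => (((fun i => w i f : I → ℝ)) : Filter.Germ (U : Filter I) ℝ)) ∧
    ∀ (κ : Type) [Field κ] [Algebra k κ] (n : ℕ) (t : Fin n → K) (r : ℕ) (x : Fin r → K)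
      (ex : K → Fin r → ℤ) (ac : K → κ) (φb : κ → κ) (N : Set (Fin r → ℤ))
      (L : K → AddMonoidAlgebra κ (Fin r → ℤ)),
      Chart k p φ t (fun f => (((fun i => w i f : I → ℝ)) : Filter.Germ (U : Filter I) ℝ))
        x ex ac φb N L →
      ∀ᶠ i in (U : Filter I), Good N (fun j => w i (x j)) ∧
        OnCh k p φ t L (fun j => w i (x j)) (w i)

/-- [F2C X6] REAL POINTS NEAR A FLAG, in a chart. -/
def S_X6 : Prop :=
  ∀ (p : ℕ) [Fact p.Prime] (k K : Type) [Field k] [CharP k p] [PerfectRing k p] [Field K]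
    [Algebra k K] (n : ℕ) (t : Fin n → K) (φ : K → K) (κ : Type) [Field κ] [Algebra k κ]
    (V : K → ℝ ×ₗ ℝ) (r : ℕ) (x : Fin r → K) (ex : K → Fin r → ℤ) (ac : K → κ) (φb : κ → κ)
    (N : Set (Fin r → ℤ)) (L : K → AddMonoidAlgebra κ (Fin r → ℤ)),
    Chart k p φ t V x ex ac φb N L →
    ∃ (ε0 : ℝ) (w : ℝ → K → ℝ), 0 < ε0 ∧
      (∀ ε, 0 < ε → ε < ε0 →
        Good N (fun i => (ofLex (V (x i))).1 + ε * (ofLex (V (x i))).2) ∧
        OnCh k p φ t L (fun i => (ofLex (V (x i))).1 + ε * (ofLex (V (x i))).2) (w ε)) ∧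
      ∀ f, f ≠ 0 → (∃ q : MvPolynomial (Fin n) k, aeval t q = f) →
        ConcaveOn ℝ (Set.Ioo 0 ε0) (fun ε => w ε f) ∧
        (∀ ε, 0 < ε → ε < ε0 → w ε f ≤ (ofLex (V f)).1 + ε * (ofLex (V f)).2) ∧
        ∃ ε1 > 0, ∀ ε, 0 < ε → ε < ε1 → ε < ε0 ∧
          w ε f = (ofLex (V f)).1 + ε * (ofLex (V f)).2

end Pool.Agent.F2Ch
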