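import Pool.Agent.Lib.MP_305fdd_al.F2.Ch.A1
import Pool.Agent.Lib.MP_305fdd_al.F2.Ch.A3
import Pool.Agent.Lib.MP_305fdd_al.F2.Ch.B1
import Pool.Agent.Lib.MP_305fdd_al.F2.Ch.B2
import Pool.Agent.Lib.MP_305fdd_al.F2.Ch.B3
import Pool.Agent.Lib.MP_305fdd_al.F2.Ch.B4
import Pool.Agent.Lib.MP_305fdd_al.F2.Ch.C0
import Pool.Agent.Lib.MP_305fdd_al.F2.Ch.C1
import Pool.Agent.Lib.MP_305fdd_al.F2.Ch.C2
import Pool.Agent.Lib.MP_305fdd_al.F2.Ch.C3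
import Pool.Agent.Lib.MP_305fdd_al.F2.Ch.C4
import Pool.Agent.Lib.MP_305fdd_al.F2.Ch.C5
import Pool.Agent.Lib.MP_305fdd_al.F2.Ch.C5b
import Pool.Agent.Lib.MP_305fdd_al.F2.Ch.C6
import Pool.Agent.Lib.MP_305fdd_al.F2.Ch.C7
import Pool.Agent.Lib.MP_305fdd_al.F2.Ch.C8
import Pool.Agent.Lib.MP_305fdd_al.F2.Ch.C9
import Pool.Agent.Lib.MP_305fdd_al.F2.Ch.D0
import Pool.Agent.Lib.MP_305fdd_al.F2.Ch.D1
import Pool.Agent.Lib.MP_305fdd_al.F2.Ch.D2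
import Pool.Agent.Lib.MP_305fdd_al.F2.Ch.D3
import Pool.Agent.Lib.MP_305fdd_al.F2.Ch.D4
import Pool.Agent.Lib.MP_305fdd_al.F2.Ch.D5
import Pool.Agent.Lib.MP_305fdd_al.F2.Ch.E1
import Pool.Agent.Lib.MP_305fdd_al.F2.Ch.E2
import Pool.Agent.Lib.MP_305fdd_al.F2.Ch.E3
import Pool.Agent.Lib.MP_305fdd_al.F2.Ch.E4
import Pool.Agent.Lib.MP_305fdd_al.F2.Ch.F1
import Pool.Agent.Lib.MP_305fdd_al.F2.Ch.F2
import Pool.Agent.Lib.MP_305fdd_al.F2.Ch.F3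
import Pool.Agent.Lib.MP_305fdd_al.F2.Ch.F4
import Pool.Agent.Lib.MP_305fdd_al.F2.Ch.F5
import Pool.Agent.Lib.MP_305fdd_al.F2.Ch.K1
import Pool.Agent.Lib.MP_305fdd_al.F2.Ch.K2
import Pool.Agent.Lib.MP_305fdd_al.F2.Ch.K3
import Pool.Agent.Lib.MP_305fdd_al.F2.Ch.K4
import Pool.Agent.Lib.MP_305fdd_al.F2.Ch.K5
import Pool.Agent.Lib.MP_305fdd_al.F2.Ch.K6
import Pool.Agent.Lib.MP_305fdd_al.F2.Ch.R1
import Pool.Agent.Lib.MP_305fdd_al.F2.Ch.R2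
import Pool.Agent.Lib.MP_305fdd_al.F2.Ch.R3
import Pool.Agent.Lib.MP_305fdd_al.F2.Ch.R4
import Pool.Agent.Lib.MP_305fdd_al.F2.Ch.R6
import Pool.Agent.Lib.MP_305fdd_al.F2.Ch.R7
import Pool.Agent.Lib.MP_305fdd_al.F2.Ch.U1
import Pool.Agent.Lib.MP_305fdd_al.F2.Ch.U2
import Pool.Agent.Lib.MP_305fdd_al.F2.Ch.U3
import Pool.Agent.Lib.MP_305fdd_al.F2.Ch.U4
import Pool.Agent.Lib.MP_305fdd_al.F2.Ch.U5
import Pool.Agent.Lib.MP_305fdd_al.F2.Ch.U6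
import Pool.Agent.Lib.MP_305fdd_al.F2.Ch.U7
import Pool.Agent.Lib.MP_305fdd_al.F2.Ch.X2
import Pool.Agent.Lib.MP_305fdd_al.F2.Ch.X3

/-!
# MP_305fdd_al, F_2 project, section C: all statements, proved (no hypotheses left)
-/

set_option autoImplicit false

namespace Pool.Agent.F2Ch

theorem t_A1 : S_A1 := p_A1

theorem t_A3 : S_A3 := p_A3 t_A1

theorem t_B1 : S_B1 := p_B1

theorem t_B2 : S_B2 := p_B2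

theorem t_B3 : S_B3 := p_B3 t_B1 t_B2

theorem t_B4 : S_B4 := p_B4

theorem t_C0 : S_C0 := p_C0

theorem t_C1 : S_C1 := p_C1 t_A3 t_C0

theorem t_C2 : S_C2 := p_C2

theorem t_C3 : S_C3 := p_C3

theorem t_C4 : S_C4 := p_C4 t_B1

theorem t_C5 : S_C5 := p_C5 t_B1

theorem t_C5b : S_C5b := p_C5b t_B1

theorem t_C6 : S_C6 := p_C6 t_B3 t_C1 t_C2 t_C3 t_C4 t_C5 t_C5b

theorem t_C8 : S_C8 := p_C8

theorem t_C9 : S_C9 := p_C9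

theorem t_D0 : S_D0 := p_D0

theorem t_D1 : S_D1 := p_D1

theorem t_D2 : S_D2 := p_D2

theorem t_D3 : S_D3 := p_D3 t_D2

theorem t_D4 : S_D4 := p_D4

theorem t_D5 : S_D5 := p_D5

theorem t_E1 : S_E1 := p_E1 t_C0 t_C8

theorem t_E2 : S_E2 := p_E2 t_D2 t_D3

theorem t_E3 : S_E3 := p_E3 t_D2 t_D3

theorem t_E4 : S_E4 := p_E4 t_D2 t_D3 t_D4 t_D5 t_E3

theorem t_F1 : S_F1 := p_F1 t_D1 t_D3 t_D4 t_D5 t_E2 t_E3 t_E4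

theorem t_F2 : S_F2 := p_F2 t_D3 t_D5

theorem t_F3 : S_F3 := p_F3 t_D0 t_D4 t_E1 t_F1 t_F2

theorem t_F4 : S_F4 := p_F4 t_A3

theorem t_F5 : S_F5 := p_F5 t_D3

theorem t_K1 : S_K1 := p_K1

theorem t_K2 : S_K2 := p_K2

theorem t_K3 : S_K3 := p_K3

theorem t_K4 : S_K4 := p_K4

theorem t_K5 : S_K5 := p_K5 t_D0 t_F3 t_F5 t_K4

theorem t_K6 : S_K6 := p_K6

theorem t_R1 : S_R1 := p_R1

theorem t_R2 : S_R2 := p_R2 t_D0 t_D1 t_D2 t_D3 t_D4 t_D5 t_E1 t_E2 t_E3 t_E4 t_F2 t_F5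

theorem t_R3 : S_R3 := p_R3 t_D0 t_D1 t_D2 t_D3 t_D4 t_D5 t_E1 t_E2 t_E3 t_E4 t_F2 t_F5

theorem t_R4 : S_R4 := p_R4 t_C8 t_D0 t_D3 t_F2

theorem t_R6 : S_R6 := p_R6

theorem t_R7 : S_R7 := p_R7 t_D0 t_D5 t_F2 t_R4

theorem t_U1 : S_U1 := p_U1

theorem t_U2 : S_U2 := p_U2

theorem t_U5 : S_U5 := p_U5 t_C0

theorem t_X1 : S_X1 := p_X1 t_R1

theorem t_X3 : S_X3 := p_X3 t_X1 t_D5

theorem t_X5 : S_X5 := p_X5 t_K6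

theorem t_X6 : S_X6 := p_X6 t_K4

theorem t_C7 : S_C7 := p_C7 t_A3 t_C0 t_C8

theorem t_U3 : S_U3 := p_U3 t_B1 t_B4 t_C7

theorem t_U4 : S_U4 := p_U4 t_D0 t_U1 t_U2 t_U3

theorem t_U6 : S_U6 := p_U6 t_U4 t_U5

theorem t_U7 : S_U7 := p_U7 t_D0 t_D3 t_D4 t_E1 t_U1 t_U6

theorem t_X2 : S_X2 := p_X2 t_C6 t_C7 t_C8 t_C9 t_D0 t_D2 t_D5 t_F3 t_F4 t_F5 t_U3 t_U7 t_R2 t_R3 t_R4 t_R7

theorem t_X4 : S_X4 := p_X4 t_C6 t_C9 t_U4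

end Pool.Agent.F2Ch
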