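import Pool.Agent.Lib.MP_305fdd_al.F2.ChDefs

/-!
# MP_305fdd_al, F_2 project, section C (projection lemma and charts): the pieces [F2C ..]

Every `def S_xx : Prop` is one independent piece; its docstring contains the complete proof.
The other statements may be taken as hypotheses.

Conventions. `p` is a prime, `k` a perfect field of characteristic `p`, `K` a field
extension of `k`, all types in `Type`.  `FracGen k t`: `K` is the fraction field of `k[t]`.
Valuations `v : K → Γ` (any ordered abelian group, additive) have the junk value `v 0 = 0` (`IsV`).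
-/

set_option autoImplicit false

namespace Pool.Agent.F2Ch

open MvPolynomial

/-! ## A. Stable finite dimensional spaces -/

/-- [F2C A1] (about 150 lines) Contraction.
Proof. `π i (t ^ α)` for `α ∈ [0,p)^n` are finitely many elements of `K`; by `FracGen` there are a polynomial `H` with
`h = aeval t H ≠ 0` and polynomials `g i α` with `π i (t ^ α) = h⁻¹ * aeval t (g i α)` (common denominator).
`e = totalDegree H`, `D0` a bound for the degrees of the `g i α`, `D = e + D0`.
`V d = {h⁻¹ ^ 2 * aeval t q | totalDegree q ≤ d}`, the image of the finite dimensional space `restrictTotalDegree (Fin n) k d` (or of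
the span of the finitely many monomials of degree `≤ d`).  `aeval t q = h⁻¹ ^ 2 * aeval t (H ^ 2 * q) ∈ V (deg q + 2 e)`.
Let `q` have degree `≤ d` and `Q = q * H ^ (p - 2)`.  `h⁻¹ ^ 2 * q(t) = (h⁻¹) ^ p * Q(t)`, so `π i (h⁻¹ ^ 2 q(t)) = h⁻¹ * π i (Q(t))`.
`Q = ∑ c_β X ^ β`, `c_β X ^ β = (c' X ^ ⌊β/p⌋) ^ p * X ^ (β mod p)` with `c' ^ p = c_β` (`k` is perfect), so
`π i (c_β t ^ β) = c' t ^ ⌊β/p⌋ π i (t ^ (β mod p)) = h⁻¹ * (c' X ^ ⌊β/p⌋ g i (β mod p))(t)`, of degree
`≤ |β| / p + D0 ≤ (d + (p - 2) e) / p + D0 ≤ d / 2 + e + D0`. Sum over `β` (`map_sum` from additivity, `π i 0 = 0`). -/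
def S_A1 : Prop :=
  ∀ (p : ℕ) [Fact p.Prime] (k K : Type) [Field k] [CharP k p] [PerfectRing k p] [Field K]
    [Algebra k K] (n : ℕ) (t : Fin n → K), FracGen k t → ∀ (ι : Type) [Finite ι]
    (π : ι → K → K), (∀ i, IsPinv p (π i)) →
    ∃ (V : ℕ → Submodule k K) (D : ℕ), (∀ d, FiniteDimensional k (V d)) ∧
      (∀ d, V d ≤ V (d + 1)) ∧ (∀ q : MvPolynomial (Fin n) k, ∃ d, aeval t q ∈ V d) ∧
      ∀ i d f, f ∈ V d → π i f ∈ V (d / 2 + D)

/-- [F2C A3] (about 90 lines) Uses A1. An absorbing stable space which contains a given finite set.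
Proof. Apply A1 to the family `t'` consisting of `t` and the elements of `E` (`Fin (n + card E)`, `Fin.append`; `FracGen k t'` by renaming the
variables); the elements of `E` are `aeval t' (X _)`.  Let `e ≥ D` be so large that `E ⊆ V (2 e)`; `V0 = V (2 e)`: stable because
`2 e / 2 + D ≤ 2 e`.  `aeval t q = aeval t' q' ∈ V d` for some `d`.  If `f ∈ V (2 e + s)` then `π i f ∈ V ((2 e + s) / 2 + D)` and
`(2 e + s) / 2 + D ≤ 2 e + s / 2`; so by induction on `s` (if `s > 0` then `s / 2 < s`) every word of length `N ≥ s` maps `V (2 e + s)` into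
`V0` (use stability of `V0` for the rest of the word; `V` is monotone). -/
def S_A3 : Prop :=
  ∀ (p : ℕ) [Fact p.Prime] (k K : Type) [Field k] [CharP k p] [PerfectRing k p] [Field K]
    [Algebra k K] (n : ℕ) (t : Fin n → K), FracGen k t → ∀ (ι : Type) [Finite ι]
    (π : ι → K → K), (∀ i, IsPinv p (π i)) → ∀ E : Set K, E.Finite →
    ∃ V : Submodule k K, FiniteDimensional k V ∧ (∀ e ∈ E, e ∈ V) ∧ (∀ i, ∀ f ∈ V, π i f ∈ V) ∧
      ∀ q : MvPolynomial (Fin n) k, ∃ N0, ∀ N, N0 ≤ N → Abs π (V : Set K) N (aeval t q)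

/-! ## B. The projection lemma -/

/-- [F2C B1] (about 80 lines) Independent families are not longer than a basis, and of the same length only if they are bases.
Proof. `K` is a vector space over the subfield `Kp = (frobenius K p).fieldRange`; `b` is a basis (`IsPB`), so `finrank Kp K = card ι`; the
hypothesis says that `w` is linearly independent over `Kp` (elements of `Kp` are the `a ^ p`), so `card ι' ≤ card ι`
(`LinearIndependent.fintype_card_le_finrank`), and in case of equality it is a basis (`basisOfLinearIndependentOfCardEqFinrank`); `π i f` is the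
`p`-th root of the `i`-th coordinate. -/
def S_B1 : Prop :=
  ∀ (p : ℕ) [Fact p.Prime] (K : Type) [Field K] [CharP K p] (ι : Type) [Fintype ι] (b : ι → K)
    (ρ : ι → K → K), IsPB p b ρ → ∀ (ι' : Type) [Fintype ι'] (w : ι' → K),
    (∀ a : ι' → K, ∑ j, a j ^ p * w j = 0 → a = 0) →
    Fintype.card ι' ≤ Fintype.card ι ∧
      (Fintype.card ι' = Fintype.card ι → ∃ π : ι' → K → K, IsPB p w π)

/-- [F2C B2] (about 50 lines) A functional which kills a proper subspace.
Proof. Put `Ψ g = (φ (g * w j))_j : Fin n → K`.  The `card ι > n` vectors `Ψ (b i)` of `K ^ n` are linearly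
dependent over `K` (`Module.finrank_fin_fun`): `∑ a_i Ψ (b i) = 0`, `a ≠ 0`.  `g = ∑ a_i ^ p b_i`
is not `0` (`IsPB.uniq` for `b`) and `φ (g w_j) = ∑ a_i φ (b_i w_j) = 0`.  Then `φ (g ∑ c_j ^ p w_j) = ∑ c_j φ (g w_j) = 0`. -/
def S_B2 : Prop :=
  ∀ (p : ℕ) [Fact p.Prime] (K : Type) [Field K] [CharP K p] (ι : Type) [Fintype ι] (b : ι → K)
    (ρ : ι → K → K), IsPB p b ρ → ∀ (n : ℕ) (w : Fin n → K), n < Fintype.card ι →
    ∀ φ : K → K, IsPinv p φ → ∃ g, g ≠ 0 ∧ ∀ a : Fin n → K, φ (g * ∑ j, a j ^ p * w j) = 0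

/-- [F2C B3] (about 130 lines) Uses B1, B2. THE PROJECTION LEMMA (helper6).
Proof. Valuation independent families (`VI`) are independent, so (B1) of length `≤ card ι`; take one, `w : Fin n → K`, of maximal length `n` (the
empty one exists).  If `n = card ι` we are done by B1 (reindex by `Fintype.equivFin`).  Let `n < card ι` and `g` as in B2; `W = {∑ a_j ^ p w_j}`.
CLAIM: there is `w0 ∈ W` with `Gt v (v g⁻¹) (g⁻¹ - w0)`.  Otherwise `Fin.snoc w g⁻¹` is valuation independent, a
contradiction: consider `s = A + c ^ p * g⁻¹`, `A = ∑ a_j ^ p w_j`.  If `c = 0`: clear.  If `c ≠ 0` then `s = c ^ p (g⁻¹ - w0)` with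
`w0 = ∑ (- a_j / c) ^ p w_j ∈ W` (`(-a)^p = -a^p` in characteristic `p`), so `s ≠ 0` and `v s ≤ p v c + v g⁻¹ = v (c ^ p g⁻¹)`; if some
`a_i ≠ 0` then `v s ≤ v A` too (otherwise `v (c ^ p g⁻¹) = v (s - A) = v A < v s`), and `v A ≤ p v (a_i) + v (w_i)`.
With `w0` as in the claim `z = 1 - g w0` has `z = 0` or `v z > 0`, and `φ z = φ 1 - φ (g w0) = 1`; so `z ≠ 0` and compatibility gives
`0 < v z ≤ p v (φ z) = p v 1 = 0`, a contradiction. -/
def S_B3 : Prop :=
  ∀ (p : ℕ) [Fact p.Prime] (K : Type) [Field K] [CharP K p] (ι : Type) [Fintype ι] (b : ι → K)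
    (ρ : ι → K → K), IsPB p b ρ → ∀ (Γ : Type) [AddCommGroup Γ] [LinearOrder Γ]
    [IsOrderedAddMonoid Γ] (v : K → Γ), IsV v → ∀ φ : K → K, IsPinv p φ → φ 1 = 1 →
    Compat p φ v → ∃ (w : ι → K) (π : ι → K → K), IsPB p w π ∧ VI p v w

/-- [F2C B4] (about 200 lines) The degree of `K` over `K ^ p`.
Proof. Let `d` be the transcendence degree and `x : Fin d → K` a transcendence basis; `L = k(x)` (`IntermediateField.adjoin`).  `K / L` is algebraic and finitely
generated (`FracGen`), so finite.  `[L : L ^ p] = p ^ d`: the monomials `x ^ a`, `a ∈ [0,p)^d`, are a basis (`k` perfect: every polynomial is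
`∑ P_a ^ p x ^ a`, and a fraction is `P / Q = P Q ^ (p-1) / Q ^ p`; independence: compare the exponents mod `p` in a polynomial relation).
`[K : L ^ p] = [K : L] [L : L ^ p] = [K : K ^ p] [K ^ p : L ^ p]` and `[K ^ p : L ^ p] = [K : L]` (Frobenius is an isomorphism of
`K / L` onto `K ^ p / L ^ p`), so `[K : K ^ p] = p ^ d`. -/
def S_B4 : Prop :=
  ∀ (p : ℕ) [Fact p.Prime] (k K : Type) [Field k] [CharP k p] [PerfectRing k p] [Field K]
    [Algebra k K] (n : ℕ) (t : Fin n → K), FracGen k t →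
    ∃ (d : ℕ) (b : Fin (p ^ d) → K) (ρ : Fin (p ^ d) → K → K), Algebra.trdeg k K = d ∧ IsPB p b ρ

/-! ## C. Value group, residue field, frames -/

/-- [F2C C0] (about 60 lines) A finite dimensional space has finitely many values.
Proof. Nonzero elements `f_1, .., f_m` with distinct values are linearly independent over `k` (in a relation with nonzero coefficients the
term of smallest value dominates: `v (∑ c_i f_i) = min`, `v (c_i) = 0`), so there are at most `finrank V` values (an infinite set of values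
contains a finite subset with `finrank V + 1` elements). -/
def S_C0 : Prop :=
  ∀ (k K Γ : Type) [Field k] [Field K] [Algebra k K] [AddCommGroup Γ] [LinearOrder Γ]
    [IsOrderedAddMonoid Γ] (v : K → Γ), IsV v → Triv k v →
    ∀ V : Submodule k K, FiniteDimensional k V → {γ : Γ | ∃ f ∈ V, f ≠ 0 ∧ v f = γ}.Finite

/-- [F2C C1] (about 120 lines) Uses A3, C0. The value group is finitely generated.
Proof. The `π i` are additive and `p⁻¹`-linear (from `IsPB` and `(a+b)^p = a^p + b^p`).  Let `V0` be as in A3; `G` the finite set of the `v (w i)`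
and of the values of `V0` (C0).  (a) For `f ≠ 0` there is `i` with `π i f ≠ 0` and `v f = p v (π i f) + v (w i)`: `v f ≥` the minimum of
these numbers (ultrametric inequality for `f = ∑ (π i f) ^ p w i`), and `≤` by `VI.le`.  (b) By induction on `N`: for `f ≠ 0` there is a word `l` of length `N`
such that `g = wd π l f ≠ 0` and `v f - p ^ N v g` is in the group generated by the `v (w i)`.  (c) For `f = aeval t q ≠ 0` and `N` large, `g ∈ V0`, so `v f` is
in the group generated by `G`; and every `x ≠ 0` is a quotient of such `f`.  `CharP K p` from `k → K`. -/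
def S_C1 : Prop :=
  ∀ (p : ℕ) [Fact p.Prime] (k K Γ : Type) [Field k] [CharP k p] [PerfectRing k p] [Field K]
    [Algebra k K] [AddCommGroup Γ] [LinearOrder Γ] [IsOrderedAddMonoid Γ]
    (n : ℕ) (t : Fin n → K), FracGen k t → ∀ v : K → Γ, IsV v → Triv k v →
    ∀ (ι : Type) [Fintype ι] (w : ι → K) (π : ι → K → K), IsPB p w π → VI p v w →
    (AddSubgroup.closure {γ : Γ | ∃ f, f ≠ 0 ∧ v f = γ}).FG

/-- [F2C C2] (about 70 lines) A basis of the value group.
Proof. `{v f | f ≠ 0}` is a subgroup of `Γ` (`v 1 = 0`, `v f⁻¹ = - v f`), finitely generated and torsion free (ordered), so free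
over `ℤ`; take a basis `γ_i` and `x_i` with `v (x_i) = γ_i`; replace `x_i` by `x_i⁻¹` where
`γ_i < 0` (`γ_i ≠ 0`).  `ex f` = the coordinates of `v f` for `f ≠ 0`, `ex 0 = 0`. -/
def S_C2 : Prop :=
  ∀ (K Γ : Type) [Field K] [AddCommGroup Γ] [LinearOrder Γ] [IsOrderedAddMonoid Γ] (v : K → Γ),
    IsV v → (AddSubgroup.closure {γ : Γ | ∃ f, f ≠ 0 ∧ v f = γ}).FG →
    ∃ (r : ℕ) (x : Fin r → K) (ex : K → Fin r → ℤ), IsVB v x ex

/-- [F2C C3] (about 160 lines) Residue field and angular component.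
Proof. `O = {f | Ge v 0 f}` is a subring, `m = {f | Gt v 0 f}` a maximal ideal of it (`v f = 0` implies `f⁻¹ ∈ O`); `κ = O / m` (a field,
`Ideal.Quotient.field`), a `k`-algebra because `k` is mapped into `O`.
`ac f = [f * ∏ x_i ^ (-(ex f)_i)]`, `ac 0 = 0`.  Multiplicativity from `ex (f g) = ex f + ex g` for nonzero `f, g` (`indep`).  `add`: if `γ` is not a value then both sides are `0`
(an element with `Ge v γ` has `f = 0` or `v f > γ`, and `v (f+g) ≠ γ`); if `γ = v f0`, `m = ex f0`, then for every `f` with `Ge v γ f` one has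
`lc v ac γ f = [f * ∏ x_i ^ (-m_i)]`, which is additive. -/
def S_C3 : Prop :=
  ∀ (k K Γ : Type) [Field k] [Field K] [Algebra k K] [AddCommGroup Γ] [LinearOrder Γ]
    [IsOrderedAddMonoid Γ] (v : K → Γ), IsV v → Triv k v →
    ∀ (r : ℕ) (x : Fin r → K) (ex : K → Fin r → ℤ), IsVB v x ex →
    ∃ (κ : Type) (_ : Field κ) (_ : Algebra k κ) (ac : K → κ), IsAC k v x ac

/-- [F2C C4] (about 200 lines) Uses B1. Count: `[K : K ^ p] = p ^ r [κ : κ ^ p]`.
Proof. Let `m_i = ex (w_i)`, and for a class `c ∈ [0,p)^r` let `I_c = {i | m_i ≡ c mod p}`.  CLAIM: the elements `ac (w_i)`, `i ∈ I_c`, form a basis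
of `κ` over `κ ^ p` (in the sense of `IsPB`).  Independence: let `∑_{I_c} c_i ^ p ac (w_i) = 0`, not all `c_i = 0`; `c_i = ac (f_i)` with `v f_i = 0`
(or `f_i = 0`); `m_i = c + p s_i`; `F = ∑_{I_c} (f_i x ^ (-s_i)) ^ p w_i` has all nonzero terms of value `γ = ⟨c, v x⟩`, so `v F = γ` by `VI` (`≤`) and the
ultrametric inequality (`≥`), `lc v ac γ F = ac F ≠ 0`; but `lc v ac γ F = ∑ ac (f_i) ^ p ac (w_i) = 0` by `IsAC.add`.  Spanning: for `z ∈ κ`, `z ≠ 0`,
take `f` with `v f = γ`, `ac f = z` (`f = g x ^ c`); in `f = ∑ (π_i f) ^ p w_i` all nonzero terms have value `≥ γ` (`VI`), those of value `γ` have `i ∈ I_c`,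
and `z = lc v ac γ f = ∑_{those i} ac (π_i f) ^ p ac (w_i)`.  So every `I_c` has the same number `f` of elements (B1 for `κ`), and there are
`p ^ r` classes. -/
def S_C4 : Prop :=
  ∀ (p : ℕ) [Fact p.Prime] (k K Γ κ : Type) [Field k] [Field K] [Algebra k K] [CharP K p]
    [AddCommGroup Γ] [LinearOrder Γ] [IsOrderedAddMonoid Γ]
    [Field κ] [Algebra k κ] [CharP κ p] (v : K → Γ), IsV v → Triv k v →
    ∀ (r : ℕ) (x : Fin r → K) (ex : K → Fin r → ℤ) (ac : K → κ), IsVB v x ex → IsAC k v x ac →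
    ∀ (ι : Type) [Fintype ι] (w : ι → K) (π : ι → K → K), IsPB p w π → VI p v w →
    ∃ (f : ℕ) (b : Fin f → κ) (ρ : Fin f → κ → κ), IsPB p b ρ ∧ p ^ r * f = Fintype.card ι

/-- [F2C C5] (about 200 lines) Uses B1. A `p`-basis consisting of monomials.
Proof. Call `y : Fin s' → κ` good if the monomials `y ^ j`, `j ∈ [0,p)^s'`, are independent over `κ ^ p`.  The empty family is good; a good
family has `p ^ s' ≤ p ^ s`.  Let `s' < s` and `y` good; `F` = the span of the monomials over `κ ^ p`, a subring (`y_i ^ p ∈ κ ^ p`) of dimension `p ^ s' < p ^ s`, a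
domain of finite dimension over the field `κ ^ p`, so a field; take `z ∉ F`.  CLAIM: `1, z, .., z ^ (p-1)` are independent over `F`, so `(y, z)` is good.  The
minimal polynomial `P` of `z` over `F` divides `X ^ p - z ^ p = (X - z) ^ p` in `κ[X]`, so `P = (X - z) ^ m`, `1 ≤ m ≤ p`; its coefficient of `X ^ (m-1)` is
`- m z`, in `F`; if `m < p` then `z ∈ F`, a contradiction; so the degree is `p`.  After `s` steps the monomials are a basis by B1. -/
def S_C5 : Prop :=
  ∀ (p : ℕ) [Fact p.Prime] (κ : Type) [Field κ] [CharP κ p] (s : ℕ) (b : Fin (p ^ s) → κ)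
    (ρ : Fin (p ^ s) → κ → κ), IsPB p b ρ →
    ∃ (y : Fin s → κ) (ρ' : (Fin s → Fin p) → κ → κ), (∀ i, y i ≠ 0) ∧ IsPB p (monY (p := p) y) ρ'

/-- [F2C C5b] (about 150 lines) Uses B1. Monomials in a valuation basis and in lifts of a `p`-basis of the residue field.
Proof. The family `mon x y l` is valuation independent: let `a ≠ 0`, `μ` the minimum of the `p v (a_l) + v (mon l)` over `a_l ≠ 0`; all terms
have `Ge v μ`, and `lc v ac μ` of the sum is the sum over the `l` where the minimum is attained of `ac (a_l) ^ p ac(y) ^ (j_l)`; these `l = (a, j)` have the same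
`a` (`p ex(a_l) + a` is the same exponent, `0 ≤ a_i < p`), so this is a nontrivial combination of the `ac(y) ^ j`, not `0`: the sum is nonzero of value exactly `μ`
(if its value were `> μ` or the sum `0`, `lc` would be `0`); in particular `≤ p v (a_i) + v (mon i)` for all `a_i ≠ 0`.
It has `p ^ (r + s)` members, so it is a basis by B1. -/
def S_C5b : Prop :=
  ∀ (p : ℕ) [Fact p.Prime] (k K Γ κ : Type) [Field k] [Field K] [Algebra k K] [CharP K p]
    [AddCommGroup Γ] [LinearOrder Γ] [IsOrderedAddMonoid Γ]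
    [Field κ] [Algebra k κ] [CharP κ p] (v : K → Γ), IsV v → Triv k v →
    ∀ (r s : ℕ) (x : Fin r → K) (ex : K → Fin r → ℤ) (ac : K → κ), IsVB v x ex → IsAC k v x ac →
    ∀ (y : Fin s → K) (ρ : (Fin s → Fin p) → κ → κ), (∀ j, y j ≠ 0) → (∀ j, v (y j) = 0) →
    IsPB p (monY (p := p) fun j => ac (y j)) ρ →
    ∀ (ι : Type) [Fintype ι] (w : ι → K) (π : ι → K → K), IsPB p w π →
      Fintype.card ι = p ^ (r + s) →
    ∃ π' : Ix p r s → K → K, Frame k p v x y ex ac π' ρ

/-- [F2C C6] (about 100 lines) Uses B3, C1, C2, C3, C4, C5, C5b. EXISTENCE OF FRAMES.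
Proof. B3: a valuation independent basis `w`.  C1, C2: `x`, `ex`; C3: `κ`, `ac` (`CharP κ p`, `CharP K p` because of `k`).
C4: `p ^ r f = p ^ d`, so `f = p ^ s` with `r + s = d` (`Nat.dvd_prime_pow`).  C5: `ȳ_j`, nonzero; lifts `y_j` with `v (y_j) = 0`, `ac (y_j) = ȳ_j` (`IsAC.surj`).
C5b. -/
def S_C6 : Prop :=
  ∀ (p : ℕ) [Fact p.Prime] (k K Γ : Type) [Field k] [CharP k p] [PerfectRing k p] [Field K]
    [Algebra k K] [AddCommGroup Γ] [LinearOrder Γ] [IsOrderedAddMonoid Γ]
    (n : ℕ) (t : Fin n → K), FracGen k t → ∀ v : K → Γ, IsV v → Triv k v →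
    ∀ φ : K → K, IsPinv p φ → φ 1 = 1 → Compat p φ v →
    ∀ (d : ℕ) (b : Fin (p ^ d) → K) (ρ0 : Fin (p ^ d) → K → K), IsPB p b ρ0 →
    ∃ (r s : ℕ) (κ : Type) (_ : Field κ) (_ : Algebra k κ) (x : Fin r → K) (y : Fin s → K)
      (ex : K → Fin r → ℤ) (ac : K → κ) (π : Ix p r s → K → K) (ρ : (Fin s → Fin p) → κ → κ),
      Frame k p v x y ex ac π ρ ∧ r + s = d

/-- [F2C C8] (about 80 lines) The leading coefficient of `f` from those of the coordinates.
Proof. (a) From `Frame.orth` and the ultrametric inequality, for `f ≠ 0` the minimum of the `p v (π l f) + v (mon l)` (over `π l f ≠ 0`) is `v f`;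
`v (mon x y l) = wt _ (exl l)`, so (`indep`) `v f = p v (π l f) + v (mon l)` iff `ex f = p ex (π l f) + exl l`.
(b) `IsAC.add` (induction over the sum `f = ∑ (π l f) ^ p mon l`, all terms have `Ge v (v f)`):
`ac f = lc v ac (v f) f = ∑ lc v ac (v f) ((π l f) ^ p mon l)`, and `ac (mon x y l) = monY (ac y) l.2`. -/
def S_C8 : Prop :=
  ∀ (p : ℕ) [Fact p.Prime] (k K Γ κ : Type) [Field k] [Field K] [Algebra k K] [CharP K p]
    [AddCommGroup Γ] [LinearOrder Γ] [IsOrderedAddMonoid Γ]
    [Field κ] [Algebra k κ] (v : K → Γ) (r s : ℕ) (x : Fin r → K) (y : Fin s → K)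
      (ex : K → Fin r → ℤ) (ac : K → κ) (π : Ix p r s → K → K) (ρ : (Fin s → Fin p) → κ → κ),
      Frame k p v x y ex ac π ρ → ∀ f, f ≠ 0 →
      (∀ l, π l f ≠ 0 → ex f = (p : ℤ) • ex (π l f) + exl l ∨
        wt (fun i => v (x i)) (ex f) < wt (fun i => v (x i)) ((p : ℤ) • ex (π l f) + exl l)) ∧
      (∃ l, π l f ≠ 0 ∧ ex f = (p : ℤ) • ex (π l f) + exl l) ∧
      (open Classical in
        ac f = ∑ l, if π l f ≠ 0 ∧ ex f = (p : ℤ) • ex (π l f) + exl l
          then ac (π l f) ^ p * monY (fun i => ac (y i)) l.2 else 0)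

/-- [F2C C7] (about 150 lines) Uses A3, C0, C8. The residue field is finitely generated.
Proof. `V0` from A3 (for the `π l`, which are additive and `p⁻¹`-linear).  `A` = the finite set of values of `V0`.  For `γ ∈ A` the set `{lc v ac γ g | g ∈ V0, Ge v γ g}` is a finite dimensional
`k`-subspace of `κ` (image of a subspace of `V0` under a `k`-linear map); let `S ⊆ κ` be a finite set which spans all of them,
together with the `ac (y j)`, and `κ0` the subfield `k(S)`.  CLAIM: if `f ≠ 0` and all `wd π l f`, `l` of length `N`, are in `V0`, then `ac f ∈ κ0`.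
Induction on `N`; `N = 0`: `ac f = lc v ac (v f) f`.  Step: C8.  By A3 the claim applies to all `aeval t q ≠ 0`, and every nonzero element of `κ` is `ac f` and `f` is a quotient. -/
def S_C7 : Prop :=
  ∀ (p : ℕ) [Fact p.Prime] (k K Γ κ : Type) [Field k] [CharP k p] [PerfectRing k p] [Field K]
    [Algebra k K] [AddCommGroup Γ] [LinearOrder Γ] [IsOrderedAddMonoid Γ]
    [Field κ] [Algebra k κ] (n : ℕ) (t : Fin n → K), FracGen k t →
    ∀ (v : K → Γ) (r s : ℕ) (x : Fin r → K) (y : Fin s → K)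
      (ex : K → Fin r → ℤ) (ac : K → κ) (π : Ix p r s → K → K) (ρ : (Fin s → Fin p) → κ → κ),
      Frame k p v x y ex ac π ρ → ∃ (n' : ℕ) (t' : Fin n' → κ), FracGen k t'

/-- [F2C C9] (about 120 lines) The form of the map `φ` in a frame.
Proof. `h = ∑_l φ (mon l) ^ p * (mon l)⁻¹`.  `π 0 (h f)` (`0` = `ix0`, the index with all exponents `0`): both sides are additive and `p⁻¹`-linear in `f`, so take `f = mon l'`:
`π 0 (φ (mon l) ^ p * mon l' / mon l) = φ (mon l) * π 0 (mon l' / mon l)`, and `mon l' / mon l = (x ^ s' y ^ s'') ^ p * mon l''` with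
`l'' = l' - l mod p` componentwise, so by `IsPB.uniq` it is `0` unless `l = l'`, when it is `1`.  So `φ (mon l') = π 0 (h mon l')`.
Value of `h`: `φ 1 = 1 = π 0 h` and `Frame.orth` (`l = 0`, `f = h`) give `v h ≤ 0`; `1 = π 0 1 = φ (h⁻¹)` and compatibility give `- v h = v (h⁻¹) ≤ p v 1 = 0`.
Residual map: put `φb c = ρ 0 (ac h * c)`.  It is `p⁻¹`-linear and additive (`IsPB`).  For `f` with `Ge v 0 f`, let `g = h f`, `Ge v 0 g`; the terms of `g = ∑ (π l g) ^ p mon l` have
`Ge v 0`; take `lc v ac 0` (`IsAC.add`): `lc 0 g = ∑_l lc 0 (π l g) ^ p lc 0 (mon l)`-like sum in which only the `l = (0, j)` contribute (for `a ≠ 0` the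
exponent `p ex + a` is not `0`), so `lc 0 (π (0,0) g) = ρ 0 (lc 0 g) = ρ 0 (ac h * lc 0 f)`.  `φb 1 = 1` from `φ 1 = 1`. -/
def S_C9 : Prop :=
  ∀ (p : ℕ) [Fact p.Prime] (k K Γ κ : Type) [Field k] [Field K] [Algebra k K] [CharP K p]
    [AddCommGroup Γ] [LinearOrder Γ] [IsOrderedAddMonoid Γ]
    [Field κ] [Algebra k κ] [CharP κ p] (v : K → Γ) (r s : ℕ) (x : Fin r → K) (y : Fin s → K)
      (ex : K → Fin r → ℤ) (ac : K → κ) (π : Ix p r s → K → K) (ρ : (Fin s → Fin p) → κ → κ),
      Frame k p v x y ex ac π ρ → ∀ φ : K → K, IsPinv p φ → φ 1 = 1 →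
      ∃ h : K, h ≠ 0 ∧ (∀ f, φ f = π ix0 (h * f)) ∧
        (Compat p φ v → v h = 0 ∧ ∃ φb : κ → κ, IsPinv p φb ∧ φb 1 = 1 ∧
          (∀ c, φb c = ρ j0 (ac h * c)) ∧
          ∀ f, Ge v 0 f → Ge v 0 (φ f) ∧ lc v ac 0 (φ f) = φb (lc v ac 0 f))

end Pool.Agent.F2Ch
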