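import Pool.Agent.Lib.MP_305fdd_al.F2.W.Defs
import Pool.Agent.Lib.MP_305fdd_al.F2.D.Defs
import Pool.Agent.Lib.MP_305fdd_al.F2.PF.DefsB
import Pool.Agent.Lib.MP_305fdd_al.F2.BDefs

/-!
# MP_305fdd_al (`F_2`): the core data (section 0 of the master text)

`Core p k K Λ` contains all the data which the sections W, N, D, S, PF, UL use, and their properties.
`exists_core` (file `CoreEx.lean`) constructs it for every finitely generated group `Λ` in the genus of
the free group of rank two and every algebraically closed field `k` of odd characteristic `p`.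
-/

set_option autoImplicit false

namespace Pool.Agent.F2

open MvPolynomial Pool.Agent.F2Ch Pool.Agent.F2W Pool.Agent.F2RF

noncomputable section

/-- the residue field `k(R)` of `ord_R`: the fraction field of the symmetric Laurent polynomials -/
abbrev KR (k : Type) [Field k] : Type := FractionRing (Sy k)

/-- the inclusion `k[R] → k(R)` -/
abbrev jR (k : Type) [Field k] : Sy k →ₐ[k] KR k := IsScalarTower.toAlgHom k (Sy k) (KR k)

/-- THE CORE DATA.  `T : Λ → K` is the pseudo-character, `cl` the class in `ℤ²`, `B = k[t]` the trace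
ring, `res` the restriction to the reducible locus, `φ` the Cartier operator, `R = ord_R` with the
uniformiser `κ0 = t j0`, the angular component `ac` and the residual map `φR`, `pi : Λ → M` the
quotient by `{T = 2}`. -/
structure Core (p : ℕ) [Fact p.Prime] (k K Λ : Type) [Field k] [CharP k p] [IsAlgClosed k]
    [Field K] [Algebra k K] [Group Λ] where
  odd : p ≠ 2
  /-- the pseudo-character -/
  T : Λ → K
  /-- the class -/
  cl : Λ →* Multiplicative (ℤ × ℤ)
  /-- the image group -/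
  M : Type
  [grpM : Group M]
  pi : Λ →* M
  pc : PC T
  irr : F2D.Irr T
  cl_surj : Function.Surjective cl
  indep : ∃ g h, ¬ Dep (cl g) (cl h)
  two : ∀ u, T u = 2 → ∀ g, T (g * u) = T g ∧ T (u * g) = T g
  dep : ∀ g h, T (g * h * g⁻¹ * h⁻¹) = 2 → Dep (cl g) (cl h)
  pi_surj : Function.Surjective pi
  pi_one : ∀ l, pi l = 1 ↔ T l = 2
  pi_dep : ∀ g h, Commute (pi g) (pi h) → Dep (cl g) (cl h)
  /-- the trace ring -/
  B : Subalgebra k K
  /-- the number of generators -/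
  n : ℕ
  /-- generators of `B` -/
  t : Fin n → K
  j0 : Fin n
  T_mem : ∀ l, T l ∈ B
  adj : Algebra.adjoin k (Set.range T) = B
  mem_B : ∀ f, f ∈ B ↔ ∃ q : MvPolynomial (Fin n) k, aeval t q = f
  fracgen : FracGen k t
  /-- restriction to the reducible locus -/
  res : B →ₐ[k] Lau k
  res_T : ∀ l, res ⟨T l, T_mem l⟩ = ee k (Multiplicative.toAdd (cl l))
  res_sy : ∀ f : B, res f ∈ Sy k
  res_surj : ∀ s ∈ Sy k, ∃ f : B, res f = s
  /-- the Cartier operator -/
  φ : K → K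
  fra : Fra p k B res φ
  tau : ∀ f : B, ∃ N0 : ℕ, ∀ N, N0 ≤ N → φ^[N] (f : K) =
    algebraMap k K ((rt p k)^[N] (ct (res f)))
  log : LogTy p φ
  b0 : Fin (p ^ 3) → K
  ρ0 : Fin (p ^ 3) → K → K
  pb : IsPB p b0 ρ0
  trdeg : Algebra.trdeg k K = 3
  /-- the uniformiser of the reducible locus -/
  κ0 : B
  κ0_t : t j0 = (κ0 : K)
  κ0_ne : (κ0 : K) ≠ 0
  κ0_res : res κ0 = 0
  /-- `q I ⊆ κ0 B` -/
  q : B
  q_res : res q = 1
  q_mul : ∀ f : B, res f = 0 → ∃ c : B, q * f = κ0 * c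
  hord : ∀ f : K, f ≠ 0 → ∃ (n : ℤ) (a b : B), res a ≠ 0 ∧ res b ≠ 0 ∧
    f * b = (κ0 : K) ^ n * a
  /-- `ord_R` -/
  R : K → ℤ
  R_inz : InZ k p φ R
  R_eq : ∀ (f : K) (n : ℤ) (a b : B), res a ≠ 0 → res b ≠ 0 →
    f * b = (κ0 : K) ^ n * a → R f = n
  R_κ0 : R κ0 = 1
  R_nn : ∀ f : B, 0 ≤ R f
  R_pos : ∀ f : B, (f : K) ≠ 0 → (0 < R f ↔ res f = 0)
  R_vb : IsVB R ![(κ0 : K)] (fun f _ => R f)
  tor : ∀ f : B, ∃ f' : B, res f' = th p k (res f) ∧ Gt R 0 (φ f - f')
  /-- the angular component of `ord_R` -/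
  ac : K → KR k
  ac_ac : IsAC k R ![(κ0 : K)] ac
  ac_B : ∀ f : B, res f ≠ 0 → ac f = jR k ⟨res f, res_sy f⟩
  lc_B : ∀ f : B, lc R ac 0 (f : K) = jR k ⟨res f, res_sy f⟩
  /-- the residual map of `φ` at `ord_R` -/
  φR : KR k → KR k
  φR_tor : TorR p k (jR k) φR
  φR_res : ∀ f, Ge R 0 f → Ge R 0 (φ f) ∧ lc R ac 0 (φ f) = φR (lc R ac 0 f)

attribute [instance] Core.grpM

namespace Core

variable {p : ℕ} [Fact p.Prime] {k K Λ : Type} [Field k] [CharP k p] [IsAlgClosed k]
  [Field K] [Algebra k K] [Group Λ] (C : Core p k K Λ)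

/-- `ord_R` as a real valuation -/
def RR (f : K) : ℝ := (C.R f : ℝ)

/-- the traces of the elements of nonzero class -/
def E : Set K := {z | ∃ l, C.cl l ≠ 1 ∧ C.T l = z}

/-- the traces of the elements whose class is nonzero and dependent with `a` -/
def A (a : Multiplicative (ℤ × ℤ)) : Set K :=
  {z | ∃ l, C.cl l ≠ 1 ∧ Dep (C.cl l) a ∧ C.T l = z}

theorem A_sub (a : Multiplicative (ℤ × ℤ)) : C.A a ⊆ C.E :=
  fun _ ⟨l, h1, _, h2⟩ => ⟨l, h1, h2⟩

theorem base : F2PF.Base k p C.φ C.t C.b0 C.ρ0 := ⟨C.fracgen, C.pb, C.fra.pinv, C.fra.one⟩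

theorem Br_eq : F2PF.Br k C.t = (C.B : Set K) := by
  ext f
  exact (C.mem_B f).symm

include C in
theorem two_ne : (2 : k) ≠ 0 := by
  intro h
  have h1 : ((2 : ℕ) : k) = 0 := by exact_mod_cast h
  rw [CharP.cast_eq_zero_iff k p] at h1
  exact C.odd ((Nat.prime_dvd_prime_iff_eq Fact.out Nat.prime_two).1 h1)

/-- an element of `B` as a polynomial in the generators -/
theorem exists_poly (f : C.B) : ∃ q : MvPolynomial (Fin C.n) k, aeval C.t q = (f : K) :=
  (C.mem_B f).1 f.2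

/-- `T l` as an element of `B` -/
def TB (l : Λ) : C.B := ⟨C.T l, C.T_mem l⟩

theorem res_TB (l : Λ) : C.res (C.TB l) = ee k (Multiplicative.toAdd (C.cl l)) := C.res_T l

end Core

end

end Pool.Agent.F2
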