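import Pool.Agent.Lib.MP_305fdd_al.F2.CoreRes
import Pool.Agent.Lib.MP_305fdd_al.F2.Setup
import Pool.Agent.Lib.MP_305fdd_al.F2.RF.W7
import Pool.Agent.Lib.MP_305fdd_al.F2.Ch.B1
import Pool.Agent.Lib.MP_305fdd_al.F2.Ch.B4

/-!
# MP_305fdd_al (`F_2`): existence of the core data
-/

set_option autoImplicit false

namespace Pool.Agent.F2

open MvPolynomial Pool.Agent.F2Ch Pool.Agent.F2W Pool.Agent.F2RF
open Pool.Agent.Lib.MP_305fdd_al Pool.Agent.MP_305fdd_al
open scoped commutatorElement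

noncomputable section

/-! ## Elementary facts -/

theorem rt_iter_pow (p : ℕ) [Fact p.Prime] (k : Type) [Field k] [CharP k p] [PerfectRing k p]
    (c : k) (N : ℕ) : ((rt p k)^[N] c) ^ p ^ N = c := by
  have h1 : ∀ c : k, rt p k c ^ p = c := fun c => by
    show (frobeniusEquiv k p).symm c ^ p = c
    exact (frobeniusEquiv k p).apply_symm_apply c
  induction N with
  | zero => simp
  | succ N ih =>
    rw [Function.iterate_succ_apply', pow_succ, mul_comm, pow_mul, h1, ih]

theorem ee_mem (k : Type) [Field k] (c : ℤ × ℤ) : ee k c ∈ Sy k :=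
  Algebra.subset_adjoin ⟨c, rfl⟩

theorem resA_mem (k : Type) [Field k] (a : Ak k) : resA k a ∈ Sy k := by
  have h : (resA k).range ≤ Sy k := by
    unfold resA
    rw [← Algebra.adjoin_range_eq_range_aeval]
    apply Algebra.adjoin_le
    rintro _ ⟨i, rfl⟩
    fin_cases i
    · exact ee_mem k _
    · exact ee_mem k _
    · exact ee_mem k _
  exact h ⟨a, rfl⟩

theorem th_mem (p : ℕ) [Fact p.Prime] (hp : p ≠ 2) (k : Type) [Field k] [CharP k p]
    [PerfectRing k p] (a : Ak k) : th p k (resA k a) ∈ Sy k := by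
  rw [← t_star p hp]
  exact resA_mem k _

theorem clF_surj : Function.Surjective clF := by
  intro c
  refine ⟨gx ^ c.toAdd.1 * gy ^ c.toAdd.2, ?_⟩
  apply Multiplicative.toAdd.injective
  rw [map_mul, map_zpow, map_zpow, toAdd_mul, toAdd_zpow, toAdd_zpow]
  unfold clF gx gy
  rw [FreeGroup.lift_apply_of, FreeGroup.lift_apply_of]
  simp

theorem not_dep_clF : ¬ Dep (clF gx) (clF gy) := by
  rintro ⟨m, n, h, e⟩
  have e2 := congrArg Multiplicative.toAdd e
  rw [toAdd_mul, toAdd_zpow, toAdd_zpow] at e2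
  unfold clF gx gy at e2
  rw [FreeGroup.lift_apply_of, FreeGroup.lift_apply_of] at e2
  have e3 : ((m, n) : ℤ × ℤ) = 0 := by simpa using e2
  rcases h with h | h
  · exact h (congrArg Prod.fst e3)
  · exact h (congrArg Prod.snd e3)

/-! ## The construction -/

section

variable {p : ℕ} [Fact p.Prime] {k : Type} [Field k] [CharP k p] [PerfectRing k p] {Λ : Type}
  [Group Λ] {f : Fr →* Λ} {cl : Λ →* Multiplicative (ℤ × ℤ)} {D : Type} [CommRing D]
  [Algebra k D] {T : Λ → D} {res : D →ₐ[k] Lau k} {g : Fin 3 → D} {φ : Ak k →ₐ[k] D}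
  {K : Type} [Field K] [Algebra k K] [Algebra D K] [IsScalarTower k D K] [IsFractionRing D K]
  {O : ValuationSubring K} {ρ : O →+* Mf k} {h : K} {Φ : K → K}

omit [Algebra k K] [IsScalarTower k D K] [IsFractionRing D K] in
theorem OR.frac (hO : OR φ res K O ρ) (u : O) : ∃ a b : D, res b ≠ 0 ∧
    (u : K) * algebraMap D K b = algebraMap D K a ∧
    ρ u * algebraMap (Lau k) (Mf k) (res b) = algebraMap (Lau k) (Mf k) (res a) := by
  obtain ⟨a, b, h1, h2⟩ := (hO.mem u).1 u.2
  refine ⟨a, b, h1, h2, ?_⟩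
  rw [← hO.ρ_D, ← hO.ρ_D, ← map_mul]
  congr 1
  exact Subtype.ext h2

variable (k D K) in
/-- `D → K` -/
abbrev iDK : D →ₐ[k] K := IsScalarTower.toAlgHom k D K

variable (k D K) in
theorem iDK_inj : Function.Injective (iDK k D K) := IsFractionRing.injective D K

variable (K) in
/-- `res` on the range of `D → K` -/
def resB (res : D →ₐ[k] Lau k) : (iDK k D K).range →ₐ[k] Lau k :=
  res.comp (AlgEquiv.ofInjective (iDK k D K) (iDK_inj k D K)).symm.toAlgHom

variable (k K) in
/-- an element of `D` as an element of the range -/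
def toB (d : D) : (iDK k D K).range := AlgEquiv.ofInjective (iDK k D K) (iDK_inj k D K) d

theorem toB_coe (d : D) : ((toB k K d : (iDK k D K).range) : K) = algebraMap D K d := rfl

theorem toB_surj (b : (iDK k D K).range) : ∃ d : D, toB k K d = b :=
  (AlgEquiv.ofInjective (iDK k D K) (iDK_inj k D K)).surjective b

theorem resB_toB (d : D) : resB K res (toB k K d) = res d := by
  show res ((AlgEquiv.ofInjective (iDK k D K) (iDK_inj k D K)).symm
    (AlgEquiv.ofInjective (iDK k D K) (iDK_inj k D K) d)) = res d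
  rw [AlgEquiv.symm_apply_apply]

theorem od (hR : RD k Λ f cl D T res) (hE : Emb Λ f cl) (hB : BD p k D φ res g)
    (hO : OR φ res K O ρ) :
    OD (iDK k D K).range (resB K res) (toB k K (φ (kap k))) := by
  refine ⟨?_, ?_, ?_, ?_, ?_⟩
  · rw [toB_coe]
    intro h
    exact hB.kne (IsFractionRing.injective D K (h.trans (map_zero _).symm))
  · rw [resB_toB, hB.res_φ, t_kera]
  · intro b
    obtain ⟨d, rfl⟩ := toB_surj b
    rw [resB_toB]
    obtain ⟨a, ha⟩ := hB.rng d
    rw [ha]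
    exact resA_mem k a
  · intro s hs
    have h1 : Sy k ≤ res.range := by
      apply Algebra.adjoin_le
      rintro _ ⟨c, rfl⟩
      obtain ⟨w, hw⟩ := clF_surj (Multiplicative.ofAdd c)
      refine ⟨T (f w), ?_⟩
      show res (T (f w)) = _
      rw [hR.res_T, ← MonoidHom.comp_apply, hE.clf, hw]
      rfl
    obtain ⟨d, hd⟩ := h1 hs
    exact ⟨toB k K d, by rw [resB_toB]; exact hd⟩
  · intro x hx
    obtain ⟨n, u, h1, h2⟩ := hO.unif x hx
    obtain ⟨a, b, h3, h4, h5⟩ := hO.frac u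
    refine ⟨n, toB k K a, toB k K b, ?_, ?_, ?_⟩
    · rw [resB_toB]
      intro h6
      rw [h6, map_zero] at h5
      have h7 : algebraMap (Lau k) (Mf k) (res b) ≠ 0 := fun h8 =>
        h3 (IsFractionRing.injective (Lau k) (Mf k) (h8.trans (map_zero _).symm))
      exact mul_ne_zero h1 h7 h5
    · rwa [resB_toB]
    · rw [toB_coe, toB_coe, toB_coe, h2, mul_assoc, h4]

theorem resTor (hF : FB p φ res K O ρ h Φ) :
    ResTor p (iDK k D K).range (resB K res) Φ := by
  intro b
  obtain ⟨d, rfl⟩ := toB_surj b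
  obtain ⟨w, h1, h2⟩ := hF.tor d
  obtain ⟨a, b, h3, h4, h5⟩ := hF.or.frac w
  refine ⟨toB k K a, toB k K b, by rwa [resB_toB], ?_, ?_⟩
  · rw [toB_coe, toB_coe, toB_coe, ← h1, h4]
  · rw [resB_toB, resB_toB, resB_toB]
    rw [h2, ← map_mul] at h5
    exact (IsFractionRing.injective (Lau k) (Mf k) h5).symm

omit [Algebra k K] [IsScalarTower k D K] in
theorem mb (hB : BD p k D φ res g) (hF : FB p φ res K O ρ h Φ) :
    MB p (xK φ K) (fun e f => cof p (xK φ K) f e) := by
  refine ⟨?_, hF.pb⟩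
  intro i hi
  have h1 : φ (X i) = 0 :=
    IsFractionRing.injective D K (hi.trans (map_zero _).symm)
  have h2 := hB.res_φ (X i)
  rw [h1, map_zero] at h2
  have h3 : ∀ c : ℤ × ℤ, ee k c ≠ 0 := by
    intro c hc
    have h4 : (ee k c).coeff c = 0 := by
      rw [hc]
      rfl
    have h2' : (2 : k) ≠ 0 := by
      intro h
      have h1 : ((2 : ℕ) : k) = 0 := by exact_mod_cast h
      rw [CharP.cast_eq_zero_iff k p] at h1
      exact hB.odd ((Nat.prime_dvd_prime_iff_eq Fact.out Nat.prime_two).1 h1)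
    unfold ee at h4
    rw [AddMonoidAlgebra.coeff_add, AddMonoidAlgebra.coeff_single, AddMonoidAlgebra.coeff_single,
      Finsupp.add_apply, Finsupp.single_eq_same, Finsupp.single_apply] at h4
    split_ifs at h4
    · apply h2'
      rw [← one_add_one_eq_two]
      exact h4
    · rw [add_zero] at h4
      exact one_ne_zero h4
  unfold resA at h2
  rw [aeval_X] at h2
  fin_cases i
  · exact h3 _ h2.symm
  · exact h3 _ h2.symm
  · exact h3 _ h2.symm

omit [Algebra k K] [IsScalarTower k D K] in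
theorem logTy [CharP K p] (hB : BD p k D φ res g) (hF : FB p φ res K O ρ h Φ) : LogTy p Φ := by
  refine (p_W7 p K 3 (xK φ K) _ (mb hB hF)).2.2 Φ h (top3 p) hF.h_ne (fun _ => rfl) ?_
  intro x
  rw [hF.def_Φ, div_eq_inv_mul, mul_comm x h]
  rfl

theorem trdeg3 [CharP K p] (n : ℕ) (t : Fin n → K) (ht : FracGen k t)
    (b0 : Fin (p ^ 3) → K) (ρ0 : Fin (p ^ 3) → K → K) (h0 : IsPB p b0 ρ0) :
    Algebra.trdeg k K = 3 := by
  obtain ⟨d, b, ρ', h1, h2⟩ := p_B4 p k K n t ht
  have hp : 1 < p := (Fact.out : p.Prime).one_lt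
  have key : ∀ (ι ι' : Type) [Fintype ι] [Fintype ι'] (b : ι → K) (r : ι → K → K) (b' : ι' → K)
      (r' : ι' → K → K), IsPB p b r → IsPB p b' r' → Fintype.card ι' ≤ Fintype.card ι := by
    intro ι ι' _ _ b r b' r' hb hb'
    refine (p_B1 p K ι b r hb ι' b' ?_).1
    intro a ha
    funext i
    have h3 := hb'.uniq a i
    have h4 := hb'.uniq 0 i
    rw [ha] at h3
    have h5 : ∑ j, (0 : ι' → K) j ^ p * b' j = 0 := by
      apply Finset.sum_eq_zero
      intro j _
      rw [Pi.zero_apply, zero_pow (Fact.out : p.Prime).ne_zero, zero_mul]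
    rw [h5] at h4
    rw [← h3, h4]
  have k1 := key _ _ b ρ' b0 ρ0 h2 h0
  have k2 := key _ _ b0 ρ0 b ρ' h0 h2
  rw [Fintype.card_fin, Fintype.card_fin] at k1 k2
  have h3 : d = 3 := Nat.pow_right_injective hp (le_antisymm k2 k1)
  rw [h1, h3]
  rfl

omit [IsFractionRing D K] in
variable (k D K) in
/-- generators of `D` in `K`, the first one is a given element -/
theorem gens (hD : Algebra.FiniteType k D) (d0 : D) : ∃ (n : ℕ) (t : Fin n → K) (j0 : Fin n),
    t j0 = algebraMap D K d0 ∧ (∀ x : K, x ∈ (iDK k D K).range ↔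
      ∃ q : MvPolynomial (Fin n) k, aeval t q = x) := by
  obtain ⟨s, hs⟩ := hD.out
  let t' : Fin (s.card + 1) → D := Fin.cons d0 fun j => (s.equivFin.symm j : D)
  have ht' : Algebra.adjoin k (Set.range t') = ⊤ := by
    rw [← top_le_iff, ← hs]
    apply Algebra.adjoin_mono
    intro x hx
    refine ⟨Fin.succ (s.equivFin ⟨x, hx⟩), ?_⟩
    show Fin.cons (α := fun _ => D) d0 (fun j => (s.equivFin.symm j : D)) (Fin.succ _) = x
    rw [Fin.cons_succ, Equiv.symm_apply_apply]
  refine ⟨s.card + 1, fun i => algebraMap D K (t' i), 0, rfl, ?_⟩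
  intro x
  have h1 : ∀ q : MvPolynomial (Fin (s.card + 1)) k,
      aeval (fun i => algebraMap D K (t' i)) q = algebraMap D K (aeval t' q) := by
    intro q
    exact MvPolynomial.aeval_algebraMap_apply K t' q
  constructor
  · rintro ⟨d, rfl⟩
    have h2 : d ∈ Algebra.adjoin k (Set.range t') := by
      rw [ht']
      trivial
    rw [Algebra.adjoin_range_eq_range_aeval] at h2
    obtain ⟨q, hq⟩ := h2
    exact ⟨q, by rw [h1]; exact congrArg (algebraMap D K) hq⟩
  · rintro ⟨q, rfl⟩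
    exact ⟨aeval t' q, by rw [h1]; rfl⟩

end

section

variable {p : ℕ} [Fact p.Prime] {k : Type} [Field k] [CharP k p] [IsAlgClosed k] {Λ : Type}
  [Group Λ] {f : Fr →* Λ} {cl : Λ →* Multiplicative (ℤ × ℤ)} {D : Type} [CommRing D]
  [Algebra k D] {T : Λ → D} {res : D →ₐ[k] Lau k} {g : Fin 3 → D} {φ : Ak k →ₐ[k] D}
  {K : Type} [Field K] [Algebra k K] [Algebra D K] [IsScalarTower k D K] [IsFractionRing D K]
  {O : ValuationSubring K} {ρ : O →+* Mf k} {h : K} {Φ : K → K}

theorem core_of (hR : RD k Λ f cl D T res) (hE : Emb Λ f cl) (hB : BD p k D φ res g)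
    (hF : FB p φ res K O ρ h Φ) : Nonempty (Core p k K Λ) := by
  have hinj : Function.Injective (algebraMap D K) := IsFractionRing.injective D K
  have : CharP K p := charP_of_injective_algebraMap (algebraMap k K).injective p
  have : IsDomain D := hB.dom
  obtain ⟨M, iM, pi, hpi1, hpi2, hpi3, hpi4⟩ := hR.exists_pi' K hinj
  obtain ⟨n, t, j0, ht1, ht2⟩ := gens k D K hB.ft (φ (kap k))
  have O' := od (K := K) hR hE hB hF.or
  have hres := resTor hF
  have key2 : ∀ x : D, algebraMap D K x = 2 ↔ x = 2 := by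
    intro x
    constructor
    · intro hx
      apply hinj
      rw [hx, map_ofNat]
    · rintro rfl
      rw [map_ofNat]
  have hgen : ∀ x : K, ∃ a b : (iDK k D K).range, (b : K) ≠ 0 ∧ x * b = a := by
    intro x
    obtain ⟨a, b, hb, rfl⟩ := IsFractionRing.div_surjective (A := D) x
    have hb0 : algebraMap D K b ≠ 0 := IsFractionRing.to_map_ne_zero_of_mem_nonZeroDivisors hb
    exact ⟨toB k K a, toB k K b, hb0, div_mul_cancel₀ _ hb0⟩
  have hfg : FracGen k t := by
    intro x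
    obtain ⟨a, b, h1, h2⟩ := hgen x
    obtain ⟨qa, ha⟩ := (ht2 a).1 a.2
    obtain ⟨qb, hb⟩ := (ht2 b).1 b.2
    exact ⟨qa, qb, by rw [hb]; exact h1, by rw [hb, ha]; exact h2⟩
  have htau : ∀ b : (iDK k D K).range, ∃ N0 : ℕ, ∀ N, N0 ≤ N → Φ^[N] (b : K) =
      algebraMap k K ((rt p k)^[N] (ct (resB K res b))) := by
    intro b
    obtain ⟨d, rfl⟩ := toB_surj b
    obtain ⟨N0, hN⟩ := hF.tau d
    refine ⟨N0, fun N hN0 => ?_⟩
    rw [resB_toB, toB_coe, hN N hN0, ← IsScalarTower.algebraMap_apply]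
  obtain ⟨b0, ρ0, hpb⟩ : ∃ (b0 : Fin (p ^ 3) → K) (ρ0 : Fin (p ^ 3) → K → K),
      IsPB p b0 ρ0 := by
    let e : (Fin 3 → Fin p) ≃ Fin (p ^ 3) := finFunctionFinEquiv
    refine ⟨fun i => monY (xK φ K) (e.symm i), fun i x => cof p (xK φ K) x (e.symm i), ?_, ?_⟩
    · intro x
      rw [← Equiv.sum_comp e]
      simp only [Equiv.symm_apply_apply]
      exact hF.pb.repr x
    · intro a i
      have h1 := hF.pb.uniq (fun j => a (e j)) (e.symm i)
      rw [Equiv.apply_symm_apply] at h1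
      rw [← h1, ← Equiv.sum_comp e]
      simp only [Equiv.symm_apply_apply]
  obtain ⟨q, hq1, hq2⟩ := hB.loc
  have hclf : ∀ w, cl (f w) = clF w := fun w => DFunLike.congr_fun hE.clf w
  exact ⟨{
    odd := hB.odd
    T := fun l => algebraMap D K (T l)
    cl := cl
    M := M
    grpM := iM
    pi := pi
    pc := ⟨by rw [hR.pc.one, map_ofNat], fun g h => by rw [hR.pc.comm], fun g h => by
      rw [← map_add, hR.pc.rel, map_mul]⟩
    irr := ⟨f gx, f gy, fun h => hR.kne ((key2 _).1 h)⟩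
    cl_surj := fun c => by
      obtain ⟨w, hw⟩ := clF_surj c
      exact ⟨f w, (hclf w).trans hw⟩
    indep := ⟨f gx, f gy, by rw [hclf, hclf]; exact not_dep_clF⟩
    two := fun u hu g => by
      have h1 := hR.two u ((key2 _).1 hu) g
      exact ⟨by rw [h1], by rw [hR.pc.comm, h1]⟩
    dep := fun g h hgh => hR.dep g h ((key2 _).1 hgh)
    pi_surj := hpi1
    pi_one := hpi2
    pi_dep := hpi3
    B := (iDK k D K).range
    n := n
    t := t
    j0 := j0
    T_mem := fun l => ⟨T l, rfl⟩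
    adj := by
      have h1 := congrArg (Subalgebra.map (iDK k D K)) hR.gen
      rw [AlgHom.map_adjoin, ← Set.range_comp, Algebra.map_top] at h1
      exact h1
    mem_B := ht2
    fracgen := hfg
    res := resB K res
    res_T := fun l => by
      have h1 := resB_toB (K := K) (res := res) (T l)
      rw [← hR.res_T, ← h1]
      rfl
    res_sy := O'.sy
    res_surj := O'.surj
    φ := Φ
    fra := ⟨hgen, hF.pinv, hF.one, fun b => by
      obtain ⟨N0, hN⟩ := htau b
      refine ⟨N0, fun N hN0 => ?_⟩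
      rw [hN N hN0, ← map_pow, rt_iter_pow]⟩
    tau := htau
    log := logTy hB hF
    b0 := b0
    ρ0 := ρ0
    pb := hpb
    trdeg := trdeg3 n t hfg b0 ρ0 hpb
    κ0 := toB k K (φ (kap k))
    κ0_t := ht1
    κ0_ne := O'.ne
    κ0_res := O'.rk
    q := toB k K q
    q_res := by rw [resB_toB, hq1]
    q_mul := fun b hb => by
      obtain ⟨d, rfl⟩ := toB_surj b
      rw [resB_toB] at hb
      obtain ⟨c, hc⟩ := hq2 d hb
      refine ⟨toB k K c, Subtype.ext ?_⟩
      show algebraMap D K q * algebraMap D K d = algebraMap D K (φ (kap k)) * algebraMap D K c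
      rw [← map_mul, hc, map_mul]
    hord := O'.ord
    R := ordR O'
    R_inz := ⟨O'.isV, O'.triv, O'.compat hF.pinv hres⟩
    R_eq := fun x m a b h1 h2 h3 => (O'.ordR_eq ⟨h2, h3⟩ h1).2
    R_κ0 := O'.ordR_κ0
    R_nn := O'.ordR_nn
    R_pos := O'.ordR_pos
    R_vb := O'.isVB
    tor := fun b => by
      obtain ⟨d, rfl⟩ := toB_surj b
      obtain ⟨a, ha⟩ := hB.rng d
      obtain ⟨b', hb'⟩ := O'.surj _ (th_mem p hB.odd k a)
      have h1 : resB K res b' = th p k (resB K res (toB k K d)) := by rw [resB_toB, ha, hb']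
      exact ⟨b', h1, O'.tor hres _ _ h1⟩
    ac := acR O'
    ac_ac := O'.isAC
    ac_B := O'.ac_B
    lc_B := O'.lc_B
    φR := O'.phiR Φ
    φR_tor := O'.torR hF.pinv hF.one hres
    φR_res := fun x hx => O'.phiR_eq hF.pinv hres hx }⟩

end

/-- EXISTENCE OF THE CORE DATA -/
theorem exists_core (p : ℕ) [Fact p.Prime] (hp : p ≠ 2) (k : Type) [Field k] [CharP k p]
    [IsAlgClosed k] (Λ : Type) [Group Λ] [Group.FG Λ] (hΛ : SameFiniteQuotients Λ Fr) :
    ∃ (K : Type) (_ : Field K) (_ : Algebra k K), Nonempty (Core p k K Λ) := by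
  obtain ⟨f, cl, D, i1, i2, T, res, g, φ, hE, hR, h1, hB, hF⟩ := exists_setup p hp k Λ hΛ
  have := hB.dom
  obtain ⟨O, ρ, h, Φ, h2⟩ := hF (FractionRing D)
  exact ⟨FractionRing D, inferInstance, inferInstance, core_of hR hE hB h2⟩

end

end Pool.Agent.F2
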