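import Pool.Agent.Lib.MP_305fdd_al.F2.Core

/-!
# MP_305fdd_al (`F_2`): the discrete valuation `ord_R`, its residue field and residual map
-/

set_option autoImplicit false

namespace Pool.Agent.F2

open MvPolynomial Pool.Agent.F2Ch Pool.Agent.F2W Pool.Agent.F2RF

noncomputable section

/-- the data from which `ord_R` is constructed -/
structure OD {k K : Type} [Field k] [Field K] [Algebra k K] (B : Subalgebra k K)
    (res : B →ₐ[k] Lau k) (κ0 : B) : Prop where
  ne : (κ0 : K) ≠ 0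
  rk : res κ0 = 0
  sy : ∀ f : B, res f ∈ Sy k
  surj : ∀ s ∈ Sy k, ∃ f : B, res f = s
  ord : ∀ f : K, f ≠ 0 → ∃ (n : ℤ) (a b : B), res a ≠ 0 ∧ res b ≠ 0 ∧ f * b = (κ0 : K) ^ n * a

/-- `f = κ0 ^ n * a / b`, `b` a unit along the reducible locus -/
def Rep {k K : Type} [Field k] [Field K] [Algebra k K] {B : Subalgebra k K}
    (res : B →ₐ[k] Lau k) (κ0 : B) (f : K) (n : ℤ) (a b : B) : Prop :=
  res b ≠ 0 ∧ f * b = (κ0 : K) ^ n * a

section

variable {k K : Type} [Field k] [Field K] [Algebra k K] {B : Subalgebra k K}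
  {res : B →ₐ[k] Lau k} {κ0 : B}

theorem B_ne {b : B} (h : res b ≠ 0) : (b : K) ≠ 0 := by
  intro h0
  apply h
  have : b = 0 := Subtype.ext h0
  rw [this, map_zero]

namespace OD

variable (D : OD B res κ0)

include D in
theorem cmp {f : K} {n m : ℤ} {a b a' b' : B} (h : Rep res κ0 f n a b) (h' : Rep res κ0 f m a' b')
    (hnm : m ≤ n) : (m < n → res a' = 0) ∧ (m = n → res a * res b' = res a' * res b) := by
  obtain ⟨hb, e⟩ := h
  obtain ⟨hb', e'⟩ := h'
  obtain ⟨j, hj⟩ := Int.eq_ofNat_of_zero_le (sub_nonneg.2 hnm)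
  obtain rfl : n = m + (j : ℤ) := by omega
  have hk : (κ0 : K) ^ m ≠ 0 := zpow_ne_zero _ D.ne
  have h1 : (κ0 : K) ^ m * ((κ0 : K) ^ j * (a * b')) = (κ0 : K) ^ m * (a' * b) := by
    rw [zpow_add₀ D.ne, zpow_natCast] at e
    linear_combination (-(b' : K)) * e + (b : K) * e'
  have h2 := mul_left_cancel₀ hk h1
  have h3 : κ0 ^ j * (a * b') = a' * b := Subtype.ext (by simpa using h2)
  have h4 := congrArg res h3
  simp only [map_mul, map_pow, D.rk] at h4
  constructor
  · intro hlt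
    have hj : j ≠ 0 := by rintro rfl; simp at hlt
    rw [zero_pow hj, zero_mul] at h4
    exact (mul_eq_zero.1 h4.symm).resolve_right hb
  · intro hme
    have hj : j = 0 := by omega
    rw [hj, pow_zero, one_mul] at h4
    exact h4

include D in
theorem uniq {f : K} {n m : ℤ} {a b a' b' : B} (h : Rep res κ0 f n a b)
    (h' : Rep res κ0 f m a' b') (ha : res a ≠ 0) (ha' : res a' ≠ 0) :
    n = m ∧ res a * res b' = res a' * res b := by
  have e : n = m := by
    rcases lt_trichotomy n m with hl | hl | hl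
    · exact absurd ((D.cmp h' h hl.le).1 hl) ha
    · exact hl
    · exact absurd ((D.cmp h h' hl.le).1 hl) ha'
  exact ⟨e, (D.cmp h h' e.ge).2 e.symm⟩

theorem rep_add {f g : K} {n : ℤ} {a b a' b' : B} (h : Rep res κ0 f n a b)
    (h' : Rep res κ0 g n a' b') : Rep res κ0 (f + g) n (a * b' + a' * b) (b * b') := by
  refine ⟨by rw [map_mul]; exact mul_ne_zero h.1 h'.1, ?_⟩
  push_cast
  linear_combination (b' : K) * h.2 + (b : K) * h'.2

include D in
theorem rep_mul {f g : K} {n m : ℤ} {a b a' b' : B} (h : Rep res κ0 f n a b)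
    (h' : Rep res κ0 g m a' b') : Rep res κ0 (f * g) (n + m) (a * a') (b * b') := by
  refine ⟨by rw [map_mul]; exact mul_ne_zero h.1 h'.1, ?_⟩
  push_cast
  rw [zpow_add₀ D.ne]
  linear_combination (g * b' : K) * h.2 + ((κ0 : K) ^ n * a) * h'.2

include D in
theorem rep_le {f : K} {n : ℤ} {a b : B} (h : Rep res κ0 f n a b) (m : ℤ) (j : ℕ)
    (hj : n = m + j) : Rep res κ0 f m (κ0 ^ j * a) b := by
  refine ⟨h.1, ?_⟩
  rw [h.2, hj, zpow_add₀ D.ne, zpow_natCast]
  push_cast
  ring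

include D in
theorem exists_rep (f : K) (hf : f ≠ 0) : ∃ (n : ℤ) (a b : B), res a ≠ 0 ∧
    Rep res κ0 f n a b := by
  obtain ⟨n, a, b, h1, h2, h3⟩ := D.ord f hf
  exact ⟨n, a, b, h1, h2, h3⟩

end OD

open Classical in
/-- the order along the reducible locus -/
def ordR (D : OD B res κ0) (f : K) : ℤ := if h : f = 0 then 0 else (D.exists_rep f h).choose

open Classical in
/-- the angular component of `ord_R` -/
def acR (D : OD B res κ0) (f : K) : KR k :=
  if h : f = 0 then 0 else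
    jR k ⟨res (D.exists_rep f h).choose_spec.choose, D.sy _⟩ /
      jR k ⟨res (D.exists_rep f h).choose_spec.choose_spec.choose, D.sy _⟩

namespace OD

variable (D : OD B res κ0)

theorem jR_inj (k : Type) [Field k] : Function.Injective (jR k) :=
  IsFractionRing.injective (Sy k) (KR k)

theorem jR_ne (D : OD B res κ0) {b : B} (h : res b ≠ 0) : jR k ⟨res b, D.sy b⟩ ≠ 0 := by
  intro h0
  apply h
  have := jR_inj k (h0.trans (map_zero _).symm)
  exact congrArg Subtype.val this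

theorem ordR_eq {f : K} {n : ℤ} {a b : B} (h : Rep res κ0 f n a b) (ha : res a ≠ 0) :
    f ≠ 0 ∧ ordR D f = n := by
  have hf : f ≠ 0 := by
    rintro rfl
    have h2 := h.2
    rw [zero_mul] at h2
    exact mul_ne_zero (zpow_ne_zero _ D.ne) (B_ne ha) h2.symm
  refine ⟨hf, ?_⟩
  unfold ordR
  rw [dif_neg hf]
  obtain ⟨h1, h2⟩ := (D.exists_rep f hf).choose_spec.choose_spec.choose_spec
  exact (D.uniq h2 h h1 ha).1

theorem acR_eq {f : K} {n : ℤ} {a b : B} (h : Rep res κ0 f n a b) (ha : res a ≠ 0) :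
    acR D f = jR k ⟨res a, D.sy a⟩ / jR k ⟨res b, D.sy b⟩ := by
  have hf := (D.ordR_eq h ha).1
  unfold acR
  rw [dif_neg hf]
  obtain ⟨h1, h2⟩ := (D.exists_rep f hf).choose_spec.choose_spec.choose_spec
  have h3 := (D.uniq h2 h h1 ha).2
  rw [div_eq_div_iff (D.jR_ne h2.1) (D.jR_ne h.1), ← map_mul, ← map_mul]
  congr 1
  exact Subtype.ext h3

theorem ordR_zero : ordR D 0 = 0 := by
  unfold ordR
  rw [dif_pos rfl]

theorem acR_zero : acR D 0 = 0 := by
  unfold acR
  rw [dif_pos rfl]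

theorem gt_of_rep {f : K} {n : ℤ} {a b : B} (h : Rep res κ0 f n a b) (ha : res a = 0) :
    Gt (ordR D) n f := by
  by_cases hf : f = 0
  · exact Or.inl hf
  · right
    obtain ⟨m, a', b', h1, h2⟩ := D.exists_rep f hf
    rw [(D.ordR_eq h2 h1).2]
    rcases lt_trichotomy n m with hl | hl | hl
    · exact hl
    · exfalso
      have h3 := (D.cmp h h2 hl.ge).2 hl.symm
      rw [ha, zero_mul] at h3
      exact mul_ne_zero h1 h.1 h3.symm
    · exact absurd ((D.cmp h h2 hl.le).1 hl) h1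

theorem ge_of_rep {f : K} {n : ℤ} {a b : B} (h : Rep res κ0 f n a b) : Ge (ordR D) n f := by
  by_cases ha : res a = 0
  · exact (D.gt_of_rep h ha).imp id le_of_lt
  · exact Or.inr (D.ordR_eq h ha).2.ge

theorem rep_of_ge {f : K} {n : ℤ} (h : Ge (ordR D) n f) : ∃ a b, Rep res κ0 f n a b := by
  by_cases hf : f = 0
  · refine ⟨0, 1, by rw [map_one]; exact one_ne_zero, ?_⟩
    rw [hf]
    simp
  · obtain ⟨m, a, b, h1, h2⟩ := D.exists_rep f hf
    have h3 := h.resolve_left hf
    rw [(D.ordR_eq h2 h1).2] at h3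
    obtain ⟨j, hj⟩ := Int.eq_ofNat_of_zero_le (sub_nonneg.2 h3)
    exact ⟨_, _, D.rep_le h2 n j (by omega)⟩

theorem lc_of_rep {f : K} {n : ℤ} {a b : B} (h : Rep res κ0 f n a b) :
    lc (ordR D) (acR D) n f = jR k ⟨res a, D.sy a⟩ / jR k ⟨res b, D.sy b⟩ := by
  by_cases ha : res a = 0
  · have h1 := D.gt_of_rep h ha
    have h2 : (⟨res a, D.sy a⟩ : Sy k) = 0 := Subtype.ext ha
    rw [h2, map_zero, zero_div]
    unfold lc
    rw [if_neg]
    rintro ⟨h3, h4⟩
    exact absurd h4 (h1.resolve_left h3).ne'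
  · unfold lc
    rw [if_pos (D.ordR_eq h ha), D.acR_eq h ha]

theorem isV : IsV (ordR D) := by
  refine ⟨D.ordR_zero, ?_, ?_⟩
  · intro x y hx hy
    obtain ⟨n, a, b, h1, h2⟩ := D.exists_rep x hx
    obtain ⟨m, a', b', h1', h2'⟩ := D.exists_rep y hy
    rw [(D.ordR_eq h2 h1).2, (D.ordR_eq h2' h1').2,
      (D.ordR_eq (D.rep_mul h2 h2') (by rw [map_mul]; exact mul_ne_zero h1 h1')).2]
  · intro x y hx hy hxy
    obtain ⟨a, b, h⟩ := D.rep_of_ge (Or.inr (min_le_left (ordR D x) (ordR D y)))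
    obtain ⟨a', b', h'⟩ := D.rep_of_ge (Or.inr (min_le_right (ordR D x) (ordR D y)))
    exact (D.ge_of_rep (rep_add h h')).resolve_left hxy

theorem triv : Triv k (ordR D) := by
  intro c
  by_cases hc : c = 0
  · rw [hc, map_zero]
    exact D.ordR_zero
  · have h : Rep res κ0 (algebraMap k K c) 0 (algebraMap k B c) 1 := by
      refine ⟨by rw [map_one]; exact one_ne_zero, ?_⟩
      rw [zpow_zero, one_mul]
      simp
    refine (D.ordR_eq h ?_).2
    rw [AlgHom.commutes]
    intro h0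
    exact hc ((algebraMap k (Lau k)).injective (h0.trans (map_zero _).symm))

theorem rep_κ0 : Rep res κ0 (κ0 : K) 1 1 1 := by
  refine ⟨by rw [map_one]; exact one_ne_zero, ?_⟩
  simp

theorem ordR_κ0 : ordR D κ0 = 1 :=
  (D.ordR_eq rep_κ0 (by rw [map_one]; exact one_ne_zero)).2

theorem rep_B (f : B) : Rep res κ0 (f : K) 0 f 1 := by
  refine ⟨by rw [map_one]; exact one_ne_zero, ?_⟩
  simp

theorem ordR_nn (f : B) : 0 ≤ ordR D f := by
  rcases D.ge_of_rep (rep_B f) with h | h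
  · rw [h, D.ordR_zero]
  · exact h

theorem ordR_pos (f : B) (hf : (f : K) ≠ 0) : 0 < ordR D f ↔ res f = 0 := by
  constructor
  · intro h
    by_contra h1
    rw [(D.ordR_eq (rep_B f) h1).2] at h
    exact lt_irrefl _ h
  · intro h
    exact (D.gt_of_rep (rep_B f) h).resolve_left hf

theorem isVB : IsVB (ordR D) ![(κ0 : K)] (fun f _ => ordR D f) := by
  have hw : ∀ m : Fin 1 → ℤ, wt (fun i => ordR D (![(κ0 : K)] i)) m = m 0 := by
    intro m
    unfold wt
    simp [D.ordR_κ0]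
  refine ⟨?_, ?_, ?_, ?_, ?_⟩
  · intro i
    fin_cases i
    exact D.ne
  · intro i
    fin_cases i
    show 0 < ordR D κ0
    rw [D.ordR_κ0]
    exact one_pos
  · intro m hm
    rw [hw] at hm
    funext i
    fin_cases i
    exact hm
  · intro f _
    rw [hw]
  · funext i
    exact D.ordR_zero

theorem lc_B (f : B) : lc (ordR D) (acR D) 0 (f : K) = jR k ⟨res f, D.sy f⟩ := by
  rw [D.lc_of_rep (rep_B f)]
  have h2 : (⟨res 1, D.sy 1⟩ : Sy k) = 1 := Subtype.ext (map_one res)
  rw [h2, map_one, div_one]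

theorem ac_B (f : B) (hf : res f ≠ 0) : acR D f = jR k ⟨res f, D.sy f⟩ := by
  rw [D.acR_eq (rep_B f) hf]
  have h2 : (⟨res 1, D.sy 1⟩ : Sy k) = 1 := Subtype.ext (map_one res)
  rw [h2, map_one, div_one]

theorem isAC : IsAC k (ordR D) ![(κ0 : K)] (acR D) := by
  refine ⟨D.acR_zero, ?_, ?_, ?_, ?_, ?_, ?_⟩
  · intro f hf
    obtain ⟨n, a, b, h1, h2⟩ := D.exists_rep f hf
    rw [D.acR_eq h2 h1]
    exact div_ne_zero (D.jR_ne h1) (D.jR_ne h2.1)
  · intro f g
    by_cases hf : f = 0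
    · rw [hf, zero_mul, D.acR_zero, zero_mul]
    by_cases hg : g = 0
    · rw [hg, mul_zero, D.acR_zero, mul_zero]
    obtain ⟨n, a, b, h1, h2⟩ := D.exists_rep f hf
    obtain ⟨m, a', b', h1', h2'⟩ := D.exists_rep g hg
    rw [D.acR_eq h2 h1, D.acR_eq h2' h1',
      D.acR_eq (D.rep_mul h2 h2') (by rw [map_mul]; exact mul_ne_zero h1 h1'),
      div_mul_div_comm, ← map_mul, ← map_mul]
    congr 3
    · show res (a * a') = res a * res a'
      rw [map_mul]
    · show res (b * b') = res b * res b'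
      rw [map_mul]
  · intro c
    by_cases hc : c = 0
    · rw [hc, map_zero, map_zero]
      exact D.acR_zero
    · have hr : res (algebraMap k B c) ≠ 0 := by
        rw [AlgHom.commutes]
        intro h0
        exact hc ((algebraMap k (Lau k)).injective (h0.trans (map_zero _).symm))
      have h := D.ac_B (algebraMap k B c) hr
      have h2 : (⟨res (algebraMap k B c), D.sy _⟩ : Sy k) = algebraMap k (Sy k) c :=
        Subtype.ext (AlgHom.commutes _ _)
      rw [h2, AlgHom.commutes] at h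
      exact h
  · intro i
    fin_cases i
    show acR D κ0 = 1
    rw [D.acR_eq rep_κ0 (by rw [map_one]; exact one_ne_zero)]
    have h2 : (⟨res 1, D.sy 1⟩ : Sy k) = 1 := Subtype.ext (map_one res)
    rw [h2, map_one, div_one]
  · intro c hc
    obtain ⟨s, t, ht, rfl⟩ := IsFractionRing.div_surjective (A := Sy k) c
    obtain ⟨a, ha⟩ := D.surj s.1 s.2
    obtain ⟨b, hb⟩ := D.surj t.1 t.2
    have ht0 : t ≠ 0 := nonZeroDivisors.ne_zero ht
    have hs0 : s ≠ 0 := by
      rintro rfl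
      rw [map_zero, zero_div] at hc
      exact hc rfl
    have ha0 : res a ≠ 0 := by
      rw [ha]
      exact fun h => hs0 (Subtype.ext h)
    have hb0 : res b ≠ 0 := by
      rw [hb]
      exact fun h => ht0 (Subtype.ext h)
    have hbK := B_ne hb0
    have hrep : Rep res κ0 ((a : K) / b) 0 a b := by
      refine ⟨hb0, ?_⟩
      rw [zpow_zero, one_mul, div_mul_cancel₀ _ hbK]
    refine ⟨(a : K) / b, (D.ordR_eq hrep ha0).1, (D.ordR_eq hrep ha0).2, ?_⟩
    rw [D.acR_eq hrep ha0]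
    have e1 : (⟨res a, D.sy a⟩ : Sy k) = s := Subtype.ext ha
    have e2 : (⟨res b, D.sy b⟩ : Sy k) = t := Subtype.ext hb
    rw [e1, e2]
    rfl
  · intro γ f g hf hg
    obtain ⟨a, b, h⟩ := D.rep_of_ge hf
    obtain ⟨a', b', h'⟩ := D.rep_of_ge hg
    rw [D.lc_of_rep h, D.lc_of_rep h', D.lc_of_rep (rep_add h h'),
      div_add_div _ _ (D.jR_ne h.1) (D.jR_ne h'.1), ← map_mul, ← map_mul, ← map_mul, ← map_add]
    congr 3
    · show res (a * b' + a' * b) = res a * res b' + res b * res a'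
      rw [map_add, map_mul, map_mul, mul_comm (res a')]
    · show res (b * b') = res b * res b'
      rw [map_mul]

theorem lc_mul {f g : K} (hf : Ge (ordR D) 0 f) (hg : Ge (ordR D) 0 g) :
    Ge (ordR D) 0 (f * g) ∧ lc (ordR D) (acR D) 0 (f * g) =
      lc (ordR D) (acR D) 0 f * lc (ordR D) (acR D) 0 g := by
  obtain ⟨a, b, h⟩ := D.rep_of_ge hf
  obtain ⟨a', b', h'⟩ := D.rep_of_ge hg
  have h2 := D.rep_mul h h'
  rw [add_zero] at h2
  refine ⟨D.ge_of_rep h2, ?_⟩
  rw [D.lc_of_rep h, D.lc_of_rep h', D.lc_of_rep h2, div_mul_div_comm, ← map_mul, ← map_mul]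
  congr 3
  · show res (a * a') = res a * res a'
    rw [map_mul]
  · show res (b * b') = res b * res b'
    rw [map_mul]

end OD

end

end

end Pool.Agent.F2
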