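import Pool.Agent.Lib.MP_305fdd_al.F2.CoreOrd

/-!
# MP_305fdd_al (`F_2`): the residual map at `ord_R`
-/

set_option autoImplicit false

namespace Pool.Agent.F2

open MvPolynomial Pool.Agent.F2Ch Pool.Agent.F2W Pool.Agent.F2RF

noncomputable section

/-- the residual map of `φ` on `B` is the toric operator -/
def ResTor (p : ℕ) [Fact p.Prime] {k K : Type} [Field k] [CharP k p] [PerfectRing k p] [Field K]
    [Algebra k K] (B : Subalgebra k K) (res : B →ₐ[k] Lau k) (φ : K → K) : Prop :=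
  ∀ f : B, ∃ a b : B, res b ≠ 0 ∧ φ f * b = a ∧ res a = th p k (res f) * res b

section

variable {p : ℕ} [Fact p.Prime] {k K : Type} [Field k] [CharP k p] [PerfectRing k p] [Field K]
  [Algebra k K] {B : Subalgebra k K} {res : B →ₐ[k] Lau k} {κ0 : B} (D : OD B res κ0)
  {φ : K → K}

namespace OD

omit [Fact p.Prime] in
theorem pinv_zero (hφ : IsPinv p φ) : φ 0 = 0 := by
  have h := hφ.add 0 0
  rw [add_zero] at h
  exact left_eq_add.1 h

include D in
theorem rep_φ (hφ : IsPinv p φ) (ht : ResTor p B res φ) {f : K} {n m : ℤ} {a b : B}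
    (h : Rep res κ0 f n a b) (r : ℕ) (hr : n = p * m + r) :
    ∃ a' b' : B, Rep res κ0 (φ f) m a' b' ∧
      res a' * res b ^ p = th p k (res (κ0 ^ r * a * b ^ (p - 1))) * res b' * res b ^ (p - 1) := by
  obtain ⟨a1, b1, h1, h2, h3⟩ := ht (κ0 ^ r * a * b ^ (p - 1))
  have hb := B_ne h.1
  have hp : p - 1 + 1 = p := Nat.succ_pred_prime Fact.out
  have hk : (κ0 : K) ^ m ≠ 0 := zpow_ne_zero _ D.ne
  have e1 : ((b : K) / (κ0 : K) ^ m) ^ p * f =
      ((κ0 ^ r * a * b ^ (p - 1) : B) : K) := by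
    have h4 : ((κ0 : K) ^ m) ^ p ≠ 0 := pow_ne_zero _ hk
    have h5 : ((κ0 : K) ^ m) ^ p * (κ0 : K) ^ r = (κ0 : K) ^ n := by
      rw [hr, zpow_add₀ D.ne, zpow_natCast, ← zpow_natCast, ← zpow_mul, mul_comm m]
    rw [div_pow, div_mul_eq_mul_div, div_eq_iff h4]
    push_cast
    calc (b : K) ^ p * f = (b : K) ^ (p - 1) * (f * b) := by
          conv_lhs => rw [← hp, pow_succ]
          ring
      _ = (b : K) ^ (p - 1) * ((κ0 : K) ^ n * a) := by rw [h.2]
      _ = _ := by rw [← h5]; ring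
  have e2 := congrArg φ e1
  rw [hφ.pow_mul] at e2
  refine ⟨a1, b * b1, ⟨by rw [map_mul]; exact mul_ne_zero h.1 h1, ?_⟩, ?_⟩
  · push_cast
    rw [← h2, ← e2]
    field_simp
  · have e3 : res b ^ p = res b ^ (p - 1) * res b := by rw [← pow_succ, hp]
    rw [h3, e3, map_mul res b b1]
    ring

include D in
theorem ge_φ (hφ : IsPinv p φ) (ht : ResTor p B res φ) {f : K} {n m : ℤ}
    (h : Ge (ordR D) n f) (hm : p * m ≤ n) : Ge (ordR D) m (φ f) := by
  obtain ⟨a, b, h1⟩ := D.rep_of_ge h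
  obtain ⟨j, hj⟩ := Int.eq_ofNat_of_zero_le (sub_nonneg.2 hm)
  obtain ⟨a', b', h2, -⟩ := D.rep_φ (m := m) hφ ht h1 j (by rw [← hj]; ring)
  exact D.ge_of_rep h2

include D in
theorem gt_φ (hφ : IsPinv p φ) (ht : ResTor p B res φ) {f : K} {n m : ℤ}
    (h : Ge (ordR D) n f) (hm : p * m < n) : Gt (ordR D) m (φ f) := by
  obtain ⟨a, b, h1⟩ := D.rep_of_ge h
  obtain ⟨j, hj⟩ := Int.eq_ofNat_of_zero_le (sub_nonneg.2 hm.le)
  obtain ⟨a', b', h2, h3⟩ := D.rep_φ (m := m) hφ ht h1 j (by rw [← hj]; ring)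
  refine D.gt_of_rep h2 ?_
  have hj0 : j ≠ 0 := by rintro rfl; omega
  rw [map_mul res, map_mul res, map_pow, D.rk, zero_pow hj0, zero_mul, zero_mul, map_zero,
    zero_mul, zero_mul] at h3
  exact (mul_eq_zero.1 h3).resolve_right (pow_ne_zero _ h1.1)

theorem compat (hφ : IsPinv p φ) (ht : ResTor p B res φ) : Compat p φ (ordR D) := by
  intro f hf
  by_contra hlt
  rw [not_le, nsmul_eq_mul] at hlt
  have h := D.gt_φ hφ ht (m := ordR D (φ f)) (Or.inr le_rfl) hlt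
  exact lt_irrefl _ (h.resolve_left hf)

theorem exists_lc (c : KR k) : ∃ f, Ge (ordR D) 0 f ∧ lc (ordR D) (acR D) 0 f = c := by
  by_cases hc : c = 0
  · refine ⟨0, Or.inl rfl, ?_⟩
    unfold lc
    rw [if_neg (fun h => h.1 rfl), hc]
  · obtain ⟨f, h1, h2, h3⟩ := D.isAC.surj c hc
    refine ⟨f, Or.inr h2.ge, ?_⟩
    unfold lc
    rw [if_pos ⟨h1, h2⟩, h3]

theorem lc_neg {f : K} (hf : Ge (ordR D) 0 f) : Ge (ordR D) 0 (-f) ∧
    lc (ordR D) (acR D) 0 (-f) = -lc (ordR D) (acR D) 0 f := by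
  obtain ⟨a, b, h⟩ := D.rep_of_ge hf
  have h2 : Rep res κ0 (-f) 0 (-a) b := by
    refine ⟨h.1, ?_⟩
    push_cast
    linear_combination -h.2
  refine ⟨D.ge_of_rep h2, ?_⟩
  rw [D.lc_of_rep h, D.lc_of_rep h2, ← neg_div, ← map_neg]
  congr 2
  apply Subtype.ext
  show res (-a) = - res a
  rw [map_neg]

theorem gt_of_lc {f : K} (hf : Ge (ordR D) 0 f) (h : lc (ordR D) (acR D) 0 f = 0) :
    Gt (ordR D) 0 f := by
  rcases hf with h0 | h0
  · exact Or.inl h0
  · rcases h0.eq_or_lt with h1 | h1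
    · by_cases hf0 : f = 0
      · exact Or.inl hf0
      · unfold lc at h
        rw [if_pos ⟨hf0, h1.symm⟩] at h
        exact absurd h (D.isAC.ne f hf0)
    · exact Or.inr h1

theorem lc_of_gt {f : K} (hf : Gt (ordR D) 0 f) : lc (ordR D) (acR D) 0 f = 0 := by
  unfold lc
  rw [if_neg]
  rintro ⟨h1, h2⟩
  exact absurd h2 (hf.resolve_left h1).ne'

theorem lc_congr (hφ : IsPinv p φ) (ht : ResTor p B res φ) {f g : K} (hf : Ge (ordR D) 0 f)
    (hg : Ge (ordR D) 0 g) (h : lc (ordR D) (acR D) 0 f = lc (ordR D) (acR D) 0 g) :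
    lc (ordR D) (acR D) 0 (φ f) = lc (ordR D) (acR D) 0 (φ g) := by
  obtain ⟨h1, h2⟩ := D.lc_neg hg
  obtain ⟨a, b, ha⟩ := D.rep_of_ge hf
  obtain ⟨a', b', ha'⟩ := D.rep_of_ge h1
  have h3 := D.ge_of_rep (rep_add ha ha')
  have h4 := D.isAC.add 0 f (-g) hf h1
  rw [h2, h, add_neg_cancel] at h4
  have h5 := D.gt_of_lc h3 h4
  have h6 : Gt (ordR D) 0 (φ (f + -g)) := by
    rcases h5 with h5 | h5
    · left
      rw [h5]
      exact pinv_zero hφ
    · exact D.gt_φ hφ ht (n := ordR D (f + -g)) (Or.inr le_rfl) (by rw [mul_zero]; exact h5)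
  have h7 : φ f = φ g + φ (f + -g) := by
    rw [← hφ.add]
    congr 1
    ring
  have h8 : Ge (ordR D) 0 (φ g) := D.ge_φ hφ ht hg (by rw [mul_zero])
  rw [h7, D.isAC.add 0 _ _ h8 (h6.imp id le_of_lt), D.lc_of_gt h6, add_zero]

/-- the residual map -/
def phiR (φ : K → K) (c : KR k) : KR k := lc (ordR D) (acR D) 0 (φ (D.exists_lc c).choose)

theorem phiR_eq (hφ : IsPinv p φ) (ht : ResTor p B res φ) {f : K} (hf : Ge (ordR D) 0 f) :
    Ge (ordR D) 0 (φ f) ∧ lc (ordR D) (acR D) 0 (φ f) =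
      D.phiR φ (lc (ordR D) (acR D) 0 f) := by
  refine ⟨D.ge_φ hφ ht hf (by rw [mul_zero]), ?_⟩
  obtain ⟨h1, h2⟩ := (D.exists_lc (lc (ordR D) (acR D) 0 f)).choose_spec
  exact D.lc_congr hφ ht hf h1 h2.symm

theorem phiR_B (hφ : IsPinv p φ) (ht : ResTor p B res φ) (f : B) (s : Sy k)
    (hs : (s : Lau k) = th p k (res f)) :
    D.phiR φ (jR k ⟨res f, D.sy f⟩) = jR k s := by
  rw [← D.lc_B, ← (D.phiR_eq hφ ht (D.ge_of_rep (rep_B f))).2]
  obtain ⟨a, b, h1, h2, h3⟩ := ht f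
  have hr : Rep res κ0 (φ f) 0 a b := ⟨h1, by rw [h2, zpow_zero, one_mul]⟩
  rw [D.lc_of_rep hr, div_eq_iff (D.jR_ne h1), ← map_mul]
  congr 1
  apply Subtype.ext
  show res a = s * res b
  rw [hs, h3]

theorem tor (ht : ResTor p B res φ) (f f' : B) (hf : res f' = th p k (res f)) :
    Gt (ordR D) 0 (φ f - f') := by
  obtain ⟨a, b, h1, h2, h3⟩ := ht f
  have hr : Rep res κ0 (φ f - f') 0 (a - f' * b) b := by
    refine ⟨h1, ?_⟩
    rw [zpow_zero, one_mul]
    push_cast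
    rw [sub_mul, h2]
  refine D.gt_of_rep hr ?_
  rw [map_sub, map_mul, hf, h3, sub_self]

theorem torR (hφ : IsPinv p φ) (h1 : φ 1 = 1) (ht : ResTor p B res φ) :
    TorR p k (jR k) (D.phiR φ) := by
  have hone : lc (ordR D) (acR D) 0 (1 : K) = 1 := by
    have h := D.lc_B 1
    have h2 : (⟨res 1, D.sy 1⟩ : Sy k) = 1 := Subtype.ext (map_one res)
    rw [h2, map_one] at h
    exact h
  have hone' : Ge (ordR D) 0 (1 : K) := D.ge_of_rep (rep_B 1)
  refine ⟨jR_inj k, ?_, ⟨?_, ?_⟩, ?_, ?_, ?_⟩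
  · intro f
    obtain ⟨s, t, h2, rfl⟩ := IsFractionRing.div_surjective (A := Sy k) f
    have ht0 : t ≠ 0 := nonZeroDivisors.ne_zero h2
    have h3 : jR k t ≠ 0 := fun h => ht0 (jR_inj k (h.trans (map_zero _).symm))
    exact ⟨s, t, h3, div_mul_cancel₀ _ h3⟩
  · intro x y
    obtain ⟨f, hf, rfl⟩ := D.exists_lc x
    obtain ⟨g, hg, rfl⟩ := D.exists_lc y
    obtain ⟨a, b, ha⟩ := D.rep_of_ge hf
    obtain ⟨a', b', ha'⟩ := D.rep_of_ge hg
    have hfg := D.ge_of_rep (rep_add ha ha')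
    rw [← D.isAC.add 0 f g hf hg, ← (D.phiR_eq hφ ht hf).2, ← (D.phiR_eq hφ ht hg).2,
      ← (D.phiR_eq hφ ht hfg).2, hφ.add]
    exact D.isAC.add 0 _ _ (D.phiR_eq hφ ht hf).1 (D.phiR_eq hφ ht hg).1
  · intro x y
    obtain ⟨f, hf, rfl⟩ := D.exists_lc x
    obtain ⟨g, hg, rfl⟩ := D.exists_lc y
    have hpow : ∀ n : ℕ, Ge (ordR D) 0 (f ^ n) ∧
        lc (ordR D) (acR D) 0 (f ^ n) = lc (ordR D) (acR D) 0 f ^ n := by
      intro n
      induction n with
      | zero => rw [pow_zero, pow_zero]; exact ⟨hone', hone⟩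
      | succ n ih =>
        have h := D.lc_mul ih.1 hf
        rw [pow_succ, pow_succ, ← ih.2]
        exact h
    have h2 := D.lc_mul (hpow p).1 hg
    rw [← (hpow p).2, ← h2.2, ← (D.phiR_eq hφ ht h2.1).2, hφ.pow_mul,
      ← (D.phiR_eq hφ ht hg).2]
    exact (D.lc_mul hf (D.phiR_eq hφ ht hg).1).2
  · rw [← hone, ← (D.phiR_eq hφ ht hone').2, h1]
  · intro c
    obtain ⟨f, hf⟩ := D.surj _ (es k ((p : ℤ) • c)).2
    have h2 := D.phiR_B hφ ht f (es k c) (by
      rw [hf]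
      show ee k c = th p k (ee k ((p : ℤ) • c))
      apply AddMonoidAlgebra.ext
      apply Finsupp.ext
      intro m
      rw [coeff_th]
      have hp : (p : ℤ) ≠ 0 := by exact_mod_cast (Fact.out : p.Prime).ne_zero
      have hinj := smul_inj p
      have e1 : ((p : ℤ) • c = (p : ℤ) • m) ↔ c = m := hinj.eq_iff
      have e2 : (-((p : ℤ) • c) = (p : ℤ) • m) ↔ -c = m := by
        rw [← smul_neg]
        exact hinj.eq_iff
      unfold ee
      simp only [AddMonoidAlgebra.coeff_add, AddMonoidAlgebra.coeff_single, Finsupp.add_apply,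
        Finsupp.single_apply, e1, e2]
      have h3 : rt p k 1 = 1 := map_one ((frobeniusEquiv k p).symm : k →+* k)
      split_ifs <;> simp [h3])
    have e : (⟨res f, D.sy f⟩ : Sy k) = es k ((p : ℤ) • c) := Subtype.ext hf
    rw [e] at h2
    exact h2
  · intro c hc
    obtain ⟨f, hf⟩ := D.surj _ (es k c).2
    have h2 := D.phiR_B hφ ht f 0 (by
      rw [hf]
      show 0 = th p k (ee k c)
      symm
      apply AddMonoidAlgebra.ext
      apply Finsupp.ext
      intro m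
      rw [coeff_th]
      have e1 : ¬ (c = (p : ℤ) • m) := hc m
      have e2 : ¬ (-c = (p : ℤ) • m) := by
        intro h
        apply hc (-m)
        rw [smul_neg, ← h, neg_neg]
      unfold ee
      simp only [AddMonoidAlgebra.coeff_add, AddMonoidAlgebra.coeff_single, Finsupp.add_apply,
        Finsupp.single_apply, e1, e2]
      simp)
    have e : (⟨res f, D.sy f⟩ : Sy k) = es k c := Subtype.ext hf
    rw [e, map_zero] at h2
    exact h2

end OD

end

end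

end Pool.Agent.F2
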