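import Pool.Agent.Lib.MP_305fdd_al.F2.CoreEx
import Pool.Agent.Lib.MP_305fdd_al.Genus

/-!
# MP_305fdd_al: the free group of rank two is profinitely rigid. Reduction to the core data.
-/

set_option autoImplicit false

namespace Pool.Agent.F2

open Pool.Agent.MP_305fdd_al Pool.Agent.Lib.MP_305fdd_al

/-- It is enough that every finitely generated group with the finite quotients of the free group of
rank two maps onto it. -/
theorem rigid_of_onto (h : ∀ (Λ : Type) [Group Λ] [Group.FG Λ],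
    SameFiniteQuotients Λ (FreeGroup (Fin 2)) → F2D.OntoF2 Λ) :
    ProfinitelyRigid (FreeGroup (Fin 2)) := by
  intro Λ _ hΛ
  have h1 : Group.FG Λ := hΛ.1
  have h2 : Group.ResiduallyFinite Λ := hΛ.2.1
  obtain ⟨ψ, hψ⟩ := h Λ hΛ.2.2
  exact ⟨MulEquiv.ofBijective ψ ⟨injective_of_surj hΛ.2.2 ψ hψ, hψ⟩⟩

/-- Reduction to the core data in characteristic three. -/
theorem rigid_of_core (h : ∀ (K Λ : Type) [Field K] [Algebra (AlgebraicClosure (ZMod 3)) K]
    [Group Λ], Core 3 (AlgebraicClosure (ZMod 3)) K Λ → F2D.OntoF2 Λ) :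
    ProfinitelyRigid (FreeGroup (Fin 2)) := by
  refine rigid_of_onto fun Λ _ _ hΛ => ?_
  obtain ⟨K, i1, i2, ⟨C⟩⟩ := exists_core 3 (by norm_num) (AlgebraicClosure (ZMod 3)) Λ hΛ
  exact h K Λ C

end Pool.Agent.F2
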