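import Pool.Agent.Lib.MP_305fdd_al.CC.Defs
import Pool.Agent.Lib.MP_305fdd_al.F2.TF.Defs

/-!
# MP_305fdd_al, F_2: section G (genus, trace ring, reducible locus). Definitions.

`Fr` is the free group on `gx`, `gy`. `Λ` is a finitely generated group with the same finite quotients.
-/

set_option autoImplicit false

namespace Pool.Agent.F2

open MvPolynomial Pool.Agent.Lib.MP_305fdd_al Pool.Agent.MP_305fdd_al
open scoped commutatorElement

noncomputable section

/-- the free group of rank two -/
abbrev Fr : Type := FreeGroup (Fin 2)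

/-- first generator -/
def gx : Fr := FreeGroup.of 0

/-- second generator -/
def gy : Fr := FreeGroup.of 1

/-- the abelianisation of `Fr` -/
def clF : Fr →* Multiplicative (ℤ × ℤ) :=
  FreeGroup.lift ![Multiplicative.ofAdd (1, 0), Multiplicative.ofAdd (0, 1)]

/-- two-dimensional pseudo-characters with determinant one -/
structure PC {G R : Type} [Group G] [CommRing R] (T : G → R) : Prop where
  one : T 1 = 2
  comm : ∀ g h, T (g * h) = T (h * g)
  rel : ∀ g h, T (g * h) + T (g * h⁻¹) = T g * T h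

/-! ## The universal ring -/

/-- the relations of a pseudo-character -/
def relS (k G : Type) [Field k] [Group G] : Set (MvPolynomial G k) :=
  {q | q = X 1 - 2 ∨ (∃ g h : G, q = X (g * h) - X (h * g)) ∨
    ∃ g h : G, q = X (g * h) + X (g * h⁻¹) - X g * X h}

/-- the universal pseudo-character ring -/
abbrev Uni (k G : Type) [Field k] [Group G] : Type := MvPolynomial G k ⧸ Ideal.span (relS k G)

/-- the universal pseudo-character -/
def tu (k : Type) {G : Type} [Field k] [Group G] (g : G) : Uni k G :=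
  Ideal.Quotient.mk (Ideal.span (relS k G)) (X g)

/-- the polynomial ring in `x, y, z` -/
abbrev Ak (k : Type) [Field k] : Type := MvPolynomial (Fin 3) k

/-- `κ = x² + y² + z² - xyz - 4` -/
def kap (k : Type) [Field k] : Ak k := X 0 ^ 2 + X 1 ^ 2 + X 2 ^ 2 - X 0 * X 1 * X 2 - 4

/-- the trace polynomials of Fricke -/
def IsTA (k : Type) [Field k] (T : Fr → Ak k) : Prop :=
  PC T ∧ T gx = X 0 ∧ T gy = X 1 ∧ T (gx * gy) = X 2

/-- the trace polynomials of Fricke -/
def TA (k : Type) [Field k] : Fr → Ak k := Classical.epsilon (IsTA k)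

/-! ## The reducible locus -/

/-- Laurent polynomials in two variables -/
abbrev Lau (k : Type) [Field k] : Type := AddMonoidAlgebra k (ℤ × ℤ)

/-- `e_c = χ^c + χ^{-c}` -/
def ee (k : Type) [Field k] (c : ℤ × ℤ) : Lau k :=
  AddMonoidAlgebra.single c 1 + AddMonoidAlgebra.single (-c) 1

/-- constant term -/
def ct {k : Type} [Field k] (f : Lau k) : k := f.coeff 0

/-- restriction to the reducible locus: `x ↦ e_(1,0)`, `y ↦ e_(0,1)`, `z ↦ e_(1,1)` -/
def resA (k : Type) [Field k] : Ak k →ₐ[k] Lau k :=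
  aeval ![ee k (1, 0), ee k (0, 1), ee k (1, 1)]

/-- `f : Fr → Λ` is injective and onto modulo all `γ_c(Λ')`, `cl` is the abelianisation of `Λ`
(in Mathlib `lowerCentralSeries 0` of a subgroup `S` is `S` itself) -/
structure Emb (Λ : Type) [Group Λ] (f : Fr →* Λ) (cl : Λ →* Multiplicative (ℤ × ℤ)) : Prop where
  inj : Function.Injective f
  sup : ∀ c : ℕ, f.range ⊔ (commutator Λ).lowerCentralSeries c = ⊤
  com : ∀ c : ℕ, ((commutator Λ).lowerCentralSeries c).comap f =
    (commutator Fr).lowerCentralSeries c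
  clf : cl.comp f = clF
  ker : cl.ker = commutator Λ

/-- the subgroup `Λ''(Λ')^p` -/
def NM (p : ℕ) (G : Type) [Group G] : Subgroup G :=
  (commutator G).lowerCentralSeries 1 ⊔ Subgroup.closure {u | ∃ v ∈ commutator G, u = v ^ p}

/-- corresponding functions on `G` and `H` -/
def Corr {G H R : Type} [Group G] [Group H] (Φ : NatBij G H) (T : G → R) (T' : H → R) : Prop :=
  ∃ (Q : Type) (_ : Group Q) (_ : Finite Q) (π : G →* Q) (τ : Q → R),
    (∀ g, T g = τ (π g)) ∧ ∀ h, T' h = τ (Φ.toFun Q π h)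

/-! ## The component of the trace ring through the reducible locus -/

/-- `D` is the image of the universal ring of `Λ` in `lim A/κⁿ`; `β n : D → A/κⁿ` are the
projections. -/
structure TR (k Λ : Type) [Field k] [Group Λ] (f : Fr →* Λ) (D : Type) [CommRing D] [Algebra k D]
    (T : Λ → D) (β : ∀ n : ℕ, D →ₐ[k] Ak k ⧸ (Ideal.span {kap k ^ n} : Ideal (Ak k))) : Prop where
  pc : PC T
  gen : Algebra.adjoin k (Set.range T) = ⊤
  ft : Algebra.FiniteType k D
  beta : ∀ (n : ℕ) (g : Fr) (l : Λ), f g * l⁻¹ ∈ (commutator Λ).lowerCentralSeries (2 * n) →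
    β n (T l) = Ideal.Quotient.mk _ (TA k g)
  compat : ∀ (m n : ℕ) (hmn : (Ideal.span {kap k ^ n} : Ideal (Ak k)) ≤ Ideal.span {kap k ^ m})
    (b : D), Ideal.Quotient.factor hmn (β n b) = β m b
  sep : ∀ b, (∀ n, β n b = 0) → b = 0

/-- classes in `ℤ × ℤ` which are linearly dependent -/
def Dep (a b : Multiplicative (ℤ × ℤ)) : Prop :=
  ∃ m n : ℤ, (m ≠ 0 ∨ n ≠ 0) ∧ a ^ m * b ^ n = 1

/-- The component `D` of the trace ring of `Λ` through the reducible locus, `res` the restriction to
the reducible locus, `T` the universal pseudo-character, `cl` the class in the abelianisation. -/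
structure RD (k Λ : Type) [Field k] [Group Λ] (f : Fr →* Λ) (cl : Λ →* Multiplicative (ℤ × ℤ))
    (D : Type) [CommRing D] [Algebra k D] (T : Λ → D) (res : D →ₐ[k] Lau k) : Prop where
  pc : PC T
  gen : Algebra.adjoin k (Set.range T) = ⊤
  ft : Algebra.FiniteType k D
  dom : IsDomain D
  res_T : ∀ l, res (T l) = ee k (Multiplicative.toAdd (cl l))
  kne : T ⁅f gx, f gy⁆ ≠ 2
  /-- the ideal `ker res` is generated by `κ` near the reducible locus -/
  loc : ∃ e : D, res e = 1 ∧ ∀ b, res b = 0 → ∃ c, e * b = (T ⁅f gx, f gy⁆ - 2) * c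
  two : ∀ u, T u = 2 → ∀ g, T (g * u) = T g
  dep : ∀ g h, T ⁅g, h⁆ = 2 → Dep (cl g) (cl h)

/-- the three coordinates `T(x), T(y), T(xy)` -/
def crd {Λ D : Type} [Group Λ] (f : Fr →* Λ) (T : Λ → D) : Fin 3 → D :=
  ![T (f gx), T (f gy), T (f (gx * gy))]

/-! ## The Cartier operator over a perfect field -/

section cartier

variable (p : ℕ) [hp : Fact p.Prime] (k : Type) [Field k] [CharP k p] [PerfectRing k p]

/-- the `p`-th root -/
def rt : k →+ k := ((frobeniusEquiv k p).symm : k →+* k).toAddMonoidHom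

/-- the component of exponent `α`: `coeff w (compk α a) ^ p = coeff (p • w + α) a` -/
def compk (α : Fin 3 →₀ ℕ) : Ak k →+ Ak k where
  toFun a := AddMonoidAlgebra.ofCoeff
    (Finsupp.mapRange (rt p k) (map_zero _)
      (Finsupp.comapDomain (fun w : Fin 3 →₀ ℕ => p • w + α) (AddMonoidAlgebra.coeff a)
        (F2TF.shift_inj α).injOn))
  map_zero' := by
    ext m
    exact map_zero (rt p k)
  map_add' a b := by
    ext m
    exact map_add (rt p k) _ _

theorem coeff_compk (α w : Fin 3 →₀ ℕ) (a : Ak k) :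
    coeff w (compk p k α a) = rt p k (coeff (p • w + α) a) := rfl

/-- the Cartier operator of the polynomial ring -/
def psik : Ak k →+ Ak k := compk p k (F2TF.cst (p - 1))

/-- the Cartier operator on maps `D → k[t]`: `(cartk l)(d) = psik (l (d ^ p))` -/
def cartk {D : Type} [CommRing D] (l : D → Ak k) : D → Ak k :=
  fun b => psik p k (l (b ^ p))

/-- `D` is finite over `P = k[t_1, t_2, t_3]`, `t_i = x_i + g_i ^ p`, and the Cartier operator is
locally nilpotent on `Hom_P(D, P)`. -/
structure NP (D : Type) [CommRing D] [Algebra k D] (x g : Fin 3 → D) : Prop where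
  fin : (aeval (fun i => x i + g i ^ p) : Ak k →ₐ[k] D).Finite
  nil : ∀ l : D →+ Ak k,
    (∀ (a : Ak k) (c : D), l (aeval (fun i => x i + g i ^ p) a * c) = a * l c) →
    ∃ N : ℕ, ∀ c : D, ((cartk p k)^[N] (l : D → Ak k)) c = 0

end cartier

end

end Pool.Agent.F2
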