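import Pool.Agent.Lib.MP_305fdd_al.F2.Final
import Pool.Agent.Lib.MP_305fdd_al.F2.L.Main
import Pool.Agent.Lib.MP_305fdd_al.F2.S.L8
import Pool.Agent.Lib.MP_305fdd_al.F2.PF.Main

/-!
# MP_305fdd_al: the free group of rank two is profinitely rigid
-/

set_option autoImplicit false

namespace Pool.Agent.F2

open Pool.Agent.MP_305fdd_al

/-- the data of section 0 give a surjection onto the free group of rank two -/
theorem onto_of_core {p : ℕ} [Fact p.Prime] {k K Λ : Type} [Field k] [CharP k p] [IsAlgClosed k]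
    [Field K] [Algebra k K] [Group Λ] (C : F2.Core p k K Λ) : F2D.OntoF2 Λ :=
  F2L.onto_of C F2PF.t_fin fun hex => F2S.l8 (F2L.ofCore C) hex

/-- THE FREE GROUP OF RANK TWO IS PROFINITELY RIGID IN THE ABSOLUTE SENSE. -/
theorem f2_rigid : ProfinitelyRigid (FreeGroup (Fin 2)) :=
  rigid_of_core fun K Λ _ _ _ C => onto_of_core C

end Pool.Agent.F2
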