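import Pool.Agent.Lib.MP_305fdd_al.F2.BDefs
import Pool.Agent.Lib.MP_305fdd_al.F2.StmG

/-!
# MP_305fdd_al (`F_2`), section B: the operator `Φ` on the function field. Statements and proofs.

Input: `BD` (from section G and Theorem A of section A). Output: `FB`.
Every piece may use the statements named in its docstring as hypotheses.
-/

set_option autoImplicit false

namespace Pool.Agent.F2

open MvPolynomial
open scoped commutatorElement

/-! ## Part 1: p-bases -/

/-- [FB car] elementary properties of `pcomb`, `Car`.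

Proof. `c ↦ pcomb x c` is additive in characteristic `p` (`add_pow_char`), `pcomb x (a • c) = a ^ p * pcomb x c`,
injective by `PInd`; `Classical.epsilon_spec`. -/
def S_car : Prop := ∀ (p : ℕ) [Fact p.Prime] (K : Type) [Field K] [CharP K p] (x : Fin 3 → K),
    (PInd p x → (∀ c c' : (Fin 3 → Fin p) → K, pcomb x c = pcomb x c' → c = c') ∧
      (∀ c : (Fin 3 → Fin p) → K, cof p x (pcomb x c) = c ∧ Car p x (pcomb x c) = c (top3 p))) ∧
    (PBas p x → (∀ f, pcomb x (cof p x f) = f) ∧ (∀ f g, Car p x (f + g) = Car p x f + Car p x g) ∧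
      ∀ a f, Car p x (a ^ p * f) = a * Car p x f)

/-- [FB chg] the `p`-basis `t_i = x_i + g_i ^ p` has the same Cartier operator.

Proof. Expand `t ^ e = ∏ (x_i + g_i ^ p) ^ (e_i) = ∑ e' ≤ e, (b_(e,e')) ^ p x ^ e'` with
`b_(e,e') = ∏ binom(e_i, e'_i) g_i ^ (e_i - e'_i)` (`binom ^ p = binom` in characteristic `p`), `b_(e,e) = 1`. So
`pcomb t c = pcomb x c'`, `c'_(e') = ∑ e ≥ e', b_(e,e') c_e`; the map `c ↦ c'` is linear and unitriangular
(bijective), `c'_top = c_top`. -/
def S_chg : Prop := ∀ (p : ℕ) [Fact p.Prime] (K : Type) [Field K] [CharP K p] (x g : Fin 3 → K),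
    (PInd p x → PInd p fun i => x i + g i ^ p) ∧
    (PBas p (fun i => x i + g i ^ p) → PBas p x ∧ ∀ f, Car p (fun i => x i + g i ^ p) f = Car p x f)

/-- [FB pol] the decomposition of polynomials.

Proof. `coeff_compk`; for `c ∈ k[X]`: `c ^ p = ∑ w, (coeff w c) ^ p X ^ (p w)` (`map_sum` for the Frobenius, or
`MvPolynomial.map (frobenius) (expand p c) = c ^ p`, `MvPolynomial.expand_char`), every exponent is
uniquely `p w + e` with `e_i < p`; `(rt x) ^ p = x`. -/
def S_pol : Prop := ∀ (p : ℕ) [Fact p.Prime] (k : Type) [Field k] [CharP k p] [PerfectRing k p],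
    (∀ a : Ak k, a = pcomb X fun e : Fin 3 → Fin p => compk p k (toF e) a) ∧
    (∀ c c' : (Fin 3 → Fin p) → Ak k, pcomb X c = pcomb X c' → c = c') ∧
    ∀ c : (Fin 3 → Fin p) → Ak k, psik p k (pcomb X c) = c (top3 p)

/-- [FB fpl] the field of rational functions. (Uses `S_pol`, `S_car`.)

Proof. `PInd`: multiply by a common denominator `b ^ p`. Generation: `a / b = a b ^ (p - 1) / b ^ p`. -/
def S_fpl : Prop := ∀ (p : ℕ) [Fact p.Prime] (k : Type) [Field k] [CharP k p] [PerfectRing k p]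
    (L : Type) [Field L] [Algebra (Ak k) L] [IsFractionRing (Ak k) L],
    PBas p (fun i => algebraMap (Ak k) L (X i)) ∧
    ∀ a : Ak k, Car p (fun i => algebraMap (Ak k) L (X i)) (algebraMap _ L a) =
      algebraMap _ L (psik p k a)

/-- [FB fld] finite extensions in which the `p`-basis stays `p`-independent. (Uses `S_car`.)

Proof. Let `s = algebraMap ∘ t`. (0) If `w_1, .., w_n ∈ K` are linearly independent over `L` then so are the
`w_i ^ p`: write `l_i = pcomb t (l_(i,e))`; `∑ i, l_i w_i ^ p = pcomb s (e ↦ ∑ i, l_(i,e) w_i) = 0`, so all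
`∑ i, l_(i,e) w_i = 0` and `l_(i,e) = 0`. So for a basis `w` of `K` over `L` also `w ^ p` is a basis.
(1) `f = ∑ i, l_i w_i ^ p = pcomb s (e ↦ ∑ i, l_(i,e) w_i)`: `PBas p s`. (2) separable: if the minimal
polynomial of `c ∈ K` is inseparable, it is a polynomial in `X ^ p` (`Polynomial.separable_or`,
`expand`), of degree `p n`, `n ≥ 1`; `1, c, .., c ^ n` are linearly independent (`n < p n`), but their `p`-th
powers are dependent, contradiction to (0). (3) `trace (c ^ p) = (trace c) ^ p`: if `c w_i = ∑ m_ij w_j`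
then `c ^ p w_i ^ p = ∑ m_ij ^ p w_j ^ p`, the trace of `c ^ p` computed in the basis `w ^ p` is `∑ m_ii ^ p`.
(4) `h = pcomb s c`, `trace h = ∑ e, trace (c_e) ^ p t ^ e = pcomb t (trace ∘ c)`, compare the top coefficients. -/
def S_fld : Prop := ∀ (p : ℕ) [Fact p.Prime] (L K : Type) [Field L] [Field K] [CharP L p]
    [CharP K p] [Algebra L K] [FiniteDimensional L K] (t : Fin 3 → L), PBas p t →
    PInd p (fun i => algebraMap L K (t i)) →
    PBas p (fun i => algebraMap L K (t i)) ∧ Algebra.IsSeparable L K ∧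
    ∀ h : K, Algebra.trace L K (Car p (fun i => algebraMap L K (t i)) h) =
      Car p t (Algebra.trace L K h)

/-! ## Part 2: the residual computation on `A` -/

/-- [FB star] the residual Cartier operator on the reducible locus is the toric operator.

Proof. `M = (Lau)[s]` (`Polynomial`), `u = χ^(1,0)`, `v = χ^(0,1)`, `δ = (u - u⁻¹)(v - v⁻¹)`, `j : A → M`,
`x ↦ u + u⁻¹`, `y ↦ v + v⁻¹`, `z ↦ s + u v + u⁻¹ v⁻¹`. `j κ = s (s + δ)`, and the constant coefficient of `j a` is
`resA a`. Let `Θ : M → M`, `Θ (∑ f_n s ^ n) = ∑ n, th (f_(p n + p - 1)) s ^ n`; `Θ (b ^ p a) = b Θ a`.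
CLAIM: `δ j(psi a) = Θ (δ j(a))` for `a ∈ A` (`psi = psik`). Both sides are additive and
`p⁻¹`-linear over `A` (`psi (b ^ p a) = b psi a`), so by `S_pol` (or monomials `c X ^ (p w + e) =
(rt c X ^ w) ^ p X ^ e`) it is enough to treat `a = x^i y^j z^l`, `0 ≤ i, j, l ≤ p - 1`: `psi a = 1` if
`i = j = l = p - 1` and `0` otherwise. `z^l = ∑ m, binom(l, m) s ^ m (u v + u⁻¹ v⁻¹) ^ (l - m)`: the coefficients of
`s ^ (p n + p - 1)` vanish unless `l = p - 1`, `n = 0`, where it is `1`. So the right side is `0` for `l < p - 1`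
and `th (x^i (u - u⁻¹) y^j (v - v⁻¹))` for `l = p - 1`. The Laurent polynomial `(u + u⁻¹) ^ i (u - u⁻¹)` is
antisymmetric under `u ↦ u⁻¹` with exponents in `[-i-1, i+1]`: the coefficient of `u^0` is `0` (`p ≠ 2`), the
exponents divisible by `p` with nonzero coefficient are only `±p`, for `i = p - 1`, with coefficients
`1, -1`. So the right side is `δ` for `i = j = l = p - 1` and `0` otherwise. This proves the claim. Now apply
the claim to `a κ ^ (p-1)` and compare the coefficients of `s^0`: on the left `δ resA (psi (a κ ^ (p-1)))`; on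
the right `th` of the coefficient of `s ^ (p-1)` of `δ j(a) s ^ (p-1) (s + δ) ^ (p-1)`, i.e. of
`δ resA(a) δ ^ (p-1) = δ ^ p resA(a)`, which is `δ th (resA a)`. Cancel `δ ≠ 0` in the domain `Lau`. -/
def S_star : Prop := ∀ (p : ℕ) [Fact p.Prime], p ≠ 2 → ∀ (k : Type) [Field k] [CharP k p]
    [PerfectRing k p] (a : Ak k), resA k (psik p k (a * kap k ^ (p - 1))) = th p k (resA k a)

/-- [FB th] properties of `th`.

Proof. `(s ^ p) = ∑ (s_c) ^ p χ^(p c)`. Iterates: `th^[n] a` has the coefficient `rt^[n] (a_(p^n c))` at `χ^c`;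
`a` has finite support. -/
def S_th : Prop := ∀ (p : ℕ) [Fact p.Prime] (k : Type) [Field k] [CharP k p] [PerfectRing k p],
    (∀ s a : Lau k, th p k (s ^ p * a) = s * th p k a) ∧
    th p k 1 = 1 ∧ (∀ a, ct (th p k a) = rt p k (ct a)) ∧
    ∀ a, ∃ N₀ : ℕ, ∀ N ≥ N₀, (th p k)^[N] a = algebraMap k _ ((rt p k)^[N] (ct a))

/-! ## Part 3: the local ring of the reducible locus -/

section

variable (p : ℕ) [Fact p.Prime] (k : Type) [Field k] [CharP k p] [PerfectRing k p]
  (D : Type) [CommRing D] [Algebra k D] (φ : Ak k →ₐ[k] D) (res : D →ₐ[k] Lau k) (g : Fin 3 → D)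
  (K : Type) [Field K] [Algebra D K]

/-- [FB or] existence of `O`, `ρ`.

Proof. `I = ker res`, prime (`Lau` is a domain), `D` a Noetherian domain. `O` = the image of `D_I` in `K`
(`Localization.AtPrime`, or directly the set described in `mem`, a subring). The maximal ideal of `D_I`
is generated by `κ` (`loc`: `e` is a unit there), so `D_I` is a discrete valuation ring
(`IsDiscreteValuationRing.TFAE`, `κ ≠ 0` by `kne`), so a valuation ring, and `unif`. Directly: for
`0 ≠ d ∈ D` there are `n` and `d'` with `res d' ≠ 0`, `e ^ n d = κ ^ n d'`: otherwise `d ∈ κ ^ n D_I` for all `n` and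
Krull's intersection theorem gives `d = 0`. `ρ (a / b) = res a / res b` (`IsLocalization.lift`). `ker`:
`res a = 0 → e a = κ c`. -/
def S_or : Prop := BD p k D φ res g → IsFractionRing D K →
    ∃ (O : ValuationSubring K) (ρ : O →+* Mf k), OR φ res K O ρ

/-- [FB ind] `p`-independence of `x, y, z` over `K`, uniformly along the reducible locus. (Uses
`S_pol`, `S_kera`.)

Proof. (A) `φ a ∈ κ ^ n O` implies `κ ^ n ∣ a`: induction; `φ a ∈ κ O` gives `res (φ a) = resA a = 0` (`ρ_D`, `ker`), so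
`a = κ a'` (`S_kera`), `φ a' ∈ κ ^ (n-1) O`. (1) Let `c_e ∈ O` with `pcomb x c ∈ κ ^ p O`; then `c_e ∈ κ O`:
multiply by a common denominator (`c_e = d_e / b`, `res b ≠ 0`): we may assume `c_e = d_e ∈ D`. `res d_e = resA a_e`
(`rng`), `d_e = φ a_e + i_e`, `i_e ∈ ker res ⊆ κ O`, `d_e ^ p - φ (a_e) ^ p = i_e ^ p ∈ κ ^ p O`, so
`φ (∑ a_e ^ p X ^ e) ∈ κ ^ p O`, so by (A) `pcomb X a = κ ^ p b = κ ^ p pcomb X b_e = pcomb X (κ b_e)`, `a_e = κ b_e`
(`S_pol`). (2) If `pcomb x c ∈ O` then all `c_e ∈ O`: otherwise there are `n ≥ 1` with all `κ ^ n c_e ∈ O`, and not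
all in `κ O` (`unif`); but `pcomb x (κ ^ n c) = κ ^ (n p) pcomb x c ∈ κ ^ p O`, contradiction to (1).
(3) `PInd`: if `pcomb x c = 0`, not all `c_e = 0`, scale `c` by a power of `κ` such that all are in `O` and not
all in `κ O`: contradiction to (1). -/
def S_ind : Prop := BD p k D φ res g → IsFractionRing D K → ∀ (O : ValuationSubring K)
    (ρ : O →+* Mf k), OR φ res K O ρ →
    PInd p (xK φ K) ∧ ∀ c : (Fin 3 → Fin p) → K, pcomb (xK φ K) c ∈ O → ∀ e, c e ∈ O

/-! ## Part 4: the field `L` of fractions of `P` -/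

/-- [FB lk] existence of `L` and the `p`-basis of `K`. (Uses `S_ind`, `S_or`, `S_chg`, `S_fpl`,
`S_fld`, `S_car`.)

Proof. `t_i = x_i + g_i ^ p ∈ D`, `ι = aeval t : P → D`. `t` is `p`-independent in `K` (`S_ind`, `S_chg`), so `ι` is
injective: if `ι a = 0` with `a ≠ 0` of minimal total degree, `a = ∑ a_e ^ p X ^ e` (`S_pol`), then
`0 = pcomb t (ι a_e)`, so `ι a_e = 0` for all `e`, and the nonzero `a_e` have smaller degree unless `a` is
constant, which is impossible. `L = FractionRing P` maps to `K` (`IsFractionRing.lift`), `[K : L] < ∞`: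
`D` is finite over `P` (`NP.fin`) and `K = D L` (every element of `K` is `d / ι a`: a nonzero `b ∈ D` divides
a nonzero element of `ι P`, the constant coefficient of its minimal integral equation). Now `S_fpl`,
`S_fld`, `S_chg`. -/
def S_lk : Prop := BD p k D φ res g → IsFractionRing D K →
    ∃ (L : Type) (_ : Field L) (_ : Algebra (Ak k) L) (_ : Algebra L K),
      IsFractionRing (Ak k) L ∧ FiniteDimensional L K ∧ LK p φ g K L

/-- [FB pb] (Uses the same statements as `S_lk`.) The proof is contained in the docstring of `S_lk`;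
`Car` for `t` and `x` agree by `S_chg`. -/
def S_pb : Prop := BD p k D φ res g → IsFractionRing D K → ∀ (L : Type) [Field L]
    [Algebra (Ak k) L] [Algebra L K] [IsFractionRing (Ak k) L] [FiniteDimensional L K],
    LK p φ g K L → PBas p (xK φ K) ∧ Algebra.IsSeparable L K ∧
      (∀ h : K, Algebra.trace L K (Car p (xK φ K) h) =
        Car p (fun i => algebraMap (Ak k) L (X i)) (Algebra.trace L K h)) ∧
      ∀ f : K, ∃ (d : D) (a : Ak k), a ≠ 0 ∧
        f * algebraMap L K (algebraMap (Ak k) L a) = algebraMap D K d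

/-- [FB om] the module `Om`. (Uses `S_pb`, `S_fpl`, `S_car`.)

Proof. (1) `D` is integral over `P`, `P` is integrally closed (a UFD), so traces of elements of `D` lie in
`P` (`Algebra.isIntegral_trace`, `IsIntegrallyClosed`). (2) additive, `D`-module: clear. (3) `h ∈ Om`, `d ∈ D`:
`Tr (C(h) d) = Tr (C(h d ^ p)) = C_L (Tr (h d ^ p)) ∈ C_L P ⊆ P` (`S_pb`, `S_fpl`). -/
def S_om : Prop := BD p k D φ res g → IsFractionRing D K → ∀ (L : Type) [Field L]
    [Algebra (Ak k) L] [Algebra L K] [IsFractionRing (Ak k) L] [FiniteDimensional L K],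
    LK p φ g K L → (∀ d : D, algebraMap D K d ∈ Om k D K L) ∧
      (∀ h h' : K, h ∈ Om k D K L → h' ∈ Om k D K L → h + h' ∈ Om k D K L ∧ -h ∈ Om k D K L) ∧
      (∀ (d : D) (h : K), h ∈ Om k D K L → algebraMap D K d * h ∈ Om k D K L) ∧
      ∀ h : K, h ∈ Om k D K L → Car p (xK φ K) h ∈ Om k D K L

/-- [FB nil] the Cartier operator is locally nilpotent on `Om`. (Uses `S_pb`, `S_fpl`, `S_om`, `S_car`.)

Proof. For `h ∈ Om` let `l : D → P` with `Tr (h d) = l d` (unique, `P → L` is injective); additive,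
`l (ι a * d) = a * l d`. `cartk l (d) = psik (l (d ^ p)) = C_L (Tr (h d ^ p)) = Tr (C(h) d)`, so by induction
`Tr (C^[N] h * d) = cartk^[N] l (d)`. By `NP.nil` there is `N` with `Tr (C^[N] h * d) = 0` for all `d ∈ D`, so for all
elements of `K = D L` (last part of `S_pb`), so `C^[N] h = 0` (nondegeneracy of the trace form of a
separable extension, `traceForm_nondegenerate`). `C 0 = 0` for larger exponents. -/
def S_nil : Prop := BD p k D φ res g → IsFractionRing D K → ∀ (L : Type) [Field L]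
    [Algebra (Ak k) L] [Algebra L K] [IsFractionRing (Ak k) L] [FiniteDimensional L K],
    LK p φ g K L → ∀ h ∈ Om k D K L, ∃ N₀ : ℕ, ∀ N ≥ N₀, (Car p (xK φ K))^[N] h = 0

/-- [FB mo] elements of `O` with `h (ker res) ⊆ Om` lie in `Om`. (Uses `S_om`.)

Proof. Let `d ∈ D`, `Tr (h d) = n / q` in lowest terms in the UFD `P` (`IsFractionRing`, `num`, `den`); we show
that `q` is a unit. Suppose that the prime `π` divides `q`. Let `𝔞 = {a ∈ P | ι a * h ∈ Om}`; for `a ∈ 𝔞`
`a n / q ∈ P`, so `q ∣ a n`, `π ∣ a`. So it is enough to find `a ∈ 𝔞` with `¬ π ∣ a`. Case 1: `res (ι π) ≠ 0`. The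
element `κ = φ kap ≠ 0` of `ker res` is integral over `P`; the constant coefficient `a_n` of an integral
equation of minimal degree is nonzero and lies in `ker res`; some prime factor `π_1` of `a_n` has
`res (ι π_1) = 0` (`Lau` is a domain), `ι π_1 * h ∈ Om`, and `π ∣ π_1` would give `π ~ π_1`, `res (ι π) = 0`.
Case 2: `res (ι π) = 0`. As `h ∈ O` there is `s ∈ D` with `res s ≠ 0`, `s h ∈ D`. Let `n` be minimal such that there
are `a_1, .., a_n ∈ P` with `i := s^n + ι a_1 s^(n-1) + .. + ι a_n ∈ ker res` (`s` is integral over `P`); `n ≥ 1`, and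
`res (ι a_n) ≠ 0` (otherwise `res s * res (s^(n-1) + ..) = 0`, contradiction to the minimality). Then
`ι a_n h = i h - (s^(n-1) + .. + ι a_(n-1)) (s h) ∈ Om` (`D ⊆ Om`), and `¬ π ∣ a_n` as `res (ι π) = 0`. -/
def S_mo : Prop := BD p k D φ res g → IsFractionRing D K → ∀ (O : ValuationSubring K)
    (ρ : O →+* Mf k), OR φ res K O ρ → ∀ (L : Type) [Field L]
    [Algebra (Ak k) L] [Algebra L K] [IsFractionRing (Ak k) L] [FiniteDimensional L K],
    LK p φ g K L → ∀ h ∈ O, (∀ i : D, res i = 0 → h * algebraMap D K i ∈ Om k D K L) →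
      h ∈ Om k D K L

/-- [FB rc] the residual map of `C`. (Uses `S_ind`, `S_pb` for `PBas`, `S_pol`, `S_star`, `S_th`, `S_car`.)

Proof. `C = Car p x` and `C (φ a) = φ (psik a)` for `a ∈ A` (`S_pol`: `φ a = pcomb x (e ↦ φ (compk e a))`);
write `psi` for `psik`. (1) `f ∈ O`:
`f = pcomb x c`, `c_e ∈ O` by `S_ind`, `C f = c_top ∈ O`. (2) `d ∈ D`: `res d = resA a`, `d = φ a + i`, `res i = 0`,
`i = κ f` with `f ∈ O`; `C (d κ ^ (p-1)) = C (φ (a κ ^ (p-1))) + C (κ ^ p f) = φ (psi (a κ ^ (p-1))) + κ C f`, in `O`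
with residue `resA (psi (a κ ^ (p-1))) = th (resA a) = th (res d)` (`S_star`). (3) for `w ∈ O` with `ρ w = 1` and
`d ∈ D`: `w = w_1 / w_2`, `w_i ∈ D`, `res w_1 = res w_2 ≠ 0`;
`C (d w κ ^ (p-1)) = C (d w_1 w_2 ^ (p-1) κ ^ (p-1)) / w_2` has the residue
`th (res d (res w_2) ^ p) / res w_2 = th (res d)` (`S_th`). -/
def S_rc : Prop := BD p k D φ res g → IsFractionRing D K → ∀ (O : ValuationSubring K)
    (ρ : O →+* Mf k), OR φ res K O ρ → PBas p (xK φ K) →
    (∀ f ∈ O, Car p (xK φ K) f ∈ O) ∧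
    ∀ (d : D) (w : O), ρ w = 1 → ∃ w' : O,
      (w' : K) = Car p (xK φ K) (algebraMap D K d * w * algebraMap D K (φ (kap _)) ^ (p - 1)) ∧
      ρ w' = algebraMap (Lau k) (Mf k) (th p k (res d))

/-- [FB h] the `C`-fixed element `h` with a simple pole along the reducible locus. (Uses `S_lk`,
`S_om`, `S_nil`, `S_mo`, `S_rc`, `S_car`, `S_th`.)

Proof. `Mo = {h | h * ker res ⊆ Om}` is additive, contains `Om`, and is stable under `C`
(`C(h) i = C(h i ^ p)`) and under `D`. `h_1 = e / κ ∈ Mo` (`e i = κ c`, `h_1 i = c ∈ D ⊆ Om`).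
`κ C(h_1) = C (κ ^ p h_1) = C (e κ ^ (p-1)) ∈ O` with residue `th (res e) = 1` (`S_rc` with `w = 1`), so
`κ (C h_1 - h_1)` has residue `0`, so `u := C h_1 - h_1 ∈ O` (`OR.ker`), `u ∈ Mo`, so `u ∈ Om` (`S_mo`). Let
`C^[N] u = 0` (`S_nil`), `h = h_1 + ∑ j < N, C^[j] u`. `C h = C h_1 + ∑ 1 ≤ j ≤ N, C^[j] u =
h_1 + u + ∑ 1 ≤ j < N, C^[j] u = h`. `κ h = e + κ (∑ ..)` has residue `1`, since `C^[j] u ∈ O` (`S_rc`). `h ∈ Mo`. -/
def S_h : Prop := BD p k D φ res g → IsFractionRing D K → ∀ (O : ValuationSubring K)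
    (ρ : O →+* Mf k), OR φ res K O ρ → ∀ (L : Type) [Field L]
    [Algebra (Ak k) L] [Algebra L K] [IsFractionRing (Ak k) L] [FiniteDimensional L K],
    LK p φ g K L → ∃ h : K, Car p (xK φ K) h = h ∧
      (∃ w : O, ρ w = 1 ∧ (w : K) = algebraMap D K (φ (kap _)) * h) ∧
      ∀ i : D, res i = 0 → h * algebraMap D K i ∈ Om k D K L

/-- [FB fb] THE RESULT. (Uses `S_or`, `S_lk`, `S_pb`, `S_h`, `S_rc`, `S_mo`, `S_nil`, `S_om`, `S_th`,
`S_car`.)

Proof. `Φ f = C (f h) / h`, `κ h = w`, `ρ w = 1`, so `h ≠ 0`. `add`, `frob`, `one`: `S_car`, `C h = h`. `tor`: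
`Φ d = C (d h) / h = κ⁻¹ C (κ ^ p d h) / (κ⁻¹ w) = C (d w κ ^ (p-1)) / w`: `S_rc` (3). `tau`: `Φ` maps `O` to `O` and
`κ O` to `κ O` and on residues of elements of `D` it is `th`; precisely: for `f ∈ O`, `f = a / b`,
`Φ f = Φ (a b ^ (p-1)) / b ∈ O`; `Φ (κ f) = Φ (κ ^ p (f κ ^ (1-p)))`: use instead: if `ρ f = 0`, `f = a / b` with
`res a = 0`, so `ρ (Φ f) = th (res (a b ^ (p-1))) / res b = 0`. Let `d ∈ D`, `τ = ct (res d)`. The elements
`Φ^[n] d ∈ O` have residue `th^[n] (res d)`: (as `res (d) = resA a` and by `S_star` the residue `th (res d)` is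
`resA a' = res (φ a')` with `a' = psi (a κ ^ (p-1))`, so `Φ d - φ a' ∈ κ O`; induction). By `S_th`
`Φ^[n] d - τ_n ∈ κ O` for some `n`, `τ_n = rt^[n] τ ∈ k`. `v := C^[n] (d h) - τ_n h = h (Φ^[n] d - τ_n) ∈ h κ O ⊆ O`,
and `v ∈ Mo` (`d h ∈ Mo`, `Mo` is stable under `C`, see `S_h`), so `v ∈ Om` (`S_mo`), `C^[m] v = 0` for `m ≥ m_0`
(`S_nil`), so `C^[m + n] (d h) = C^[m] (τ_n h) = rt^[m] (τ_n) h` (`c = (rt c) ^ p`), i.e.
`Φ^[m + n] d = rt^[m + n] τ`. -/
def S_fb : Prop := BD p k D φ res g → IsFractionRing D K →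
    ∃ (O : ValuationSubring K) (ρ : O →+* Mf k) (h : K) (Φ : K → K), FB p φ res K O ρ h Φ

/-- [FB bd] `RD` and `NP` give `BD`. (Uses `S_auniv`, `S_resa`.)

Proof. `T ∘ f` is a pseudo-character of `Fr`, `φ` from `S_auniv`: `φ (TA g) = T (f g)`; `φ (X i) = crd f T i`,
`φ kap = T ⁅f gx, f gy⁆ - 2`; `res ∘ φ = resA` on the generators `X i` (`res_T`, `cl ∘ f = clF`). `rng`: `res (T l) =
e_(cl l) = resA (TA g)` for `g` with `clF g = cl l`, and `T l` generate `D`, `resA` has a subalgebra as range. -/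
def S_bd : Prop := p ≠ 2 → ∀ (Λ : Type) [Group Λ] (f : Fr →* Λ)
    (cl : Λ →* Multiplicative (ℤ × ℤ)) (T : Λ → D), Emb Λ f cl → RD k Λ f cl D T res →
    NP p k D (crd f T) g → ∃ φ : Ak k →ₐ[k] D, (∀ w, φ (TA _ w) = T (f w)) ∧
      BD p k D φ res g

end

end Pool.Agent.F2
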